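import Mathlib

/-!
# SML: common definitions for the lower bound of the `(Z/3)^2` moment (MP_0f260b_nt)

Paper proof: /team-store/notes_MP_0f260b_nt_SML.md (helper23).
-/

set_option autoImplicit false

namespace Pool.Agent.SML

/-- the bound for the small primes -/
def z0 : ℕ := 10 ^ 6

/-- the product of the primes `≤ z0` -/
noncomputable def Wz : ℕ := primorial z0

/-- `Cv(k) = y1 k1^3 + y2 k2^3 + y3 k3^3 - 3 p k1 k2 k3` -/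
def Cv (p y1 y2 y3 k1 k2 k3 : ℤ) : ℤ :=
  y1 * k1 ^ 3 + y2 * k2 ^ 3 + y3 * k3 ^ 3 - 3 * p * k1 * k2 * k3

/-- `m = p^3 - y1 y2 y3` -/
def mm (p y1 y2 y3 : ℤ) : ℤ := p ^ 3 - y1 * y2 * y3

/-- the conditions `FAM(T, c)` on the vector `v = (p; y1, y2, y3)` -/
structure Fam (T : ℕ) (c : ℝ) (p y1 y2 y3 : ℕ) : Prop where
  hp : ∃ q : ℕ, q.Prime ∧ T < q ∧ q ≤ 4 * T ∧ p = Wz * q
  y1p : 1 ≤ y1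
  y2p : 1 ≤ y2
  y3p : 1 ≤ y3
  y1u : (y1 : ℝ) ≤ (T : ℝ) ^ (1 - c)
  y2u : (y2 : ℝ) ≤ (T : ℝ) ^ (1 - c)
  y3u : (y3 : ℝ) ≤ (T : ℝ) ^ (1 - c)
  y1l : (T : ℝ) ^ (1 - 3 * c) ≤ (y1 : ℝ)
  y2l : (T : ℝ) ^ (1 - 3 * c) ≤ (y2 : ℝ)
  s1 : Squarefree y1
  s2 : Squarefree y2
  c12 : Nat.Coprime y1 y2
  c13 : Nat.Coprime y1 y3
  c23 : Nat.Coprime y2 y3
  cp1 : Nat.Coprime p y1
  cp2 : Nat.Coprime p y2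
  cp3 : Nat.Coprime p y3
  mlt : y1 * y2 * y3 < p ^ 3
  su : ∑ l ∈ ((p ^ 3 - y1 * y2 * y3) * (y1 * y2 * y3)).primeFactors.filter (fun l => z0 < l),
    (1 : ℝ) / l ≤ 1 / 10 ^ 4
  la : ∃ a : ℤ, IsCoprime a (mm p y1 y2 y3) ∧ mm p y1 y2 y3 ∣ a ^ 3 * y1 - y2

/-- `v` is good: no short vector `k` with `m ∣ Cv(k)` -/
def Good (T : ℕ) (δ : ℝ) (p y1 y2 y3 : ℕ) : Prop :=
  ∀ k1 k2 k3 : ℤ, ¬ (k1 = 0 ∧ k2 = 0 ∧ k3 = 0) → |(k1 : ℝ)| ≤ (T : ℝ) ^ (1 - δ) →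
    |(k2 : ℝ)| ≤ (T : ℝ) ^ (1 - δ) → |(k3 : ℝ)| ≤ (T : ℝ) ^ (1 - δ) →
    ¬ mm p y1 y2 y3 ∣ Cv p y1 y2 y3 k1 k2 k3

/-- the side `G` of the box of the points -/
noncomputable def Gg (T : ℕ) (γ : ℝ) : ℕ := ⌊(T : ℝ) ^ (2 + γ)⌋₊

/-- the data of a vector `v` and its point `g` (Theorem P) -/
structure Pts (T : ℕ) (γ : ℝ) (p y1 y2 y3 g1 g2 g3 N1 N2 N3 : ℤ) : Prop where
  l1 : (Gg T γ : ℤ) ≤ g1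
  l2 : (Gg T γ : ℤ) ≤ g2
  l3 : (Gg T γ : ℤ) ≤ g3
  u1 : g1 ≤ 2 * (Gg T γ : ℤ)
  u2 : g2 ≤ 2 * (Gg T γ : ℤ)
  u3 : g3 ≤ 2 * (Gg T γ : ℤ)
  e1 : N1 * mm p y1 y2 y3 = p * g1 ^ 2 - y1 * g2 * g3
  e2 : N2 * mm p y1 y2 y3 = p * g2 ^ 2 - y2 * g3 * g1
  e3 : N3 * mm p y1 y2 y3 = p * g3 ^ 2 - y3 * g1 * g2
  w1 : IsCoprime g1 6
  w2 : IsCoprime g2 6
  w3 : IsCoprime g3 6
  r3 : (3 : ℤ) ∣ y2 * y3 * g2 * g3 + 1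
  gm : IsCoprime g1 (mm p y1 y2 y3)
  gp1 : IsCoprime g1 p
  gp2 : IsCoprime g2 p
  gp3 : IsCoprime g3 p
  gy1 : IsCoprime g1 y1
  gy2 : IsCoprime g2 y2
  gy3 : IsCoprime g3 y3
  ny1 : IsCoprime N1 y1
  ny2 : IsCoprime N2 y2
  ny3 : IsCoprime N3 y3
  n12 : IsCoprime N1 N2
  n13 : IsCoprime N1 N3
  n23 : IsCoprime N2 N3

end Pool.Agent.SML
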