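import Pool.Agent.SML.Fin2
import Pool.Agent.SMP.BrP
import Pool.Agent.SMI.FaK

/-!
# SML/Fin: the lower bound of the `(Z/3)^2` moment
-/

set_option autoImplicit false

namespace Pool.Agent.SML

open NumberField Pool.Agent.FTA

/-- for `ε > 0` and all large `X` the average number of surjections of the 3-part of `Cl(K)` onto a
group of order 9 and exponent 3 is at least `X ^ (-ε)` -/
theorem finL (ε : ℝ) (hε : 0 < ε) : ∃ X0 : ℝ, ∀ X : ℝ, X0 ≤ X →
      ∀ (H : Type) [CommGroup H], Nat.card H = 9 → (∀ x : H, x ^ 3 = 1) →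
      X ^ (-ε) ≤ (∑ᶠ K ∈ IQ ⌊X⌋₊, (Nat.card {f : ↥(Subgroup.closure
        {g : ClassGroup (𝓞 K) | ∃ n : ℕ, g ^ (3 ^ n) = 1}) →* H // Function.Surjective f} : ℝ)) /
        (IQ ⌊X⌋₊).ncard :=
  fin2 (fun γ h1 h2 => Pool.Agent.SMP.brd γ h1 h2) (fun ε hε => Pool.Agent.SMI.mai ε hε) ε hε

end Pool.Agent.SML
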