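import Pool.Agent.SML.Csz

/-!
# SML/Cbg (C9)

`G = Gg T γ`, `T^(2+γ)/2 ≤ G ≤ T^(2+γ)` for `T` large; `W T < p ≤ 4 W T` (`W = Wz`, `p = Wz q`, `T < q ≤ 4 T`), `W ≥ 1`
(even `W ≥ 2`; `primorial_pos`); `y_i ≤ T^(1-c)`, so `1000 y_i ≤ T ≤ p` for `T` large.  `csz` (over the reals, all casts).
`N_i p^2 ≤ 5 G^2`, `p > W T`: `N_i ≤ BT`.  `N_i p^2 ≥ (99/100) G^2`, `p ≤ 4 W T`: `N_i ≥ (99/100) T^(4+2γ)/(4 * 16 W^2 T^2) ≥ 2`.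
`Du`: `D ≤ 500 G^6 / p^8 ≤ 500 T^(12+6γ) / (W T)^8 ≤ T^(4+6γ)` because `W ≥ 6` so `W^8 ≥ 500` (`2 ∣ W`, `3 ∣ W`; or: both 2 and
3 are primes `≤ z0`, `W ≥ 6`).
`bt`: `4 BT^2 = 100 G^4/(W T)^4 < 2 G^6/(4 W T)^8 ≤ D` because `50 * 4^8 (W T)^4 < G^2` for `T` large (`G^2 ≥ T^(4+2γ)/4`).
`s1`: `D = f^2 d`, `f ≤ T^(7γ)`: `d = D/f^2 ≥ 2 G^6/((4 W T)^8 T^(14 γ)) ≥ c_W T^(4 - 8γ)`, `4 N_i ≤ 4 BT ≤ 20 T^(2+2γ)/W^2`; `4 - 8γ > 2 + 2γ`.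
`s2`: `k^2 d ≤ 4 N_i N_j ≤ 4 BT^2 = 100 G^4/(W T)^4`, so `k^2 ≤ 100 G^4 f^2/((W T)^4 D) ≤ 50 f^2 G^4 (4WT)^8/((WT)^4 G^6) =
50 * 4^8 f^2 (W T)^4/G^2 ≤ 200 * 4^8 W^4 T^(14γ + 4 - 4 - 2γ) = O(T^(12γ)) ≤ (T^(1-γ/100))^2` (`γ < 1/100`).
-/

set_option autoImplicit false

namespace Pool.Agent.SML

/-- sizes of the norms -/
private lemma l1 (W t a G p N : ℝ) (hW : 6 ≤ W) (ht : 1 ≤ t) (ha : 1 ≤ a)
    (h2 : 160 * 4 ^ 8 * W ^ 6 < t) (hG1 : t ^ 2 * a / 2 ≤ G)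
    (hp1 : W * t ≤ p) (hp2 : p ≤ 4 * (W * t))
    (nl : 99 / 100 * G ^ 2 ≤ N * p ^ 2) (nu : N * p ^ 2 ≤ 5 * G ^ 2) :
    1 < N ∧ N ≤ 5 * G ^ 2 / (W * t) ^ 2 := by
  have hA : 0 < W * t := by positivity
  have hp0 : 0 < p := lt_of_lt_of_le hA hp1
  have hWt : 100 * W ≤ t := by
    have h6 : W ≤ W ^ 6 := le_self_pow₀ (by linarith) (by norm_num)
    have : 100 * W ≤ 160 * 4 ^ 8 * W ^ 6 := by nlinarith
    linarith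
  have hG0 : 0 < G := by
    have : 0 < t ^ 2 * a / 2 := by positivity
    linarith
  have hG3 : (t ^ 2 / 2) ≤ G := by
    have : t ^ 2 * 1 ≤ t ^ 2 * a := by gcongr
    linarith
  have hG2 : (t ^ 2 / 2) ^ 2 ≤ G ^ 2 := by gcongr
  have hN1 : 1 < N := by
    by_contra hcon
    have hcon' : N ≤ 1 := not_lt.mp hcon
    have e1 : N * p ^ 2 ≤ 1 * p ^ 2 := by gcongr
    have e2 : p ^ 2 ≤ (4 * (W * t)) ^ 2 := by gcongr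
    have e3 : (100 * W) ^ 2 * t ^ 2 ≤ t ^ 2 * t ^ 2 := by gcongr
    have e4 : 0 < W ^ 2 * t ^ 2 := by positivity
    nlinarith
  refine ⟨hN1, ?_⟩
  rw [le_div_iff₀ (by positivity)]
  have : N * (W * t) ^ 2 ≤ N * p ^ 2 := by gcongr
  linarith

/-- lower bound for `D (W t)^8` -/
private lemma l2 (W t G p D : ℝ) (hW : 6 ≤ W) (ht : 1 ≤ t) (hG : 0 < G)
    (hp1 : W * t ≤ p) (hp2 : p ≤ 4 * (W * t)) (dl : 2 * G ^ 6 ≤ D * p ^ 8) :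
    0 < D ∧ 2 * G ^ 6 ≤ D * (4 ^ 8 * (W * t) ^ 8) := by
  have hA : 0 < W * t := by positivity
  have hp0 : 0 < p := lt_of_lt_of_le hA hp1
  have hD : 0 < D := by
    have h1 : 0 < D * p ^ 8 := lt_of_lt_of_le (by positivity) dl
    exact pos_of_mul_pos_left h1 (by positivity)
  refine ⟨hD, dl.trans ?_⟩
  have : p ^ 8 ≤ (4 * (W * t)) ^ 8 := by gcongr
  calc D * p ^ 8 ≤ D * (4 * (W * t)) ^ 8 := by gcongr
    _ = D * (4 ^ 8 * (W * t) ^ 8) := by ring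

private lemma l3 (W t a G p D : ℝ) (hW : 6 ≤ W) (ht : 1 ≤ t) (ha : 1 ≤ a) (hG : 0 < G)
    (hG2 : G ≤ t ^ 2 * a) (hp1 : W * t ≤ p) (hD : 0 < D) (du : D * p ^ 8 ≤ 500 * G ^ 6) :
    D ≤ t ^ 4 * a ^ 6 := by
  have hA : 0 < W * t := by positivity
  have h1 : D * (6 * t) ^ 8 ≤ D * p ^ 8 := by
    have : 6 * t ≤ p := le_trans (by gcongr) hp1
    gcongr
  have h2 : 500 * G ^ 6 ≤ 500 * (t ^ 2 * a) ^ 6 := by gcongr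
  have h3 : D * (6 * t) ^ 8 ≤ 500 * (t ^ 2 * a) ^ 6 := by linarith
  have h4 : D * (6 * t) ^ 8 = D * t ^ 8 * 6 ^ 8 := by ring
  have h5 : (t ^ 2 * a) ^ 6 = (t ^ 4 * a ^ 6) * t ^ 8 := by ring
  rw [h4, h5] at h3
  have h6 : 0 < t ^ 8 := by positivity
  have h7 : 0 ≤ (t ^ 4 * a ^ 6) * t ^ 8 := by positivity
  have h8 : D * t ^ 8 ≤ (t ^ 4 * a ^ 6) * t ^ 8 := by nlinarith
  exact le_of_mul_le_mul_right h8 h6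

private lemma l4 (W t a G D : ℝ) (hW : 6 ≤ W) (ht : 1 ≤ t) (ha : 1 ≤ a)
    (h1 : 200 * 4 ^ 8 * W ^ 4 < a ^ 2) (hG1 : t ^ 2 * a / 2 ≤ G)
    (hD : 2 * G ^ 6 ≤ D * (4 ^ 8 * (W * t) ^ 8)) :
    4 * (5 * G ^ 2 / (W * t) ^ 2) ^ 2 < D := by
  have hA : 0 < W * t := by positivity
  have hG0 : 0 < G := by
    have : 0 < t ^ 2 * a / 2 := by positivity
    linarith
  have hG2 : (t ^ 2 * a / 2) ^ 2 ≤ G ^ 2 := by gcongr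
  have hk : 50 * 4 ^ 8 * (W * t) ^ 4 < G ^ 2 := by
    have e1 : t ^ 4 * (200 * 4 ^ 8 * W ^ 4) < t ^ 4 * a ^ 2 := by gcongr
    have e2 : (t ^ 2 * a / 2) ^ 2 = t ^ 4 * a ^ 2 / 4 := by ring
    have e3 : 50 * 4 ^ 8 * (W * t) ^ 4 = t ^ 4 * (200 * 4 ^ 8 * W ^ 4) / 4 := by ring
    rw [e3]
    rw [e2] at hG2
    linarith
  have e4 : 2 * G ^ 4 * (50 * 4 ^ 8 * (W * t) ^ 4) < 2 * G ^ 4 * G ^ 2 := by gcongr
  have e5 : 2 * G ^ 4 * (50 * 4 ^ 8 * (W * t) ^ 4) < D * (4 ^ 8 * (W * t) ^ 8) := by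
    have : 2 * G ^ 4 * G ^ 2 = 2 * G ^ 6 := by ring
    linarith
  have e6 : 100 * G ^ 4 * (4 ^ 8 * (W * t) ^ 4) < D * (W * t) ^ 4 * (4 ^ 8 * (W * t) ^ 4) := by
    have f1 : 2 * G ^ 4 * (50 * 4 ^ 8 * (W * t) ^ 4) = 100 * G ^ 4 * (4 ^ 8 * (W * t) ^ 4) := by ring
    have f2 : D * (4 ^ 8 * (W * t) ^ 8) = D * (W * t) ^ 4 * (4 ^ 8 * (W * t) ^ 4) := by ring
    rw [← f1, ← f2]; exact e5
  have e7 : 100 * G ^ 4 < D * (W * t) ^ 4 := lt_of_mul_lt_mul_right e6 (by positivity)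
  have e8 : 4 * (5 * G ^ 2 / (W * t) ^ 2) ^ 2 = 100 * G ^ 4 / (W * t) ^ 4 := by
    field_simp; norm_num
  rw [e8, div_lt_iff₀ (by positivity)]
  exact e7

private lemma l5 (W t a G D N F d : ℝ) (hW : 6 ≤ W) (ht : 1 ≤ t) (ha : 1 ≤ a) (ha14 : a ^ 14 ≤ t)
    (h2 : 160 * 4 ^ 8 * W ^ 6 < t) (hG1 : t ^ 2 * a / 2 ≤ G)
    (hD : 2 * G ^ 6 ≤ D * (4 ^ 8 * (W * t) ^ 8)) (hN : N ≤ 5 * G ^ 2 / (W * t) ^ 2)
    (hF0 : 0 ≤ F) (hF : F ≤ a ^ 7) (hd : D = F ^ 2 * d) : 4 * N < d := by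
  have hA : 0 < W * t := by positivity
  have hG0 : 0 < G := by
    have : 0 < t ^ 2 * a / 2 := by positivity
    linarith
  by_contra hcon
  have hcon' : d ≤ 4 * N := not_lt.mp hcon
  have h3 : d ≤ 20 * G ^ 2 / (W * t) ^ 2 := by
    have : 4 * (5 * G ^ 2 / (W * t) ^ 2) = 20 * G ^ 2 / (W * t) ^ 2 := by ring
    linarith
  have h4 : F ^ 2 ≤ a ^ 14 := by
    calc F ^ 2 ≤ (a ^ 7) ^ 2 := by gcongr
      _ = a ^ 14 := by ring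
  have h5 : D ≤ a ^ 14 * (20 * G ^ 2 / (W * t) ^ 2) := by
    rw [hd]
    calc F ^ 2 * d ≤ F ^ 2 * (20 * G ^ 2 / (W * t) ^ 2) := by gcongr
      _ ≤ a ^ 14 * (20 * G ^ 2 / (W * t) ^ 2) := by gcongr
  have h6 : D * (W * t) ^ 2 ≤ a ^ 14 * (20 * G ^ 2) := by
    have e : a ^ 14 * (20 * G ^ 2 / (W * t) ^ 2) = a ^ 14 * (20 * G ^ 2) / (W * t) ^ 2 := by ring
    rw [e, le_div_iff₀ (by positivity)] at h5
    exact h5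
  have h7 : 2 * G ^ 6 ≤ a ^ 14 * (20 * G ^ 2) * (4 ^ 8 * (W * t) ^ 6) := by
    calc 2 * G ^ 6 ≤ D * (4 ^ 8 * (W * t) ^ 8) := hD
      _ = D * (W * t) ^ 2 * (4 ^ 8 * (W * t) ^ 6) := by ring
      _ ≤ a ^ 14 * (20 * G ^ 2) * (4 ^ 8 * (W * t) ^ 6) := by gcongr
  have h8 : G ^ 4 ≤ 10 * 4 ^ 8 * (W * t) ^ 6 * a ^ 14 := by
    have f1 : 2 * G ^ 6 = G ^ 4 * (2 * G ^ 2) := by ring
    have f2 : a ^ 14 * (20 * G ^ 2) * (4 ^ 8 * (W * t) ^ 6) =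
      (10 * 4 ^ 8 * (W * t) ^ 6 * a ^ 14) * (2 * G ^ 2) := by ring
    rw [f1, f2] at h7
    exact le_of_mul_le_mul_right h7 (by positivity)
  have h9 : (t ^ 2 * a / 2) ^ 4 ≤ G ^ 4 := by gcongr
  have h10 : (t ^ 2 * a / 2) ^ 4 = t ^ 2 * (t ^ 6 * a ^ 4 / 16) := by ring
  have h11 : 10 * 4 ^ 8 * (W * t) ^ 6 * a ^ 14 = 160 * 4 ^ 8 * W ^ 6 * a ^ 10 * (t ^ 6 * a ^ 4 / 16) := by
    ring
  have h12 : t ^ 2 * (t ^ 6 * a ^ 4 / 16) ≤ 160 * 4 ^ 8 * W ^ 6 * a ^ 10 * (t ^ 6 * a ^ 4 / 16) := by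
    rw [← h10, ← h11]; exact h9.trans h8
  have h13 : t ^ 2 ≤ 160 * 4 ^ 8 * W ^ 6 * a ^ 10 := le_of_mul_le_mul_right h12 (by positivity)
  have h14 : a ^ 10 ≤ t := le_trans (pow_le_pow_right₀ ha (by norm_num)) ha14
  have h15 : 160 * 4 ^ 8 * W ^ 6 * a ^ 10 < t * t := by
    have hW6 : 0 < 160 * 4 ^ 8 * W ^ 6 := by positivity
    calc 160 * 4 ^ 8 * W ^ 6 * a ^ 10 ≤ 160 * 4 ^ 8 * W ^ 6 * t := by gcongr
      _ < t * t := by gcongr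
  nlinarith

private lemma l6 (W t a G D N N' F d k : ℝ) (hW : 6 ≤ W) (ht : 1 ≤ t) (ha : 1 ≤ a)
    (ha14 : a ^ 14 ≤ t)
    (h2 : 160 * 4 ^ 8 * W ^ 6 < t) (hG1 : t ^ 2 * a / 2 ≤ G)
    (hD : 2 * G ^ 6 ≤ D * (4 ^ 8 * (W * t) ^ 8)) (hN : N ≤ 5 * G ^ 2 / (W * t) ^ 2)
    (hN' : N' ≤ 5 * G ^ 2 / (W * t) ^ 2) (hN0 : 0 ≤ N) (hN0' : 0 ≤ N')
    (hF0 : 0 ≤ F) (hF : F ≤ a ^ 7) (hd : D = F ^ 2 * d) (hk : d * k ^ 2 ≤ 4 * (N * N')) :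
    |k| ≤ t / a := by
  have hA : 0 < W * t := by positivity
  have hG0 : 0 < G := by
    have : 0 < t ^ 2 * a / 2 := by positivity
    linarith
  have h4 : F ^ 2 ≤ a ^ 14 := by
    calc F ^ 2 ≤ (a ^ 7) ^ 2 := by gcongr
      _ = a ^ 14 := by ring
  have h3 : d * k ^ 2 ≤ 100 * G ^ 4 / (W * t) ^ 4 := by
    have e1 : N * N' ≤ (5 * G ^ 2 / (W * t) ^ 2) * (5 * G ^ 2 / (W * t) ^ 2) := by gcongr
    have e2 : 4 * ((5 * G ^ 2 / (W * t) ^ 2) * (5 * G ^ 2 / (W * t) ^ 2)) = 100 * G ^ 4 / (W * t) ^ 4 := by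
      field_simp; norm_num
    linarith
  have h5 : D * k ^ 2 ≤ a ^ 14 * (100 * G ^ 4 / (W * t) ^ 4) := by
    rw [hd]
    calc F ^ 2 * d * k ^ 2 = F ^ 2 * (d * k ^ 2) := by ring
      _ ≤ F ^ 2 * (100 * G ^ 4 / (W * t) ^ 4) := by gcongr
      _ ≤ a ^ 14 * (100 * G ^ 4 / (W * t) ^ 4) := by gcongr
  have h6 : D * k ^ 2 * (W * t) ^ 4 ≤ a ^ 14 * (100 * G ^ 4) := by
    have e : a ^ 14 * (100 * G ^ 4 / (W * t) ^ 4) = a ^ 14 * (100 * G ^ 4) / (W * t) ^ 4 := by ring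
    rw [e, le_div_iff₀ (by positivity)] at h5
    exact h5
  have h7 : 2 * G ^ 6 * k ^ 2 ≤ a ^ 14 * (100 * G ^ 4) * (4 ^ 8 * (W * t) ^ 4) := by
    calc 2 * G ^ 6 * k ^ 2 ≤ D * (4 ^ 8 * (W * t) ^ 8) * k ^ 2 := by gcongr
      _ = D * k ^ 2 * (W * t) ^ 4 * (4 ^ 8 * (W * t) ^ 4) := by ring
      _ ≤ a ^ 14 * (100 * G ^ 4) * (4 ^ 8 * (W * t) ^ 4) := by gcongr
  have h8 : k ^ 2 * G ^ 2 ≤ 50 * 4 ^ 8 * (W * t) ^ 4 * a ^ 14 := by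
    have f1 : 2 * G ^ 6 * k ^ 2 = k ^ 2 * G ^ 2 * (2 * G ^ 4) := by ring
    have f2 : a ^ 14 * (100 * G ^ 4) * (4 ^ 8 * (W * t) ^ 4) =
      (50 * 4 ^ 8 * (W * t) ^ 4 * a ^ 14) * (2 * G ^ 4) := by ring
    rw [f1, f2] at h7
    exact le_of_mul_le_mul_right h7 (by positivity)
  have h9 : k ^ 2 * (t ^ 2 * a / 2) ^ 2 ≤ k ^ 2 * G ^ 2 := by gcongr
  have h10 : k ^ 2 * (t ^ 2 * a / 2) ^ 2 = k ^ 2 * a ^ 2 * (t ^ 4 / 4) := by ring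
  have h11 : 50 * 4 ^ 8 * (W * t) ^ 4 * a ^ 14 = 200 * 4 ^ 8 * W ^ 4 * a ^ 14 * (t ^ 4 / 4) := by ring
  have h12 : k ^ 2 * a ^ 2 * (t ^ 4 / 4) ≤ 200 * 4 ^ 8 * W ^ 4 * a ^ 14 * (t ^ 4 / 4) := by
    rw [← h10, ← h11]; exact h9.trans h8
  have h13 : k ^ 2 * a ^ 2 ≤ 200 * 4 ^ 8 * W ^ 4 * a ^ 14 := le_of_mul_le_mul_right h12 (by positivity)
  have h14 : 200 * 4 ^ 8 * W ^ 4 ≤ t := by
    have hW2 : 36 ≤ W ^ 2 := by nlinarith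
    have hW6 : W ^ 6 = W ^ 4 * W ^ 2 := by ring
    have hW4 : 0 < W ^ 4 := by positivity
    nlinarith
  have h15 : k ^ 2 * a ^ 2 ≤ t * t := by
    calc k ^ 2 * a ^ 2 ≤ 200 * 4 ^ 8 * W ^ 4 * a ^ 14 := h13
      _ ≤ t * t := by gcongr
  rw [le_div_iff₀ (by positivity)]
  have h16 : (|k| * a) ^ 2 ≤ t ^ 2 := by
    rw [mul_pow, sq_abs]; nlinarith
  exact abs_le_of_sq_le_sq' h16 (by positivity) |>.2

/-- the bound for the large `T` -/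
private lemma l0 (γ c W : ℝ) (hγ : 0 < γ) (hc : 0 < c) :
    ∃ T0 : ℕ, ∀ T : ℕ, T0 ≤ T → 2 ≤ (T : ℝ) ∧ 160 * 4 ^ 8 * W ^ 6 < (T : ℝ) ∧
      200 * 4 ^ 8 * W ^ 4 < (T : ℝ) ^ γ ∧ 1000 ≤ (T : ℝ) ^ c := by
  have h1 : ∀ᶠ T : ℕ in Filter.atTop, 2 ≤ (T : ℝ) :=
    tendsto_natCast_atTop_atTop.eventually_ge_atTop 2
  have h2 : ∀ᶠ T : ℕ in Filter.atTop, 160 * 4 ^ 8 * W ^ 6 < (T : ℝ) :=
    tendsto_natCast_atTop_atTop.eventually_gt_atTop _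
  have h3 : ∀ᶠ T : ℕ in Filter.atTop, 200 * 4 ^ 8 * W ^ 4 < (T : ℝ) ^ γ :=
    ((tendsto_rpow_atTop hγ).comp tendsto_natCast_atTop_atTop).eventually_gt_atTop _
  have h4 : ∀ᶠ T : ℕ in Filter.atTop, 1000 ≤ (T : ℝ) ^ c :=
    ((tendsto_rpow_atTop hc).comp tendsto_natCast_atTop_atTop).eventually_ge_atTop _
  obtain ⟨T0, hT0⟩ := Filter.eventually_atTop.1 (h1.and (h2.and (h3.and h4)))
  exact ⟨T0, fun T hT => hT0 T hT⟩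

private lemma w1 : z0 ≤ Wz := le_primorial_self

attribute [local irreducible] Wz

/-- `C9`: the size facts for large `T` -/
theorem cbg (γ c : ℝ) (hγ : 0 < γ) (hγ2 : γ < 1 / 100) (hc : 0 < c) :
    ∃ T0 : ℕ, ∀ T : ℕ, T0 ≤ T → ∀ p y1 y2 y3 : ℕ, Fam T c p y1 y2 y3 →
      ∀ g1 g2 g3 N1 N2 N3 : ℤ, Pts T γ p y1 y2 y3 g1 g2 g3 N1 N2 N3 →
      ∀ (xp : ℤ) (D : ℤ), (mm p y1 y2 y3) ^ 2 * xp = - Cg p y1 y2 y3 g1 g2 g3 →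
        D * (p : ℤ) ^ 2 = 4 * N1 * N2 * N3 - xp ^ 2 →
        0 < D ∧ 2 ≤ N1 ∧ 2 ≤ N2 ∧ 2 ≤ N3 ∧ Big T γ N1 N2 N3 D.toNat := by
  obtain ⟨W, hWd⟩ : ∃ W : ℝ, W = (Wz : ℝ) := ⟨_, rfl⟩
  have hW : 6 ≤ W := by
    have h1 : z0 ≤ Wz := w1
    have h2 : (6 : ℕ) ≤ z0 := by unfold z0; norm_num
    rw [hWd]; exact_mod_cast h2.trans h1
  obtain ⟨T0, hT0⟩ := l0 γ c W hγ hc
  refine ⟨T0, fun T hT p y1 y2 y3 hF g1 g2 g3 N1 N2 N3 hP xp D hxp hDp => ?_⟩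
  obtain ⟨t2, hT2, hT3, hT4⟩ := hT0 T hT
  obtain ⟨t, htd⟩ : ∃ t : ℝ, t = (T : ℝ) := ⟨_, rfl⟩
  obtain ⟨a, had⟩ : ∃ a : ℝ, a = t ^ γ := ⟨_, rfl⟩
  obtain ⟨G, hGd⟩ : ∃ G : ℝ, G = (Gg T γ : ℝ) := ⟨_, rfl⟩
  rw [← htd] at t2 hT2 hT3 hT4
  rw [← had] at hT3
  have ht1 : 1 ≤ t := by linarith
  have ht0 : 0 < t := by linarith
  have ha : 1 ≤ a := by rw [had]; exact Real.one_le_rpow ht1 hγ.le
  have hpa : ∀ n : ℕ, a ^ n = t ^ (γ * n) := by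
    intro n
    rw [had, ← Real.rpow_natCast, ← Real.rpow_mul ht0.le]
  have ha14 : a ^ 14 ≤ t := by
    rw [hpa]
    calc t ^ (γ * ((14 : ℕ) : ℝ)) ≤ t ^ (1 : ℝ) := by
          apply Real.rpow_le_rpow_of_exponent_le ht1
          push_cast; linarith
      _ = t := Real.rpow_one t
  have h1 : 200 * 4 ^ 8 * W ^ 4 < a ^ 2 := by
    have : a ≤ a ^ 2 := le_self_pow₀ ha (by norm_num)
    linarith
  have hpow : t ^ (2 + γ) = t ^ 2 * a := by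
    rw [Real.rpow_add ht0, had]
    norm_num
  have hta : 4 ≤ t ^ 2 * a := by nlinarith
  have hG2 : G ≤ t ^ 2 * a := by
    rw [hGd, ← hpow, htd]
    exact Nat.floor_le (by positivity)
  have hG1 : t ^ 2 * a / 2 ≤ G := by
    have h := Nat.lt_floor_add_one ((T : ℝ) ^ (2 + γ))
    have h' : t ^ 2 * a < G + 1 := by
      rw [← hpow, hGd, htd]; exact h
    linarith
  have hG0 : 0 < G := by linarith
  have hGe : 1 ≤ G := by linarith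
  obtain ⟨q, hq, hq1, hq2, hpq⟩ := hF.hp
  have hpR : (p : ℝ) = W * q := by rw [hpq, hWd]; push_cast; ring
  have hp1 : W * t ≤ (p : ℝ) := by
    rw [hpR, htd]
    have : (T : ℝ) ≤ q := by exact_mod_cast hq1.le
    gcongr
  have hp2 : (p : ℝ) ≤ 4 * (W * t) := by
    rw [hpR, htd]
    have : (q : ℝ) ≤ 4 * T := by exact_mod_cast hq2
    nlinarith
  have hA : 0 < W * t := by positivity
  have hp0 : 0 < (p : ℝ) := lt_of_lt_of_le hA hp1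
  have hy : ∀ y : ℝ, y ≤ t ^ (1 - c) → 1000 * y ≤ p := by
    intro y hy
    have e1 : t ^ c * t ^ (1 - c) = t := by
      rw [← Real.rpow_add ht0]; simp
    have e2 : 0 ≤ t ^ (1 - c) := by positivity
    have e3 : 1000 * y ≤ t := by
      calc 1000 * y ≤ 1000 * t ^ (1 - c) := by linarith
        _ ≤ t ^ c * t ^ (1 - c) := by gcongr
        _ = t := e1
    have e4 : t ≤ W * t := by nlinarith
    linarith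
  have hm : ((mm p y1 y2 y3 : ℤ) : ℝ) = (p : ℝ) ^ 3 - (y1 : ℝ) * y2 * y3 := by
    unfold mm; push_cast; ring
  have e1 : (N1 : ℝ) * ((mm p y1 y2 y3 : ℤ) : ℝ) = p * (g1 : ℝ) ^ 2 - y1 * g2 * g3 := by
    exact_mod_cast hP.e1
  have e2 : (N2 : ℝ) * ((mm p y1 y2 y3 : ℤ) : ℝ) = p * (g2 : ℝ) ^ 2 - y2 * g3 * g1 := by
    exact_mod_cast hP.e2
  have e3 : (N3 : ℝ) * ((mm p y1 y2 y3 : ℤ) : ℝ) = p * (g3 : ℝ) ^ 2 - y3 * g1 * g2 := by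
    exact_mod_cast hP.e3
  have hx : ((mm p y1 y2 y3 : ℤ) : ℝ) ^ 2 * (xp : ℝ) =
      -((2 * ((y1 : ℝ) * y2 * y3) + (p : ℝ) ^ 3) * ((g1 : ℝ) * g2 * g3) -
      p * ((y1 : ℝ) * y2 * (g3 : ℝ) ^ 3 + (y1 : ℝ) * y3 * (g2 : ℝ) ^ 3 +
        (y2 : ℝ) * y3 * (g1 : ℝ) ^ 3)) := by
    have := hxp
    unfold Cg at this
    exact_mod_cast this
  have hDr : (D : ℝ) * (p : ℝ) ^ 2 = 4 * (N1 : ℝ) * N2 * N3 - (xp : ℝ) ^ 2 := by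
    exact_mod_cast hDp
  have hl1 : G ≤ (g1 : ℝ) := by rw [hGd]; exact_mod_cast hP.l1
  have hl2 : G ≤ (g2 : ℝ) := by rw [hGd]; exact_mod_cast hP.l2
  have hl3 : G ≤ (g3 : ℝ) := by rw [hGd]; exact_mod_cast hP.l3
  have hu1 : (g1 : ℝ) ≤ 2 * G := by rw [hGd]; exact_mod_cast hP.u1
  have hu2 : (g2 : ℝ) ≤ 2 * G := by rw [hGd]; exact_mod_cast hP.u2
  have hu3 : (g3 : ℝ) ≤ 2 * G := by rw [hGd]; exact_mod_cast hP.u3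
  have hy1 : (0 : ℝ) < y1 := by exact_mod_cast hF.y1p
  have hy2 : (0 : ℝ) < y2 := by exact_mod_cast hF.y2p
  have hy3 : (0 : ℝ) < y3 := by exact_mod_cast hF.y3p
  obtain ⟨⟨a1, b1⟩, ⟨a2, b2⟩, ⟨a3, b3⟩, dl, du⟩ := csz (p : ℝ) y1 y2 y3 g1 g2 g3 G N1 N2 N3 xp D _ hGe hp0
    hl1 hl2 hl3 hu1 hu2 hu3 hy1 hy2 hy3 (hy _ (by rw [htd]; exact hF.y1u))
    (hy _ (by rw [htd]; exact hF.y2u)) (hy _ (by rw [htd]; exact hF.y3u)) hm e1 e2 e3 hx hDr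
  obtain ⟨c1, d1⟩ := l1 W t a G p N1 hW ht1 ha hT2 hG1 hp1 hp2 a1 b1
  obtain ⟨c2, d2⟩ := l1 W t a G p N2 hW ht1 ha hT2 hG1 hp1 hp2 a2 b2
  obtain ⟨c3, d3⟩ := l1 W t a G p N3 hW ht1 ha hT2 hG1 hp1 hp2 a3 b3
  obtain ⟨hD0, hD8⟩ := l2 W t G p D hW ht1 hG0 hp1 hp2 dl
  have hD0' : 0 < D := by exact_mod_cast hD0
  have hn1 : 1 < N1 := by exact_mod_cast c1
  have hn2 : 1 < N2 := by exact_mod_cast c2
  have hn3 : 1 < N3 := by exact_mod_cast c3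
  have hDn : ((D.toNat : ℕ) : ℝ) = (D : ℝ) := by
    have : ((D.toNat : ℕ) : ℤ) = D := Int.toNat_of_nonneg hD0'.le
    exact_mod_cast congrArg (fun z : ℤ => (z : ℝ)) this
  have hBT : BT T γ = 5 * G ^ 2 / (W * t) ^ 2 := by
    unfold BT; rw [hGd, hWd, htd]
  have h7 : t ^ (7 * γ) = a ^ 7 := by rw [hpa]; congr 1; push_cast; ring
  refine ⟨hD0', by omega, by omega, by omega, ?_⟩
  refine { Du := ?_, b1 := ?_, b2 := ?_, b3 := ?_, bt := ?_, s1 := ?_, s2 := ?_ }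
  · rw [hDn]
    have h := l3 W t a G p D hW ht1 ha hG0 hG2 hp1 hD0 du
    have e : (T : ℝ) ^ (4 + 6 * γ) = t ^ 4 * a ^ 6 := by
      rw [← htd, Real.rpow_add ht0, hpa]
      congr 1
      · norm_num
      · congr 1; push_cast; ring
    rw [e]; exact h
  · rw [hBT]; exact d1
  · rw [hBT]; exact d2
  · rw [hBT]; exact d3
  · rw [hBT, hDn]
    exact l4 W t a G D hW ht1 ha h1 hG1 hD8
  · intro f d hfd hf
    have hf' : (f : ℝ) ≤ a ^ 7 := by rw [← h7, htd]; exact hf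
    have hDfd : (D : ℝ) = (f : ℝ) ^ 2 * (d : ℝ) := by
      rw [← hDn, hfd]; push_cast; ring
    refine ⟨?_, ?_, ?_⟩
    · have := l5 W t a G D N1 f d hW ht1 ha ha14 hT2 hG1 hD8 d1 (by positivity) hf' hDfd
      exact_mod_cast this
    · have := l5 W t a G D N2 f d hW ht1 ha ha14 hT2 hG1 hD8 d2 (by positivity) hf' hDfd
      exact_mod_cast this
    · have := l5 W t a G D N3 f d hW ht1 ha ha14 hT2 hG1 hD8 d3 (by positivity) hf' hDfd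
      exact_mod_cast this
  · intro f d hfd hf k hk
    have hf' : (f : ℝ) ≤ a ^ 7 := by rw [← h7, htd]; exact hf
    have hDfd : (D : ℝ) = (f : ℝ) ^ 2 * (d : ℝ) := by
      rw [← hDn, hfd]; push_cast; ring
    have hk' : |(k : ℝ)| ≤ t / a := by
      rcases hk with hk | hk | hk
      · exact l6 W t a G D N1 N2 f d k hW ht1 ha ha14 hT2 hG1 hD8 d1 d2 (by linarith) (by linarith)
          (by positivity) hf' hDfd (by exact_mod_cast hk)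
      · exact l6 W t a G D N2 N3 f d k hW ht1 ha ha14 hT2 hG1 hD8 d2 d3 (by linarith) (by linarith)
          (by positivity) hf' hDfd (by exact_mod_cast hk)
      · exact l6 W t a G D N1 N3 f d k hW ht1 ha ha14 hT2 hG1 hD8 d1 d3 (by linarith) (by linarith)
          (by positivity) hf' hDfd (by exact_mod_cast hk)
    refine hk'.trans ?_
    have e : t / a = t ^ (1 - γ) := by
      rw [Real.rpow_sub ht0, Real.rpow_one, had]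
    rw [e, ← htd]
    exact Real.rpow_le_rpow_of_exponent_le ht1 (by linarith)

end Pool.Agent.SML
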