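import Pool.Agent.SML.Ing

/-!
# SML/Cco (C6)

`cco`: `g1 (p x1) = g1 y1 xp + 2 N1 g1^2 = N1^2 p^2 + N1 g1^2 - N2 N3 y1^2`, so
`N2 N3 y1^2 = N1 (N1 p^2 + g1^2) - g1 p x1`: a common divisor of `N1` and `x1` divides `N2 N3 y1^2`, and `N1` is coprime to
`N2 N3 y1^2`.  In Lean: `IsCoprime N1 (N2 * N3 * y1 ^ 2)` gives `a N1 + b (N2 N3 y1^2) = 1`; substitute; `IsCoprime N1 x1`
with explicit coefficients.  `IsCoprime N1 D`: `x1^2 = 4 N1^3 - D y1^2`: from `IsCoprime N1 (x1^2)`, `a N1 + b x1^2 = 1`,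
substitute `x1^2`.
`ckk`: if `y1 x2 = y2 x1` then `y1 ∣ y2 x1`, `y1 ∣ x1` (`c12`), so `y1^2 ∣ x1^2`, `y1^2 ∣ 4 N1^3`; `y1^2` is coprime to `4` (odd)
and to `N1^3`, so `y1^2 ∣ 1`, contradiction to `y1 ≥ 2`.
-/

set_option autoImplicit false

namespace Pool.Agent.SML

/-- `C6`: `gcd(N_i, x_i) = gcd(N_i, D) = 1` (one index, given the data) -/
theorem cco (p y1 g1 N1 N2 N3 D xp x1 : ℤ) (ny : IsCoprime N1 y1) (n12 : IsCoprime N1 N2)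
    (n13 : IsCoprime N1 N3)
    (k1 : g1 * y1 * xp = N1 ^ 2 * p ^ 2 - N1 * g1 ^ 2 - N2 * N3 * y1 ^ 2)
    (hx1 : p * x1 = y1 * xp + 2 * N1 * g1) (hn : D * y1 ^ 2 = 4 * N1 ^ 3 - x1 ^ 2) :
    IsCoprime N1 x1 ∧ IsCoprime N1 D := by
  have h0 : IsCoprime N1 (N2 * N3 * y1 ^ 2) :=
    IsCoprime.mul_right (IsCoprime.mul_right n12 n13) (IsCoprime.pow_right ny)
  have h1 : IsCoprime N1 x1 := by
    obtain ⟨a, b, h⟩ := h0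
    refine ⟨a + b * (N1 * p ^ 2 + g1 ^ 2), -b * g1 * p, ?_⟩
    linear_combination h - b * k1 - b * g1 * hx1
  refine ⟨h1, ?_⟩
  obtain ⟨a, b, h⟩ := (IsCoprime.pow_right h1 : IsCoprime N1 (x1 ^ 2))
  refine ⟨a + 4 * b * N1 ^ 2, -b * y1 ^ 2, ?_⟩
  linear_combination h - b * hn

/-- `C6`: `y1 x2 ≠ y2 x1` -/
theorem ckk (y1 y2 N1 D x1 x2 : ℤ) (hy : 2 ≤ y1) (c12 : IsCoprime y1 y2) (ny : IsCoprime N1 y1)
    (hodd : Odd y1) (hn : D * y1 ^ 2 = 4 * N1 ^ 3 - x1 ^ 2) : y1 * x2 ≠ y2 * x1 := by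
  intro h
  have h1 : y1 ∣ y2 * x1 := ⟨x2, h.symm⟩
  obtain ⟨t, ht⟩ := c12.dvd_of_dvd_mul_left h1
  have h2 : y1 ^ 2 ∣ 4 * N1 ^ 3 := ⟨D + t ^ 2, by rw [ht] at hn; linear_combination -hn⟩
  have h3 : IsCoprime y1 2 := by
    obtain ⟨k, hk⟩ := hodd
    exact ⟨1, -k, by rw [hk]; ring⟩
  have h4 : IsCoprime (y1 ^ 2) (4 * N1 ^ 3) := by
    apply IsCoprime.mul_right
    · have : (4 : ℤ) = 2 ^ 2 := by norm_num
      rw [this]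
      exact IsCoprime.pow h3
    · exact IsCoprime.pow ny.symm
  have h5 : IsUnit (y1 ^ 2) := h4.isUnit_of_dvd' dvd_rfl h2
  have h6 : y1 ^ 2 = 1 ∨ y1 ^ 2 = -1 := Int.isUnit_iff.1 h5
  rcases h6 with h6 | h6
  · nlinarith
  · nlinarith [sq_nonneg y1]

end Pool.Agent.SML
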