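import Pool.Agent.SML.Ing

/-!
# SML/Ccu (C8): `pi^3 = alpha1 alpha2 alpha3`
-/

set_option autoImplicit false

namespace Pool.Agent.SML

theorem c8a (p y1 y2 y3 g1 g2 g3 N1 N2 N3 xp m : ℚ) (hm : m = p ^ 3 - y1 * y2 * y3)
    (h1 : N1 * m = p * g1 ^ 2 - y1 * g2 * g3) (h2 : N2 * m = p * g2 ^ 2 - y2 * g3 * g1)
    (h3 : N3 * m = p * g3 ^ 2 - y3 * g1 * g2)
    (hx : m ^ 2 * xp = -((2 * (y1 * y2 * y3) + p ^ 3) * (g1 * g2 * g3) -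
      p * (y1 * y2 * g3 ^ 3 + y1 * y3 * g2 ^ 3 + y2 * y3 * g1 ^ 3))) (hm0 : m ≠ 0) :
    xp * (N1 * g1 * y2 * y3 + N2 * g2 * y1 * y3 + N3 * g3 * y1 * y2) +
      (N1 * N2 * g1 * g2 * y3 + N1 * N3 * g1 * g3 * y2 + N2 * N3 * g2 * g3 * y1) =
      m * (xp ^ 2 - N1 * N2 * N3) := by
  have e1 : N1 = (p * g1 ^ 2 - y1 * g2 * g3) / m := by rw [← h1]; field_simp
  have e2 : N2 = (p * g2 ^ 2 - y2 * g3 * g1) / m := by rw [← h2]; field_simp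
  have e3 : N3 = (p * g3 ^ 2 - y3 * g1 * g2) / m := by rw [← h3]; field_simp
  have e4 : xp = -((2 * (y1 * y2 * y3) + p ^ 3) * (g1 * g2 * g3) -
      p * (y1 * y2 * g3 ^ 3 + y1 * y3 * g2 ^ 3 + y2 * y3 * g1 ^ 3)) / m ^ 2 := by
    rw [← hx]; field_simp
  rw [e1, e2, e3, e4]
  field_simp
  rw [hm]
  ring

/-- the real part -/
theorem c8b (p y1 y2 y3 g1 g2 g3 N1 N2 N3 xp x1 x2 x3 D m : ℚ) (hm : m = p ^ 3 - y1 * y2 * y3)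
    (h1 : N1 * m = p * g1 ^ 2 - y1 * g2 * g3) (h2 : N2 * m = p * g2 ^ 2 - y2 * g3 * g1)
    (h3 : N3 * m = p * g3 ^ 2 - y3 * g1 * g2)
    (hx : m ^ 2 * xp = -((2 * (y1 * y2 * y3) + p ^ 3) * (g1 * g2 * g3) -
      p * (y1 * y2 * g3 ^ 3 + y1 * y3 * g2 ^ 3 + y2 * y3 * g1 ^ 3))) (hm0 : m ≠ 0)
    (hx1 : p * x1 = y1 * xp + 2 * N1 * g1) (hx2 : p * x2 = y2 * xp + 2 * N2 * g2)
    (hx3 : p * x3 = y3 * xp + 2 * N3 * g3) (hD : D * p ^ 2 = 4 * N1 * N2 * N3 - xp ^ 2)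
    (hp : p ≠ 0) :
    xp ^ 3 - 3 * xp * p ^ 2 * D = x1 * x2 * x3 - D * (x1 * y2 * y3 + x2 * y1 * y3 + x3 * y1 * y2) ∧
    3 * xp ^ 2 * p - p ^ 3 * D = x1 * x2 * y3 + x1 * x3 * y2 + x2 * x3 * y1 - D * (y1 * y2 * y3) := by
  have ha := c8a p y1 y2 y3 g1 g2 g3 N1 N2 N3 xp m hm h1 h2 h3 hx hm0
  have e1 : x1 = (y1 * xp + 2 * N1 * g1) / p := by rw [← hx1]; field_simp
  have e2 : x2 = (y2 * xp + 2 * N2 * g2) / p := by rw [← hx2]; field_simp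
  have e3 : x3 = (y3 * xp + 2 * N3 * g3) / p := by rw [← hx3]; field_simp
  have e4 : D = (4 * N1 * N2 * N3 - xp ^ 2) / p ^ 2 := by rw [← hD]; field_simp
  constructor
  · rw [e1, e2, e3, e4]
    field_simp
    have f1 : N1 = (p * g1 ^ 2 - y1 * g2 * g3) / m := by rw [← h1]; field_simp
    have f2 : N2 = (p * g2 ^ 2 - y2 * g3 * g1) / m := by rw [← h2]; field_simp
    have f3 : N3 = (p * g3 ^ 2 - y3 * g1 * g2) / m := by rw [← h3]; field_simp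
    have f4 : xp = -((2 * (y1 * y2 * y3) + p ^ 3) * (g1 * g2 * g3) -
        p * (y1 * y2 * g3 ^ 3 + y1 * y3 * g2 ^ 3 + y2 * y3 * g1 ^ 3)) / m ^ 2 := by
      rw [← hx]; field_simp
    rw [f1, f2, f3, f4]
    field_simp
    rw [hm]
    ring
  · rw [e1, e2, e3, e4]
    field_simp
    rw [hm] at ha
    linear_combination (-4) * ha


/-- the integral form -/
theorem ccu (p y1 y2 y3 g1 g2 g3 N1 N2 N3 D xp x1 x2 x3 : ℤ)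
    (h : Ing p y1 y2 y3 g1 g2 g3 N1 N2 N3) (r : Rel p y1 y2 y3 g1 g2 g3 N1 N2 N3 D xp x1 x2 x3) :
    xp ^ 3 - 3 * xp * p ^ 2 * D =
      x1 * x2 * x3 - D * (x1 * y2 * y3 + x2 * y1 * y3 + x3 * y1 * y2) ∧
    3 * xp ^ 2 * p - p ^ 3 * D =
      x1 * x2 * y3 + x1 * x3 * y2 + x2 * x3 * y1 - D * (y1 * y2 * y3) := by
  have hm0 : ((mm p y1 y2 y3 : ℤ) : ℚ) ≠ 0 := by exact_mod_cast h.m0.ne'
  have hp0 : (p : ℚ) ≠ 0 := by exact_mod_cast h.pp.ne'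
  have key := c8b (p : ℚ) y1 y2 y3 g1 g2 g3 N1 N2 N3 xp x1 x2 x3 D
    ((mm p y1 y2 y3 : ℤ) : ℚ) (by unfold mm; push_cast; ring)
    (by exact_mod_cast h.e1) (by exact_mod_cast h.e2) (by exact_mod_cast h.e3)
    (by have := r.hx; unfold Cg at this; exact_mod_cast this) hm0
    (by exact_mod_cast r.hx1) (by exact_mod_cast r.hx2) (by exact_mod_cast r.hx3)
    (by exact_mod_cast r.np) hp0
  exact ⟨by exact_mod_cast key.1, by exact_mod_cast key.2⟩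

end Pool.Agent.SML
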