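import Pool.Agent.SML.Ing

/-!
# SML/Cpa (C4, C5)

`m = mm p y1 y2 y3`.  PARITY.  `p = 2 p'`, `p'` odd (`p4`); `y_i` odd (`IsCoprime p y_i`, `2 ∣ p`), `g_i` odd (`w_i`); `m` odd;
`N_i m = p g_i^2 - y_i g_j g_k` odd, so `N_i` odd.  `Cg = (2 S + p^3) g1 g2 g3 - p (a + b + c)` with `S, g1g2g3, a, b, c` odd,
`4 ∣ p^3`, `p = 2 mod 4`: `Cg = 2 - 2 = 0 mod 4`, and `m^2 xp = -Cg`, `m` odd: `4 ∣ xp`, `xp = 4 z`.
`4 D p'^2 = 4 N1 N2 N3 - 16 z^2`, `D p'^2 = N1 N2 N3 - 4 z^2` odd, so `D` is odd.  `D y1^2 = 4 N1^3 - x1^2`: `x1` odd, and modulo 4: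
`y1^2 = x1^2 = 1`: `D = -1 = 3 mod 4`.
MODULO 3.  `3 ∣ p`, so `m = - y1 y2 y3 mod 3`; `N1 m = - y1 g2 g3 mod 3`, so (cancel `y1`, a unit mod 3, sign)
`N1 y2 y3 = g2 g3 mod 3`; multiply by `y2 y3` (squares of units are 1): `N1 = y2 y3 g2 g3 = -1 mod 3` (`r3`).
`D y1^2 = 4 N1^3 - x1^2`: `D = -1 - x1^2 mod 3`, which is `-1` or `-2`: not 0.
(Work with `Int.emod_emod_of_dvd`/`Int.ModEq`, or `ZMod 4`, `ZMod 3` and `decide`.)
-/

set_option autoImplicit false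

namespace Pool.Agent.SML

private theorem cpa_odd {a b : ℤ} (h : IsCoprime a b) (ha : (2 : ℤ) ∣ a) : Odd b := by
  rw [← Int.not_even_iff_odd, even_iff_two_dvd]
  intro hb
  have h1 : IsUnit (2 : ℤ) := h.isUnit_of_dvd' ha hb
  rw [Int.isUnit_iff] at h1
  omega

private theorem cpa_z3 : ∀ y2 y3 k n : ZMod 3, y2 ≠ 0 → y3 ≠ 0 → n * y2 * y3 = k →
    y2 * y3 * k = -1 → n = -1 := by
  decide

private theorem cpa_z3' : ∀ y1 x1 : ZMod 3, y1 ≠ 0 →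
    ¬ (0 : ZMod 3) * y1 ^ 2 = 4 * (-1) ^ 3 - x1 ^ 2 := by
  decide

private theorem cpa_ne {p y : ℤ} (h : IsCoprime p y) (hp : (3 : ℤ) ∣ p) : ((y : ℤ) : ZMod 3) ≠ 0 := by
  intro h0
  rw [ZMod.intCast_zmod_eq_zero_iff_dvd] at h0
  have h1 : IsUnit (3 : ℤ) := h.isUnit_of_dvd' hp (by exact_mod_cast h0)
  rw [Int.isUnit_iff] at h1
  omega

/-- `C4`, `C5`: `D = 3 mod 4` and `3 ∤ D` -/
theorem cpa (p y1 y2 y3 g1 g2 g3 N1 N2 N3 D xp x1 x2 x3 : ℤ)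
    (h : Ing p y1 y2 y3 g1 g2 g3 N1 N2 N3) (r : Rel p y1 y2 y3 g1 g2 g3 N1 N2 N3 D xp x1 x2 x3) :
    D % 4 = 3 ∧ ¬ (3 : ℤ) ∣ D ∧ Odd N1 ∧ Odd N2 ∧ Odd N3 := by
  have hp2 : (2 : ℤ) ∣ p := by
    have := h.p4
    omega
  have hpe : Even p := even_iff_two_dvd.2 hp2
  have y1o := cpa_odd h.cp1 hp2
  have y2o := cpa_odd h.cp2 hp2
  have y3o := cpa_odd h.cp3 hp2
  have g1o : Odd g1 := cpa_odd h.w1.symm (by norm_num)
  have g2o : Odd g2 := cpa_odd h.w2.symm (by norm_num)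
  have g3o : Odd g3 := cpa_odd h.w3.symm (by norm_num)
  have mo : Odd (mm p y1 y2 y3) :=
    (hpe.pow_of_ne_zero (by norm_num)).sub_odd ((y1o.mul y2o).mul y3o)
  have n1o : Odd N1 := by
    have h1 : Odd (N1 * mm p y1 y2 y3) := by
      rw [h.e1]
      exact (hpe.mul_right _).sub_odd ((y1o.mul g2o).mul g3o)
    exact (Int.odd_mul.1 h1).1
  have n2o : Odd N2 := by
    have h1 : Odd (N2 * mm p y1 y2 y3) := by
      rw [h.e2]
      exact (hpe.mul_right _).sub_odd ((y2o.mul g3o).mul g1o)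
    exact (Int.odd_mul.1 h1).1
  have n3o : Odd N3 := by
    have h1 : Odd (N3 * mm p y1 y2 y3) := by
      rw [h.e3]
      exact (hpe.mul_right _).sub_odd ((y3o.mul g1o).mul g2o)
    exact (Int.odd_mul.1 h1).1
  -- `4 ∣ xp`
  have hxp : (4 : ℤ) ∣ xp := by
    have hC : (4 : ℤ) ∣ Cg p y1 y2 y3 g1 g2 g3 := by
      obtain ⟨S, hS⟩ := (y1o.mul y2o).mul y3o
      obtain ⟨G, hG⟩ := (g1o.mul g2o).mul g3o
      have hs : Odd (y1 * y2 * g3 ^ 3 + y1 * y3 * g2 ^ 3 + y2 * y3 * g1 ^ 3) :=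
        (((y1o.mul y2o).mul g3o.pow).add_odd ((y1o.mul y3o).mul g2o.pow)).add_odd
          ((y2o.mul y3o).mul g1o.pow)
      obtain ⟨s, hs⟩ := hs
      obtain ⟨t, ht⟩ : ∃ t, p = 4 * t + 2 := ⟨p / 4, by have := h.p4; omega⟩
      have e : Cg p y1 y2 y3 g1 g2 g3 = (2 * (2 * S + 1) + p ^ 3) * (2 * G + 1) -
          p * (2 * s + 1) := by
        rw [Cg, hs, hS, hG]
      rw [e, ht]
      refine ⟨(S + 2 * (2 * t + 1) ^ 3) * (2 * G + 1) + G - t * (2 * s + 1) - s, ?_⟩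
      ring
    have h1 : (4 : ℤ) ∣ (mm p y1 y2 y3) ^ 2 * xp := by
      rw [r.hx]
      exact (dvd_neg).2 hC
    have h2 : IsCoprime (4 : ℤ) ((mm p y1 y2 y3) ^ 2) := by
      have h3 : IsCoprime (2 : ℤ) (mm p y1 y2 y3) := by
        obtain ⟨k, hk⟩ := mo
        exact ⟨-k, 1, by rw [hk]; ring⟩
      have h4 : IsCoprime ((2 : ℤ) ^ 2) ((mm p y1 y2 y3) ^ 2) := h3.pow
      have h5 : ((2 : ℤ) ^ 2) = 4 := by norm_num
      rwa [h5] at h4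
    exact h2.dvd_of_dvd_mul_left h1
  have Do : Odd D := by
    obtain ⟨q, hq⟩ := hp2
    obtain ⟨z, hz⟩ := hxp
    have h1 := r.np
    rw [hq, hz] at h1
    have h2 : D * q ^ 2 = N1 * N2 * N3 - 4 * z ^ 2 := by linarith
    have h3 : Odd (D * q ^ 2) := by
      rw [h2]
      refine ((n1o.mul n2o).mul n3o).sub_even ?_
      exact ⟨2 * z ^ 2, by ring⟩
    exact (Int.odd_mul.1 h3).1
  have x1o : Odd x1 := by
    have h1 : Odd (x1 ^ 2) := by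
      have h2 : x1 ^ 2 = 4 * N1 ^ 3 - D * y1 ^ 2 := by linarith [r.n1]
      rw [h2]
      refine Even.sub_odd ⟨2 * N1 ^ 3, by ring⟩ (Do.mul y1o.pow)
    exact (Int.odd_pow' (by norm_num)).1 h1
  refine ⟨?_, ?_, n1o, n2o, n3o⟩
  · obtain ⟨k, hk⟩ := y1o
    obtain ⟨l, hl⟩ := x1o
    have h1 := r.n1
    rw [hk, hl] at h1
    have h2 : D + 1 = 4 * (N1 ^ 3 - l ^ 2 - l - D * (k ^ 2 + k)) := by linarith
    omega
  · intro hD
    have hy1 := cpa_ne h.cp1 h.p3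
    have hy2 := cpa_ne h.cp2 h.p3
    have hy3 := cpa_ne h.cp3 h.p3
    have hp0 : ((p : ℤ) : ZMod 3) = 0 := by
      rw [ZMod.intCast_zmod_eq_zero_iff_dvd]
      exact_mod_cast h.p3
    have hD0 : ((D : ℤ) : ZMod 3) = 0 := by
      rw [ZMod.intCast_zmod_eq_zero_iff_dvd]
      exact_mod_cast hD
    have h1 := congrArg (fun z : ℤ => (z : ZMod 3)) h.e1
    simp only [mm, Int.cast_mul, Int.cast_sub, Int.cast_pow, hp0] at h1
    have h2 : ((y2 : ℤ) : ZMod 3) * y3 * (g2 * g3) = -1 := by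
      have h3 : (((y2 * y3 * g2 * g3 + 1 : ℤ)) : ZMod 3) = 0 := by
        rw [ZMod.intCast_zmod_eq_zero_iff_dvd]
        exact_mod_cast h.r3
      push_cast at h3
      linear_combination h3
    have h4 : ((N1 : ℤ) : ZMod 3) * y2 * y3 = g2 * g3 := by
      have h5 : (y1 : ZMod 3) * ((N1 : ZMod 3) * y2 * y3) = y1 * (g2 * g3) := by
        linear_combination (-1 : ZMod 3) * h1
      exact mul_left_cancel₀ hy1 h5
    have h6 := cpa_z3 _ _ _ _ hy2 hy3 h4 h2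
    have h7 := congrArg (fun z : ℤ => (z : ZMod 3)) r.n1
    simp only [Int.cast_mul, Int.cast_sub, Int.cast_pow, hD0, h6] at h7
    refine cpa_z3' y1 x1 hy1 ?_
    exact_mod_cast h7

end Pool.Agent.SML
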