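import Pool.Agent.SML.Ing

/-!
# SML/Cxi (C2, C3)

`cxi`: `m^2 (y1 xp + 2 N1 g1) = - y1 Cg + 2 m g1 (N1 m) = - y1 Cg + 2 m g1 (p g1^2 - y1 g2 g3)` and this polynomial in
`p` (with `m = p^3 - y1 y2 y3`) is divisible by `p` (its value at `p = 0` is
`- y1 2 S g1 g2 g3 + 2 (-S) g1 (- y1 g2 g3) = 0`): exhibit the quotient, `ring`.  `IsCoprime p (m^2)` from `c1 c2 c3`
(`m = p^3 - y1 y2 y3`), so `p ∣ y1 xp + 2 N1 g1`.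
`cdd`: `p^2 (4 N1^3 - x1^2) = y1^2 (4 N1 N2 N3 - xp^2)`: `p^2 x1^2 = (y1 xp + 2 N1 g1)^2` and
`4 N1^3 p^2 - 4 y1 xp N1 g1 - 4 N1^2 g1^2 = 4 N1 (N1^2 p^2 - g1 y1 xp - N1 g1^2) = 4 N1 N2 N3 y1^2` by `k1`
(`linear_combination`).  `IsCoprime (p^2) (y1^2)`: `p^2 ∣ 4 N1 N2 N3 - xp^2 = D p^2`; then `p^2 (4 N1^3 - x1^2) = y1^2 D p^2`,
cancel `p^2`.
`cde`: the same identity for the index 2 and cancel `p^2`.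
-/

set_option autoImplicit false

namespace Pool.Agent.SML

/-- `C2`: the integers `x_i`, one index (apply it to the three cyclic permutations) -/
theorem cxi (p y1 y2 y3 g1 g2 g3 N1 xp : ℤ) (hp : p ≠ 0) (hm : mm p y1 y2 y3 ≠ 0)
    (c1 : IsCoprime p y1) (c2 : IsCoprime p y2) (c3 : IsCoprime p y3)
    (e1 : N1 * mm p y1 y2 y3 = p * g1 ^ 2 - y1 * g2 * g3)
    (hx : (mm p y1 y2 y3) ^ 2 * xp = - Cg p y1 y2 y3 g1 g2 g3) :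
    ∃ x1 : ℤ, p * x1 = y1 * xp + 2 * N1 * g1 := by
  have hc : IsCoprime p (mm p y1 y2 y3) := by
    have h1 : IsCoprime p (y1 * y2 * y3) := (c1.mul_right c2).mul_right c3
    have h2 : mm p y1 y2 y3 = -(y1 * y2 * y3) + p * p ^ 2 := by unfold mm; ring
    rw [h2]
    exact h1.neg_right.add_mul_left_right (p ^ 2)
  have hd : p ∣ (mm p y1 y2 y3) ^ 2 * (y1 * xp + 2 * N1 * g1) := by
    refine ⟨-3 * y1 * p ^ 2 * (g1 * g2 * g3)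
      + y1 * (y1 * y2 * g3 ^ 3 + y1 * y3 * g2 ^ 3 + y2 * y3 * g1 ^ 3)
      + 2 * p ^ 3 * g1 ^ 3 - 2 * (y1 * y2 * y3) * g1 ^ 3, ?_⟩
    have e2 : (mm p y1 y2 y3) ^ 2 * (y1 * xp + 2 * N1 * g1)
        = y1 * ((mm p y1 y2 y3) ^ 2 * xp) + 2 * mm p y1 y2 y3 * g1 * (N1 * mm p y1 y2 y3) := by ring
    rw [e2, hx, e1]
    unfold mm Cg
    ring
  obtain ⟨x1, h⟩ := hc.pow_right.dvd_of_dvd_mul_left hd
  exact ⟨x1, h.symm⟩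

/-- `C3`: the integer `D`, first part -/
theorem cdd (p y1 N1 N2 N3 g1 xp x1 : ℤ) (hp : p ≠ 0) (hy : y1 ≠ 0) (c1 : IsCoprime p y1)
    (k1 : g1 * y1 * xp = N1 ^ 2 * p ^ 2 - N1 * g1 ^ 2 - N2 * N3 * y1 ^ 2)
    (hx1 : p * x1 = y1 * xp + 2 * N1 * g1) :
    ∃ D : ℤ, D * p ^ 2 = 4 * N1 * N2 * N3 - xp ^ 2 ∧ D * y1 ^ 2 = 4 * N1 ^ 3 - x1 ^ 2 := by
  have e : p ^ 2 * (4 * N1 ^ 3 - x1 ^ 2) = y1 ^ 2 * (4 * N1 * N2 * N3 - xp ^ 2) := by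
    have e1 : p ^ 2 * x1 ^ 2 = (y1 * xp + 2 * N1 * g1) ^ 2 := by rw [← hx1]; ring
    linear_combination (-4 * N1) * k1 - e1
  have hc : IsCoprime (p ^ 2) (y1 ^ 2) := c1.pow
  have hd : p ^ 2 ∣ y1 ^ 2 * (4 * N1 * N2 * N3 - xp ^ 2) := ⟨_, e.symm⟩
  obtain ⟨D, hD⟩ := hc.dvd_of_dvd_mul_left hd
  refine ⟨D, by rw [hD]; ring, ?_⟩
  have hp2 : p ^ 2 ≠ 0 := pow_ne_zero 2 hp
  apply mul_left_cancel₀ hp2
  rw [e, hD]; ring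

/-- `C3`: the integer `D`, second part -/
theorem cde (p y2 N1 N2 N3 g2 xp x2 D : ℤ) (hp : p ≠ 0)
    (k2 : g2 * y2 * xp = N2 ^ 2 * p ^ 2 - N2 * g2 ^ 2 - N3 * N1 * y2 ^ 2)
    (hx2 : p * x2 = y2 * xp + 2 * N2 * g2) (hD : D * p ^ 2 = 4 * N1 * N2 * N3 - xp ^ 2) :
    D * y2 ^ 2 = 4 * N2 ^ 3 - x2 ^ 2 := by
  have hp2 : p ^ 2 ≠ 0 := pow_ne_zero 2 hp
  apply mul_left_cancel₀ hp2
  have e1 : p ^ 2 * x2 ^ 2 = (y2 * xp + 2 * N2 * g2) ^ 2 := by rw [← hx2]; ring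
  linear_combination y2 ^ 2 * hD + 4 * N2 * k2 + e1

end Pool.Agent.SML
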