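import Pool.Agent.SML.Cxp
import Pool.Agent.SML.Cxi
import Pool.Agent.SML.Cpa
import Pool.Agent.SML.Cco
import Pool.Agent.SML.Ccu
import Pool.Agent.SML.Cbg

/-!
# SML/Cal: assembly of section C

`Ing p y1 y2 y3 g1 g2 g3 N1 N2 N3` from `Fam` and `Pts` (casts of `Nat.Coprime` to `IsCoprime`; `p4`, `p3`: `p = Wz q`, `q` an odd
prime `> T`, `Wz = 2 * odd` and `3 ∣ Wz`: `primorial` is the product of the different primes `≤ z0`: `2 ∣ Wz`, `¬ 4 ∣ Wz`, because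
`Wz` is squarefree; `q > T ≥ z0` is odd; `m0`: `mlt`; `q1`, `q2`: `y_i ≥ T^(1-3c) ≥ 2` for `T` large).
Then `cxp` (xp), `cxi` three times (for the index 2 use it with the cyclic permutation `(y2, y3, y1; g2, g3, g1)`: `mm` and `Cg` are
invariant, `unfold; ring`), `cdd`, `cde` twice: `Rel`.  `cpa`, `cco` three times (with the permuted data), `ckk`, `ccu`, `cbg`:
`D ≥ 1`, use `D.toNat` (`Int.toNat_of_nonneg`).
-/

set_option autoImplicit false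

namespace Pool.Agent.SML

private theorem prim_split (n : ℕ) (hn : 2 ≤ n) : ∃ r : ℕ, Odd r ∧ primorial n = 2 * r := by
  unfold primorial
  have h2 : (2 : ℕ) ∈ (Finset.range (n + 1)).filter Nat.Prime := by
    rw [Finset.mem_filter, Finset.mem_range]
    exact ⟨by omega, Nat.prime_two⟩
  refine ⟨∏ p ∈ ((Finset.range (n + 1)).filter Nat.Prime).erase 2, p, ?_,
    (Finset.mul_prod_erase _ (fun p : ℕ => p) h2).symm⟩
  rw [← Nat.not_even_iff_odd, even_iff_two_dvd]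
  intro hd
  obtain ⟨p, hp, hp2⟩ := (Nat.prime_two.prime.dvd_finsetProd_iff _).1 hd
  rw [Finset.mem_erase, Finset.mem_filter] at hp
  exact hp.1 (((Nat.prime_dvd_prime_iff_eq Nat.prime_two hp.2.2).1 hp2).symm)

private theorem prim_three (n : ℕ) (hn : 3 ≤ n) : 3 ∣ primorial n := by
  unfold primorial
  have h3 : (3 : ℕ) ∈ (Finset.range (n + 1)).filter Nat.Prime := by
    rw [Finset.mem_filter, Finset.mem_range]
    exact ⟨by omega, Nat.prime_three⟩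
  exact Finset.dvd_prod_of_mem (fun p : ℕ => p) h3

private theorem wz_split : ∃ r : ℕ, Odd r ∧ Wz = 2 * r :=
  prim_split z0 (by unfold z0; norm_num)

private theorem wz_three : 3 ∣ Wz := prim_three z0 (by unfold z0; norm_num)

private theorem wz_pos : 0 < Wz := by
  unfold Wz
  exact primorial_pos z0

private theorem two_le_of_pow (T : ℕ) (c : ℝ) (hT : 4 ≤ T) (hc2 : c ≤ 1 / 6) (y : ℕ)
    (h : (T : ℝ) ^ (1 - 3 * c) ≤ (y : ℝ)) : 2 ≤ y := by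
  have hT' : (4 : ℝ) ≤ (T : ℝ) := by exact_mod_cast hT
  have h1 : (T : ℝ) ^ ((1 : ℝ) / 2) ≤ (T : ℝ) ^ (1 - 3 * c) :=
    Real.rpow_le_rpow_of_exponent_le (by linarith) (by linarith)
  have h2 : (4 : ℝ) ^ ((1 : ℝ) / 2) ≤ (T : ℝ) ^ ((1 : ℝ) / 2) :=
    Real.rpow_le_rpow (by norm_num) hT' (by norm_num)
  have h3 : (4 : ℝ) ^ ((1 : ℝ) / 2) = 2 := by
    rw [show (4 : ℝ) = 2 ^ (2 : ℝ) by norm_num, ← Real.rpow_mul (by norm_num)]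
    norm_num
  have : (2 : ℝ) ≤ (y : ℝ) := by linarith
  exact_mod_cast this

private theorem ing (T : ℕ) (γ c : ℝ) (hT : 4 ≤ T) (hc2 : c ≤ 1 / 6) (p y1 y2 y3 : ℕ)
    (F : Fam T c p y1 y2 y3) (g1 g2 g3 N1 N2 N3 : ℤ) (P : Pts T γ p y1 y2 y3 g1 g2 g3 N1 N2 N3) :
    Ing p y1 y2 y3 g1 g2 g3 N1 N2 N3 := by
  obtain ⟨q, hq, hqT, hq4, hpq⟩ := F.hp
  have hp0 : 0 < p := by
    rw [hpq]
    exact Nat.mul_pos wz_pos hq.pos
  refine {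
    pp := by exact_mod_cast hp0, m0 := ?_, q1 := ?_, q2 := ?_, q3 := ?_, e1 := P.e1,
    e2 := P.e2, e3 := P.e3, p4 := ?_, p3 := ?_, w1 := P.w1, w2 := P.w2, w3 := P.w3, r3 := P.r3,
    c12 := F.c12.isCoprime, c13 := F.c13.isCoprime, c23 := F.c23.isCoprime,
    cp1 := F.cp1.isCoprime, cp2 := F.cp2.isCoprime, cp3 := F.cp3.isCoprime,
    gm := P.gm, gp1 := P.gp1, gp2 := P.gp2, gp3 := P.gp3, gy1 := P.gy1, gy2 := P.gy2,
    gy3 := P.gy3, ny1 := P.ny1, ny2 := P.ny2, ny3 := P.ny3, n12 := P.n12, n13 := P.n13,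
    n23 := P.n23 }
  · have := F.mlt
    have h2 : ((y1 * y2 * y3 : ℕ) : ℤ) < ((p ^ 3 : ℕ) : ℤ) := by exact_mod_cast this
    unfold mm
    push_cast at h2
    linarith
  · exact_mod_cast two_le_of_pow T c hT hc2 y1 F.y1l
  · exact_mod_cast two_le_of_pow T c hT hc2 y2 F.y2l
  · exact_mod_cast F.y3p
  · obtain ⟨r, hr, hW⟩ := wz_split
    have hqo : Odd q := hq.odd_of_ne_two (by omega)
    obtain ⟨s, hs⟩ := hr.mul hqo
    have hp2 : p = 4 * s + 2 := by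
      rw [hpq, hW, mul_assoc, hs]; ring
    omega
  · obtain ⟨r, hr⟩ := wz_three
    refine ⟨((r * q : ℕ) : ℤ), ?_⟩
    rw [hpq, hr]
    push_cast
    ring

private theorem mm_cyc (p y1 y2 y3 : ℤ) : mm p y2 y3 y1 = mm p y1 y2 y3 := by
  unfold mm; ring

private theorem cg_cyc (p y1 y2 y3 g1 g2 g3 : ℤ) :
    Cg p y2 y3 y1 g2 g3 g1 = Cg p y1 y2 y3 g1 g2 g3 := by
  unfold Cg; ring

private theorem rel (p y1 y2 y3 g1 g2 g3 N1 N2 N3 : ℤ) (h : Ing p y1 y2 y3 g1 g2 g3 N1 N2 N3) :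
    ∃ D xp x1 x2 x3 : ℤ, Rel p y1 y2 y3 g1 g2 g3 N1 N2 N3 D xp x1 x2 x3 := by
  have hp : p ≠ 0 := h.pp.ne'
  have hm : mm p y1 y2 y3 ≠ 0 := h.m0.ne'
  have hm2 : mm p y2 y3 y1 ≠ 0 := by rw [mm_cyc]; exact hm
  have hm3 : mm p y3 y1 y2 ≠ 0 := by rw [mm_cyc, mm_cyc]; exact hm
  obtain ⟨xp, hx, k1, k2, k3⟩ := cxp p y1 y2 y3 g1 g2 g3 N1 N2 N3 h
  obtain ⟨x1, hx1⟩ := cxi p y1 y2 y3 g1 g2 g3 N1 xp hp hm h.cp1 h.cp2 h.cp3 h.e1 hx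
  obtain ⟨x2, hx2⟩ := cxi p y2 y3 y1 g2 g3 g1 N2 xp hp hm2 h.cp2 h.cp3 h.cp1
    (by rw [mm_cyc]; exact h.e2) (by rw [mm_cyc, cg_cyc]; exact hx)
  obtain ⟨x3, hx3⟩ := cxi p y3 y1 y2 g3 g1 g2 N3 xp hp hm3 h.cp3 h.cp1 h.cp2
    (by rw [mm_cyc, mm_cyc]; exact h.e3) (by rw [mm_cyc, mm_cyc, cg_cyc, cg_cyc]; exact hx)
  obtain ⟨D, hD, hn1⟩ := cdd p y1 N1 N2 N3 g1 xp x1 hp (by have := h.q1; omega) h.cp1 k1 hx1
  have hn2 := cde p y2 N1 N2 N3 g2 xp x2 D hp k2 hx2 hD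
  have hD3 : D * p ^ 2 = 4 * N2 * N3 * N1 - xp ^ 2 := by rw [hD]; ring
  have hn3 := cde p y3 N2 N3 N1 g3 xp x3 D hp k3 hx3 hD3
  exact ⟨D, xp, x1, x2, x3, ⟨hx, k1, k2, k3, hx1, hx2, hx3, hD, hn1, hn2, hn3⟩⟩

/-- the end of section C -/
theorem alg (γ c : ℝ) (hγ : 0 < γ) (hγ2 : γ < 1 / 100) (hc : 0 < c) (hc2 : c ≤ γ / 10 ^ 4) :
    ∃ T0 : ℕ, ∀ T : ℕ, T0 ≤ T → ∀ p y1 y2 y3 : ℕ, Fam T c p y1 y2 y3 →
      ∀ g1 g2 g3 N1 N2 N3 : ℤ, Pts T γ p y1 y2 y3 g1 g2 g3 N1 N2 N3 →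
      ∃ (D : ℕ) (xp x1 x2 x3 : ℤ), Dat p y1 y2 y3 N1 N2 N3 D xp x1 x2 x3 ∧ Big T γ N1 N2 N3 D := by
  obtain ⟨T1, hT1⟩ := cbg γ c hγ hγ2 hc
  refine ⟨max T1 4, fun T hT p y1 y2 y3 F g1 g2 g3 N1 N2 N3 P => ?_⟩
  have hT1' : T1 ≤ T := le_trans (le_max_left _ _) hT
  have hT4 : 4 ≤ T := le_trans (le_max_right _ _) hT
  have hc6 : c ≤ 1 / 6 := by
    have : γ / 10 ^ 4 ≤ 1 / 6 := by
      rw [div_le_iff₀ (by norm_num)]; linarith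
    linarith
  have h := ing T γ c hT4 hc6 p y1 y2 y3 F g1 g2 g3 N1 N2 N3 P
  obtain ⟨D, xp, x1, x2, x3, r⟩ := rel _ _ _ _ _ _ _ _ _ _ h
  obtain ⟨hD0, hN1, hN2, hN3, hB⟩ := hT1 T hT1' p y1 y2 y3 F g1 g2 g3 N1 N2 N3 P xp D r.hx r.np
  obtain ⟨hD4, hD3, hoN1, hoN2, hoN3⟩ := cpa _ _ _ _ _ _ _ _ _ _ _ _ _ _ _ h r
  obtain ⟨hre, him⟩ := ccu _ _ _ _ _ _ _ _ _ _ _ _ _ _ _ h r
  have hDD : ((D.toNat : ℕ) : ℤ) = D := Int.toNat_of_nonneg hD0.le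
  obtain ⟨a1, b1⟩ := cco p y1 g1 N1 N2 N3 D xp x1 h.ny1 h.n12 h.n13 r.k1 r.hx1 r.n1
  obtain ⟨a2, b2⟩ := cco p y2 g2 N2 N3 N1 D xp x2 h.ny2 h.n23 h.n12.symm r.k2 r.hx2 r.n2
  obtain ⟨a3, b3⟩ := cco p y3 g3 N3 N1 N2 D xp x3 h.ny3 h.n13.symm h.n23.symm r.k3 r.hx3 r.n3
  have hyo : Odd (y1 : ℤ) := by
    rw [← Int.not_even_iff_odd, even_iff_two_dvd]
    intro h2
    have hp2 : (2 : ℤ) ∣ (p : ℤ) := by have := h.p4; omega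
    have := h.cp1.isUnit_of_dvd' hp2 h2
    exact absurd (Int.isUnit_iff.1 this) (by norm_num)
  have hk := ckk y1 y2 N1 D x1 x2 h.q1 h.c12 h.ny1 hyo r.n1
  refine ⟨D.toNat, xp, x1, x2, x3, ?_, hB⟩
  refine {
    D4 := ?_, D3 := ?_, pp := h.pp, q1 := h.q1, q2 := by have := h.q2; omega, q3 := h.q3,
    P1 := hN1, P2 := hN2, P3 := hN3, n1 := ?_, n2 := ?_, n3 := ?_, np := ?_, re := ?_, im := ?_,
    c1 := a1, c2 := a2, c3 := a3, d1 := ?_, d2 := ?_, d3 := ?_, k12 := hk }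
  · omega
  · intro hd
    apply hD3
    rw [← hDD]
    exact_mod_cast hd
  · rw [hDD]; linear_combination -r.n1
  · rw [hDD]; linear_combination -r.n2
  · rw [hDD]; linear_combination -r.n3
  · rw [hDD]; linear_combination -r.np
  · rw [hDD]; exact hre
  · rw [hDD]; exact him
  · rw [hDD]; exact b1
  · rw [hDD]; exact b2
  · rw [hDD]; exact b3

end Pool.Agent.SML
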