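import Pool.Agent.SML.Ing

/-!
# SML/Csz (C7)

Put `e = y1 y2 y3`; `0 < e ≤ p^3 / 10^9`, so `(1 - 10^-9) p^3 ≤ m < p^3`.
`N_i m = p g_i^2 - y_i g_j g_k`, `0 < y_i g_j g_k ≤ (p/1000) 4 G^2`, so
`p (g_i^2 - G^2/250) ≤ N_i m ≤ p g_i^2`; `g_i^2 ≥ G^2`: `N_i m ≥ (996/1000) p g_i^2`.  So
`(996/1000) g_i^2 ≤ N_i p^2 ≤ 1.000001 g_i^2` (`m < p^3`, `m ≥ (1-10^-9) p^3`): this gives the first three lines
(`4.0001 ≤ 5`).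
`P = g1 g2 g3 ≥ G^3`.  `0 ≤ p (y1 y2 g3^3 + ...) ≤ 3 p (p^2/10^6) 8 G^3 ≤ 24 p^3 P / 10^6`; so with
`C = (2 e + p^3) P - p(...)`: `0 ≤ C ≤ (1 + 2/10^9) p^3 P`; `m^2 |xp| = C`, so `|xp| p^3 ≤ 1.00001 P`,
`xp^2 p^6 ≤ 1.0001 P^2`.
`4 N1 N2 N3 p^6 ≥ 4 (0.996)^3 P^2 ≥ 3.95 P^2` and `≤ 4 (1.000001)^3 P^2 ≤ 4.001 P^2`.
`D p^8 = 4 N1 N2 N3 p^6 - xp^2 p^6 ≥ 2.9 P^2 ≥ 2 G^6` and `≤ 4.001 P^2 ≤ 4.001 * 64 G^6 ≤ 500 G^6`.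
-/

set_option autoImplicit false

namespace Pool.Agent.SML

private theorem csz_n (a b c d u n : ℝ) (a0 : 0 < a) (a1 : a ≤ 1 / 1000)
    (b1 : 1 ≤ b) (c1 : 1 ≤ c) (c2 : c ≤ 2) (d1 : 1 ≤ d) (d2 : d ≤ 2)
    (u1 : 999999999 / 1000000000 ≤ u) (u2 : u ≤ 1) (h : n * u = b ^ 2 - a * c * d) :
    996 / 1000 * b ^ 2 ≤ n ∧ n ≤ 1000001 / 1000000 * b ^ 2 := by
  have hcd : c * d ≤ 4 := by nlinarith
  have hcd0 : 0 < c * d := by positivity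
  have h1 : a * c * d ≤ 4 / 1000 := by
    have : a * (c * d) ≤ 1 / 1000 * 4 := mul_le_mul a1 hcd hcd0.le (by norm_num)
    nlinarith
  have h0 : 0 < a * c * d := by positivity
  have hb : 1 ≤ b ^ 2 := by nlinarith
  have hu : 0 < u := by linarith
  have hnu : 996 / 1000 * b ^ 2 ≤ n * u := by rw [h]; nlinarith
  have hn : 0 < n := by
    by_contra hc
    have hc' : n ≤ 0 := not_lt.mp hc
    have : n * u ≤ 0 := mul_nonpos_of_nonpos_of_nonneg hc' hu.le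
    nlinarith
  constructor
  · have : n * u ≤ n * 1 := mul_le_mul_of_nonneg_left u2 hn.le
    linarith
  · have h3 : n * (999999999 / 1000000000) ≤ n * u := mul_le_mul_of_nonneg_left u1 hn.le
    have h4 : n * u ≤ b ^ 2 := by rw [h]; linarith
    nlinarith

private theorem csz_x (a1 a2 a3 b1 b2 b3 u x : ℝ) (a1p : 0 < a1) (a2p : 0 < a2) (a3p : 0 < a3)
    (h1 : a1 ≤ 1 / 1000) (h2 : a2 ≤ 1 / 1000) (h3 : a3 ≤ 1 / 1000)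
    (l1 : 1 ≤ b1) (l2 : 1 ≤ b2) (l3 : 1 ≤ b3) (u1 : b1 ≤ 2) (u2 : b2 ≤ 2) (u3 : b3 ≤ 2)
    (v1 : 999999999 / 1000000000 ≤ u) (_v2 : u ≤ 1) (he : a1 * a2 * a3 ≤ 1 / 1000000000)
    (hx : u ^ 2 * x = -((2 * (a1 * a2 * a3) + 1) * (b1 * b2 * b3) -
      (a1 * a2 * b3 ^ 3 + a1 * a3 * b2 ^ 3 + a2 * a3 * b1 ^ 3))) :
    x ^ 2 ≤ 10001 / 10000 * (b1 * b2 * b3) ^ 2 := by
  have hP : 1 ≤ b1 * b2 * b3 := by
    have : 1 ≤ b1 * b2 := by nlinarith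
    nlinarith
  set P := b1 * b2 * b3 with hPdef
  have cube : ∀ b : ℝ, 1 ≤ b → b ≤ 2 → 0 ≤ b ^ 3 ∧ b ^ 3 ≤ 8 := by
    intro b hb hb'
    refine ⟨by positivity, ?_⟩
    calc b ^ 3 ≤ 2 ^ 3 := pow_le_pow_left₀ (by linarith) hb' 3
      _ = 8 := by norm_num
  have aa : ∀ a c b : ℝ, 0 < a → 0 < c → a ≤ 1 / 1000 → c ≤ 1 / 1000 → 1 ≤ b → b ≤ 2 →
      0 ≤ a * c * b ^ 3 ∧ a * c * b ^ 3 ≤ 8 / 1000000 := by
    intro a c b ha hc ha' hc' hb hb'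
    obtain ⟨q0, q1⟩ := cube b hb hb'
    have hac : a * c ≤ 1 / 1000 * (1 / 1000) := mul_le_mul ha' hc' hc.le (by norm_num)
    refine ⟨by positivity, ?_⟩
    calc a * c * b ^ 3 ≤ (1 / 1000 * (1 / 1000)) * 8 := mul_le_mul hac q1 q0 (by norm_num)
      _ = 8 / 1000000 := by norm_num
  obtain ⟨s0, s1⟩ := aa a1 a2 b3 a1p a2p h1 h2 l3 u3
  obtain ⟨t0, t1⟩ := aa a1 a3 b2 a1p a3p h1 h3 l2 u2
  obtain ⟨r0, r1⟩ := aa a2 a3 b1 a2p a3p h2 h3 l1 u1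
  have he0 : 0 < a1 * a2 * a3 := by positivity
  set e := a1 * a2 * a3 with hedef
  set C := (2 * e + 1) * P - (a1 * a2 * b3 ^ 3 + a1 * a3 * b2 ^ 3 + a2 * a3 * b1 ^ 3) with hC
  have heP0 : 0 ≤ e * P := by positivity
  have heP1 : e * P ≤ 1 / 1000000000 * P := mul_le_mul_of_nonneg_right he (by linarith)
  have C0 : 0 ≤ C := by rw [hC]; nlinarith
  have C1 : C ≤ 100000001 / 100000000 * P := by rw [hC]; nlinarith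
  have hu0 : 0 < u := by linarith
  have hu2 : 99999999 / 100000000 ≤ u ^ 2 := by nlinarith
  have hx0 : x ≤ 0 := by
    by_contra hc
    have hc' : 0 < x := not_le.mp hc
    have : 0 < u ^ 2 * x := by positivity
    linarith
  have hx1 : -x ≤ 100001 / 100000 * P := by
    have h4 : 99999999 / 100000000 * (-x) ≤ u ^ 2 * (-x) :=
      mul_le_mul_of_nonneg_right hu2 (by linarith)
    have h5 : u ^ 2 * (-x) = C := by linarith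
    nlinarith
  calc x ^ 2 = (-x) ^ 2 := by ring
    _ ≤ (100001 / 100000 * P) ^ 2 := pow_le_pow_left₀ (by linarith) hx1 2
    _ ≤ 10001 / 10000 * P ^ 2 := by nlinarith [sq_nonneg P]

private theorem csz_core (a1 a2 a3 b1 b2 b3 u n1 n2 n3 x : ℝ) (a1p : 0 < a1) (a2p : 0 < a2)
    (a3p : 0 < a3)
    (h1 : a1 ≤ 1 / 1000) (h2 : a2 ≤ 1 / 1000) (h3 : a3 ≤ 1 / 1000)
    (l1 : 1 ≤ b1) (l2 : 1 ≤ b2) (l3 : 1 ≤ b3) (u1 : b1 ≤ 2) (u2 : b2 ≤ 2) (u3 : b3 ≤ 2)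
    (hu : u = 1 - a1 * a2 * a3)
    (e1 : n1 * u = b1 ^ 2 - a1 * b2 * b3) (e2 : n2 * u = b2 ^ 2 - a2 * b3 * b1)
    (e3 : n3 * u = b3 ^ 2 - a3 * b1 * b2)
    (hx : u ^ 2 * x = -((2 * (a1 * a2 * a3) + 1) * (b1 * b2 * b3) -
      (a1 * a2 * b3 ^ 3 + a1 * a3 * b2 ^ 3 + a2 * a3 * b1 ^ 3))) :
    (99 / 100 ≤ n1 ∧ n1 ≤ 5) ∧ (99 / 100 ≤ n2 ∧ n2 ≤ 5) ∧ (99 / 100 ≤ n3 ∧ n3 ≤ 5) ∧
    2 ≤ 4 * n1 * n2 * n3 - x ^ 2 ∧ 4 * n1 * n2 * n3 - x ^ 2 ≤ 500 := by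
  have he0 : 0 < a1 * a2 * a3 := by positivity
  have he1 : a1 * a2 * a3 ≤ 1 / 1000000000 := by
    have h12 : a1 * a2 ≤ 1 / 1000 * (1 / 1000) := mul_le_mul h1 h2 a2p.le (by norm_num)
    calc a1 * a2 * a3 ≤ (1 / 1000 * (1 / 1000)) * (1 / 1000) :=
          mul_le_mul h12 h3 a3p.le (by norm_num)
      _ = 1 / 1000000000 := by norm_num
  have v1 : 999999999 / 1000000000 ≤ u := by rw [hu]; linarith
  have v2 : u ≤ 1 := by rw [hu]; linarith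
  obtain ⟨n1l, n1u⟩ := csz_n a1 b1 b2 b3 u n1 a1p h1 l1 l2 u2 l3 u3 v1 v2 e1
  obtain ⟨n2l, n2u⟩ := csz_n a2 b2 b3 b1 u n2 a2p h2 l2 l3 u3 l1 u1 v1 v2 e2
  obtain ⟨n3l, n3u⟩ := csz_n a3 b3 b1 b2 u n3 a3p h3 l3 l1 u1 l2 u2 v1 v2 e3
  have hX := csz_x a1 a2 a3 b1 b2 b3 u x a1p a2p a3p h1 h2 h3 l1 l2 l3 u1 u2 u3 v1 v2 he1 hx
  have q1 : 1 ≤ b1 ^ 2 := by nlinarith
  have q2 : 1 ≤ b2 ^ 2 := by nlinarith
  have q3 : 1 ≤ b3 ^ 2 := by nlinarith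
  have r1 : b1 ^ 2 ≤ 4 := by nlinarith
  have r2 : b2 ^ 2 ≤ 4 := by nlinarith
  have r3 : b3 ^ 2 ≤ 4 := by nlinarith
  set B1 := b1 ^ 2 with hB1
  set B2 := b2 ^ 2 with hB2
  set B3 := b3 ^ 2 with hB3
  have hP2 : (b1 * b2 * b3) ^ 2 = B1 * B2 * B3 := by rw [hB1, hB2, hB3]; ring
  rw [hP2] at hX
  have hBB : 1 ≤ B1 * B2 := by nlinarith
  have hBBB : 1 ≤ B1 * B2 * B3 := by nlinarith
  have hBB' : B1 * B2 ≤ 16 := by nlinarith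
  have hBBB' : B1 * B2 * B3 ≤ 64 := by nlinarith
  have low12 : (996 / 1000 * B1) * (996 / 1000 * B2) ≤ n1 * n2 :=
    mul_le_mul n1l n2l (by linarith) (by linarith)
  have low : (996 / 1000 * B1) * (996 / 1000 * B2) * (996 / 1000 * B3) ≤ n1 * n2 * n3 :=
    mul_le_mul low12 n3l (by linarith) (by nlinarith)
  have up12 : n1 * n2 ≤ (1000001 / 1000000 * B1) * (1000001 / 1000000 * B2) :=
    mul_le_mul n1u n2u (by linarith) (by linarith)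
  have up : n1 * n2 * n3 ≤
      (1000001 / 1000000 * B1) * (1000001 / 1000000 * B2) * (1000001 / 1000000 * B3) :=
    mul_le_mul up12 n3u (by linarith) (by positivity)
  have low' : 988 / 1000 * (B1 * B2 * B3) ≤ n1 * n2 * n3 := by
    have : (996 / 1000 * B1) * (996 / 1000 * B2) * (996 / 1000 * B3) =
      (996 / 1000) ^ 3 * (B1 * B2 * B3) := by ring
    rw [this] at low
    refine le_trans ?_ low
    exact mul_le_mul_of_nonneg_right (by norm_num) (by linarith)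
  have up' : n1 * n2 * n3 ≤ 10001 / 10000 * (B1 * B2 * B3) := by
    have : (1000001 / 1000000 * B1) * (1000001 / 1000000 * B2) * (1000001 / 1000000 * B3) =
      (1000001 / 1000000) ^ 3 * (B1 * B2 * B3) := by ring
    rw [this] at up
    refine le_trans up ?_
    exact mul_le_mul_of_nonneg_right (by norm_num) (by linarith)
  have e4 : 4 * n1 * n2 * n3 = 4 * (n1 * n2 * n3) := by ring
  refine ⟨⟨by linarith, by linarith⟩, ⟨by linarith, by linarith⟩, ⟨by linarith, by linarith⟩, ?_, ?_⟩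
  · rw [e4]; linarith
  · rw [e4]; nlinarith [sq_nonneg x]

/-- `C7`: sizes (real numbers) -/
theorem csz (p y1 y2 y3 g1 g2 g3 G N1 N2 N3 xp D m : ℝ) (hG : 1 ≤ G) (hp : 0 < p)
    (l1 : G ≤ g1) (l2 : G ≤ g2) (l3 : G ≤ g3) (u1 : g1 ≤ 2 * G) (u2 : g2 ≤ 2 * G) (u3 : g3 ≤ 2 * G)
    (y1p : 0 < y1) (y2p : 0 < y2) (y3p : 0 < y3)
    (h1 : 1000 * y1 ≤ p) (h2 : 1000 * y2 ≤ p) (h3 : 1000 * y3 ≤ p)
    (hm : m = p ^ 3 - y1 * y2 * y3)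
    (e1 : N1 * m = p * g1 ^ 2 - y1 * g2 * g3) (e2 : N2 * m = p * g2 ^ 2 - y2 * g3 * g1)
    (e3 : N3 * m = p * g3 ^ 2 - y3 * g1 * g2)
    (hx : m ^ 2 * xp = -((2 * (y1 * y2 * y3) + p ^ 3) * (g1 * g2 * g3) -
      p * (y1 * y2 * g3 ^ 3 + y1 * y3 * g2 ^ 3 + y2 * y3 * g1 ^ 3)))
    (hD : D * p ^ 2 = 4 * N1 * N2 * N3 - xp ^ 2) :
    (99 / 100 * G ^ 2 ≤ N1 * p ^ 2 ∧ N1 * p ^ 2 ≤ 5 * G ^ 2) ∧
    (99 / 100 * G ^ 2 ≤ N2 * p ^ 2 ∧ N2 * p ^ 2 ≤ 5 * G ^ 2) ∧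
    (99 / 100 * G ^ 2 ≤ N3 * p ^ 2 ∧ N3 * p ^ 2 ≤ 5 * G ^ 2) ∧
    2 * G ^ 6 ≤ D * p ^ 8 ∧ D * p ^ 8 ≤ 500 * G ^ 6 := by
  have hG0 : 0 < G := by linarith
  have hpne : p ≠ 0 := hp.ne'
  have hGne : G ≠ 0 := hG0.ne'
  obtain ⟨a1, ha1⟩ : ∃ a, a = y1 / p := ⟨_, rfl⟩
  obtain ⟨a2, ha2⟩ : ∃ a, a = y2 / p := ⟨_, rfl⟩
  obtain ⟨a3, ha3⟩ : ∃ a, a = y3 / p := ⟨_, rfl⟩
  obtain ⟨b1, hb1⟩ : ∃ a, a = g1 / G := ⟨_, rfl⟩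
  obtain ⟨b2, hb2⟩ : ∃ a, a = g2 / G := ⟨_, rfl⟩
  obtain ⟨b3, hb3⟩ : ∃ a, a = g3 / G := ⟨_, rfl⟩
  obtain ⟨n1, hn1⟩ : ∃ a, a = N1 * p ^ 2 / G ^ 2 := ⟨_, rfl⟩
  obtain ⟨n2, hn2⟩ : ∃ a, a = N2 * p ^ 2 / G ^ 2 := ⟨_, rfl⟩
  obtain ⟨n3, hn3⟩ : ∃ a, a = N3 * p ^ 2 / G ^ 2 := ⟨_, rfl⟩
  obtain ⟨x, hxx⟩ : ∃ a, a = xp * p ^ 3 / G ^ 3 := ⟨_, rfl⟩
  have Y1 : y1 = a1 * p := by rw [ha1]; field_simp
  have Y2 : y2 = a2 * p := by rw [ha2]; field_simp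
  have Y3 : y3 = a3 * p := by rw [ha3]; field_simp
  have G1 : g1 = b1 * G := by rw [hb1]; field_simp
  have G2 : g2 = b2 * G := by rw [hb2]; field_simp
  have G3 : g3 = b3 * G := by rw [hb3]; field_simp
  have E1 : N1 * p ^ 2 = n1 * G ^ 2 := by rw [hn1]; field_simp
  have E2 : N2 * p ^ 2 = n2 * G ^ 2 := by rw [hn2]; field_simp
  have E3 : N3 * p ^ 2 = n3 * G ^ 2 := by rw [hn3]; field_simp
  have E4 : xp * p ^ 3 = x * G ^ 3 := by rw [hxx]; field_simp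
  have a1p : 0 < a1 := by rw [ha1]; positivity
  have a2p : 0 < a2 := by rw [ha2]; positivity
  have a3p : 0 < a3 := by rw [ha3]; positivity
  have k1 : a1 ≤ 1 / 1000 := by rw [ha1, div_le_div_iff₀ hp (by norm_num)]; linarith
  have k2 : a2 ≤ 1 / 1000 := by rw [ha2, div_le_div_iff₀ hp (by norm_num)]; linarith
  have k3 : a3 ≤ 1 / 1000 := by rw [ha3, div_le_div_iff₀ hp (by norm_num)]; linarith
  have L1 : 1 ≤ b1 := by rw [hb1, le_div_iff₀ hG0]; linarith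
  have L2 : 1 ≤ b2 := by rw [hb2, le_div_iff₀ hG0]; linarith
  have L3 : 1 ≤ b3 := by rw [hb3, le_div_iff₀ hG0]; linarith
  have U1 : b1 ≤ 2 := by rw [hb1, div_le_iff₀ hG0]; linarith
  have U2 : b2 ≤ 2 := by rw [hb2, div_le_iff₀ hG0]; linarith
  have U3 : b3 ≤ 2 := by rw [hb3, div_le_iff₀ hG0]; linarith
  obtain ⟨u, hu⟩ : ∃ u, u = 1 - a1 * a2 * a3 := ⟨_, rfl⟩
  have hM : m = p ^ 3 * u := by rw [hm, hu, Y1, Y2, Y3]; ring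
  have F : ∀ N n y b c d a g h k : ℝ, N * m = p * g ^ 2 - y * h * k → y = a * p → g = b * G →
      h = c * G → k = d * G → N * p ^ 2 = n * G ^ 2 → n * u = b ^ 2 - a * c * d := by
    intro N n y b c d a g h k hN hy hg hh hk hn
    have hpg : p * G ^ 2 ≠ 0 := by positivity
    apply mul_left_cancel₀ hpg
    calc p * G ^ 2 * (n * u) = p * u * (n * G ^ 2) := by ring
      _ = p * u * (N * p ^ 2) := by rw [hn]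
      _ = N * m := by rw [hM]; ring
      _ = p * g ^ 2 - y * h * k := hN
      _ = p * G ^ 2 * (b ^ 2 - a * c * d) := by rw [hy, hg, hh, hk]; ring
  have f1 := F N1 n1 y1 b1 b2 b3 a1 g1 g2 g3 e1 Y1 G1 G2 G3 E1
  have f2 := F N2 n2 y2 b2 b3 b1 a2 g2 g3 g1 e2 Y2 G2 G3 G1 E2
  have f3 := F N3 n3 y3 b3 b1 b2 a3 g3 g1 g2 e3 Y3 G3 G1 G2 E3
  have f4 : u ^ 2 * x = -((2 * (a1 * a2 * a3) + 1) * (b1 * b2 * b3) -
      (a1 * a2 * b3 ^ 3 + a1 * a3 * b2 ^ 3 + a2 * a3 * b1 ^ 3)) := by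
    have hpg : p ^ 3 * G ^ 3 ≠ 0 := by positivity
    apply mul_left_cancel₀ hpg
    calc p ^ 3 * G ^ 3 * (u ^ 2 * x) = p ^ 3 * u ^ 2 * (x * G ^ 3) := by ring
      _ = p ^ 3 * u ^ 2 * (xp * p ^ 3) := by rw [E4]
      _ = m ^ 2 * xp := by rw [hM]; ring
      _ = _ := hx
      _ = _ := by rw [Y1, Y2, Y3, G1, G2, G3]; ring
  obtain ⟨⟨c1, c2⟩, ⟨c3, c4⟩, ⟨c5, c6⟩, c7, c8⟩ :=
    csz_core a1 a2 a3 b1 b2 b3 u n1 n2 n3 x a1p a2p a3p k1 k2 k3 L1 L2 L3 U1 U2 U3 hu f1 f2 f3 f4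
  have hDD : D * p ^ 8 = (4 * n1 * n2 * n3 - x ^ 2) * G ^ 6 := by
    calc D * p ^ 8 = (D * p ^ 2) * p ^ 6 := by ring
      _ = (4 * N1 * N2 * N3 - xp ^ 2) * p ^ 6 := by rw [hD]
      _ = 4 * (N1 * p ^ 2) * (N2 * p ^ 2) * (N3 * p ^ 2) - (xp * p ^ 3) ^ 2 := by ring
      _ = _ := by rw [E1, E2, E3, E4]; ring
  have hG2 : 0 ≤ G ^ 2 := by positivity
  have hG6 : 0 ≤ G ^ 6 := by positivity
  rw [E1, E2, E3, hDD]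
  exact ⟨⟨mul_le_mul_of_nonneg_right c1 hG2, mul_le_mul_of_nonneg_right c2 hG2⟩,
    ⟨mul_le_mul_of_nonneg_right c3 hG2, mul_le_mul_of_nonneg_right c4 hG2⟩,
    ⟨mul_le_mul_of_nonneg_right c5 hG2, mul_le_mul_of_nonneg_right c6 hG2⟩,
    mul_le_mul_of_nonneg_right c7 hG6, mul_le_mul_of_nonneg_right c8 hG6⟩

end Pool.Agent.SML
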