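import Pool.Agent.SML.Ing

/-!
# SML/Cxp (C1)

Write `m = mm p y1 y2 y3`, `S = y1 y2 y3`.
POLYNOMIAL IDENTITIES (`ring` after `unfold Cg mm`), with `A_i = p g_i^2 - y_i g_j g_k` (`= N_i m`):
`- g_i y_i Cg = A_i^2 p^2 - m A_i g_i^2 - A_j A_k y_i^2` for `i = 1, 2, 3`.
So `- g_i y_i Cg = m^2 (N_i^2 p^2 - N_i g_i^2 - N_j N_k y_i^2)`.
For `i = 1`: `m^2 ∣ g1 y1 Cg`; `gcd(g1, m) = 1` (`h.gm`), `gcd(y1, m) = 1` (`m = p^3 - y1 (y2 y3)`, `h.cp1`), so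
`IsCoprime (m^2) (g1 y1)` and `m^2 ∣ Cg`.  Take `xp` with `m^2 xp = -Cg`; cancel `m^2 ≠ 0` in the three identities.
-/

set_option autoImplicit false

namespace Pool.Agent.SML

/-- `C1`: the integer `xp` -/
theorem cxp (p y1 y2 y3 g1 g2 g3 N1 N2 N3 : ℤ) (h : Ing p y1 y2 y3 g1 g2 g3 N1 N2 N3) :
    ∃ xp : ℤ, (mm p y1 y2 y3) ^ 2 * xp = - Cg p y1 y2 y3 g1 g2 g3 ∧
      g1 * y1 * xp = N1 ^ 2 * p ^ 2 - N1 * g1 ^ 2 - N2 * N3 * y1 ^ 2 ∧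
      g2 * y2 * xp = N2 ^ 2 * p ^ 2 - N2 * g2 ^ 2 - N3 * N1 * y2 ^ 2 ∧
      g3 * y3 * xp = N3 ^ 2 * p ^ 2 - N3 * g3 ^ 2 - N1 * N2 * y3 ^ 2 := by
  have hm : mm p y1 y2 y3 ≠ 0 := h.m0.ne'
  have i1 : -(g1 * y1 * Cg p y1 y2 y3 g1 g2 g3) =
      (mm p y1 y2 y3) ^ 2 * (N1 ^ 2 * p ^ 2 - N1 * g1 ^ 2 - N2 * N3 * y1 ^ 2) := by
    have a : -(g1 * y1 * Cg p y1 y2 y3 g1 g2 g3) = (p * g1 ^ 2 - y1 * g2 * g3) ^ 2 * p ^ 2 -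
        mm p y1 y2 y3 * (p * g1 ^ 2 - y1 * g2 * g3) * g1 ^ 2 -
        (p * g2 ^ 2 - y2 * g3 * g1) * (p * g3 ^ 2 - y3 * g1 * g2) * y1 ^ 2 := by
      unfold Cg mm; ring
    rw [a, ← h.e1, ← h.e2, ← h.e3]; ring
  have i2 : -(g2 * y2 * Cg p y1 y2 y3 g1 g2 g3) =
      (mm p y1 y2 y3) ^ 2 * (N2 ^ 2 * p ^ 2 - N2 * g2 ^ 2 - N3 * N1 * y2 ^ 2) := by
    have a : -(g2 * y2 * Cg p y1 y2 y3 g1 g2 g3) = (p * g2 ^ 2 - y2 * g3 * g1) ^ 2 * p ^ 2 -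
        mm p y1 y2 y3 * (p * g2 ^ 2 - y2 * g3 * g1) * g2 ^ 2 -
        (p * g3 ^ 2 - y3 * g1 * g2) * (p * g1 ^ 2 - y1 * g2 * g3) * y2 ^ 2 := by
      unfold Cg mm; ring
    rw [a, ← h.e1, ← h.e2, ← h.e3]; ring
  have i3 : -(g3 * y3 * Cg p y1 y2 y3 g1 g2 g3) =
      (mm p y1 y2 y3) ^ 2 * (N3 ^ 2 * p ^ 2 - N3 * g3 ^ 2 - N1 * N2 * y3 ^ 2) := by
    have a : -(g3 * y3 * Cg p y1 y2 y3 g1 g2 g3) = (p * g3 ^ 2 - y3 * g1 * g2) ^ 2 * p ^ 2 -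
        mm p y1 y2 y3 * (p * g3 ^ 2 - y3 * g1 * g2) * g3 ^ 2 -
        (p * g1 ^ 2 - y1 * g2 * g3) * (p * g2 ^ 2 - y2 * g3 * g1) * y3 ^ 2 := by
      unfold Cg mm; ring
    rw [a, ← h.e1, ← h.e2, ← h.e3]; ring
  have hy : IsCoprime (mm p y1 y2 y3) y1 := by
    have e : mm p y1 y2 y3 = p ^ 3 + y1 * (-(y2 * y3)) := by unfold mm; ring
    rw [e]
    exact (h.cp1.pow_left).add_mul_left_left _
  have hc : IsCoprime ((mm p y1 y2 y3) ^ 2) (g1 * y1) :=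
    (h.gm.symm.mul_right hy).pow_left
  have hd : (mm p y1 y2 y3) ^ 2 ∣ Cg p y1 y2 y3 g1 g2 g3 := by
    refine hc.dvd_of_dvd_mul_left ?_
    rw [← dvd_neg, i1]
    exact dvd_mul_right _ _
  obtain ⟨c, hc'⟩ := hd
  have key : ∀ g y R : ℤ, -(g * y * Cg p y1 y2 y3 g1 g2 g3) = (mm p y1 y2 y3) ^ 2 * R →
      g * y * (-c) = R := by
    intro g y R hR
    apply mul_left_cancel₀ (pow_ne_zero 2 hm)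
    rw [← hR, hc']; ring
  exact ⟨-c, by rw [hc']; ring, key _ _ _ i1, key _ _ _ i2, key _ _ _ i3⟩

end Pool.Agent.SML
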