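import Pool.Agent.SML.Ing
import Pool.Agent.SMI.Defs
import Pool.Agent.FTL.DefsL

/-!
# SML/DefsN: definitions for section N
-/

set_option autoImplicit false

namespace Pool.Agent.SML

open NumberField Pool.Agent.FTA Pool.Agent.FTB Pool.Agent.SMI nonZeroDivisors

/-- elements and ideals attached to the data over `K`, `D = f^2 |D_K|` -/
structure Idl (K : IntermediateField ℚ ℂ) [NumberField K] (f : ℕ)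
    (p y1 y2 y3 N1 N2 N3 xp x1 x2 x3 : ℤ) (π α1 α2 α3 : 𝓞 K) (I1 I2 I3 : (Ideal (𝓞 K))⁰) : Prop where
  cp : Co K π xp (f * p)
  a1 : Co K α1 x1 (f * y1)
  a2 : Co K α2 x2 (f * y2)
  a3 : Co K α3 x3 (f * y3)
  cu : π ^ 3 = α1 * α2 * α3
  i1 : (I1 : Ideal (𝓞 K)) ^ 3 = Ideal.span {α1}
  i2 : (I2 : Ideal (𝓞 K)) ^ 3 = Ideal.span {α2}
  i3 : (I3 : Ideal (𝓞 K)) ^ 3 = Ideal.span {α3}
  m1 : ((Ideal.absNorm (I1 : Ideal (𝓞 K)) : ℕ) : ℤ) = N1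
  m2 : ((Ideal.absNorm (I2 : Ideal (𝓞 K)) : ℕ) : ℤ) = N2
  m3 : ((Ideal.absNorm (I3 : Ideal (𝓞 K)) : ℕ) : ℤ) = N3
  r1 : Pm K I1
  r2 : Pm K I2
  r3 : Pm K I3
  ip : (I1 : Ideal (𝓞 K)) * (I2 : Ideal (𝓞 K)) * (I3 : Ideal (𝓞 K)) = Ideal.span {π}

/-- the ideals which are counted by the multiplicity lemma -/
def GG (K : IntermediateField ℚ ℂ) [NumberField K] (f : ℕ) (A : ClassGroup (𝓞 K)) (B : ℝ)
    (I : (Ideal (𝓞 K))⁰) : Prop :=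
  Pm K I ∧ ClassGroup.mk0 I = A ∧ ((Ideal.absNorm (I : Ideal (𝓞 K)) : ℕ) : ℝ) ≤ B ∧
    Nat.Coprime (Ideal.absNorm (I : Ideal (𝓞 K))) f ∧
    ∃ (α : 𝓞 K) (x y : ℤ), (I : Ideal (𝓞 K)) ^ 3 = Ideal.span {α} ∧ Co K α x (f * y)

/-- the pairs `(f1, z)` of the multiplicity lemma -/
def ZS (f d : ℕ) : Finset (ℕ × ℕ) :=
  (f.divisors ×ˢ Finset.range f).filter (fun q => Nat.Coprime (f / q.1) d ∧ q.2 < f / q.1 ∧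
    f / q.1 ∣ q.2 ^ 2 + 3 * d * (f / q.1 - 1))

/-- the relation of the pair `(f1, z)` with the coordinates `(r, k)` of `w` -/
def ZR (f : ℕ) (r k : ℤ) (q : ℕ × ℕ) : Prop :=
  q.1 = Int.gcd f k ∧ ((f / q.1 : ℕ) : ℤ) ∣ k * q.2 - 3 * r ∧ IsCoprime ((f / q.1 : ℕ) : ℤ) k ∧
    IsCoprime ((f / q.1 : ℕ) : ℤ) (q.1 : ℤ)

/-- `v` is attached to `K`, `f`, and the classes `A`, `B` -/
def Hit (K : IntermediateField ℚ ℂ) [NumberField K] (T : ℕ) (γ : ℝ) (f : ℕ)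
    (A B : ClassGroup (𝓞 K)) (v : ℕ × ℕ × ℕ × ℕ) : Prop :=
  ∃ (N1 N2 N3 : ℤ) (D : ℕ) (xp x1 x2 x3 : ℤ) (π α1 α2 α3 : 𝓞 K) (I1 I2 I3 : (Ideal (𝓞 K))⁰),
    Dat v.1 v.2.1 v.2.2.1 v.2.2.2 N1 N2 N3 D xp x1 x2 x3 ∧ Big T γ N1 N2 N3 D ∧
    1 ≤ f ∧ D = f ^ 2 * aD K ∧
    Idl K f v.1 v.2.1 v.2.2.1 v.2.2.2 N1 N2 N3 xp x1 x2 x3 π α1 α2 α3 I1 I2 I3 ∧
    ClassGroup.mk0 I1 = A ∧ ClassGroup.mk0 I2 = B

/-- number of independent pairs of classes of order 3 -/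
noncomputable def nI (K : IntermediateField ℚ ℂ) : ℕ :=
  Nat.card {q : ClassGroup (𝓞 K) × ClassGroup (𝓞 K) // Ind q.1 q.2}

/-- number of classes of order dividing 3 -/
noncomputable def nT (K : IntermediateField ℚ ℂ) : ℕ :=
  Nat.card {c : ClassGroup (𝓞 K) // c ^ 3 = 1}

/-- `v` is attached to some field `K` and the conductor `f` -/
def HV (T : ℕ) (γ : ℝ) (K : IntermediateField ℚ ℂ) (f : ℕ) (v : ℕ × ℕ × ℕ × ℕ) : Prop :=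
  ∃ (_ : NumberField K), Module.finrank ℚ K = 2 ∧
      (∃ x : K, (x : ℂ).im ≠ 0) ∧ 5 ≤ aD K ∧ 1 ≤ f ∧
      ((f ^ 2 * aD K : ℕ) : ℝ) ≤ (T : ℝ) ^ (4 + 6 * γ) ∧
      ∃ A B : ClassGroup (𝓞 K), Hit K T γ f A B v ∧ A ^ 3 = 1 ∧ B ^ 3 = 1 ∧
        ((f : ℝ) ≤ (T : ℝ) ^ (7 * γ) → Ind A B)

end Pool.Agent.SML
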