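import Pool.Agent.SML.DefsN
import Pool.Agent.FTB.CMn
import Pool.Agent.FTB.Cor
import Pool.Agent.SMI.Cvn

/-!
# SML/Ncj (N2)

`FTB.cpl K h2 I` gives `J`; `FTB.co_conj` gives `α'` with `Co K α' x (-y)` and `α α' = absNorm (span {α}) = (absNorm I)^3`
(`hI`, `map_pow`).  `I^3 J^3 = span {absNorm I}^3 = span {α α'} = span {α} span {α'} = I^3 span {α'}`; cancel `I^3 ≠ 0`
(`mul_left_cancel₀`).
-/

set_option autoImplicit false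

namespace Pool.Agent.SML

open NumberField Pool.Agent.FTA Pool.Agent.FTB Pool.Agent.SMI nonZeroDivisors

/-- `N2`: the conjugate ideal -/
theorem ncj (K : IntermediateField ℚ ℂ) [NumberField K] (h2 : Module.finrank ℚ K = 2)
    (him : ∃ x : K, (x : ℂ).im ≠ 0)
    (I : (Ideal (𝓞 K))⁰) (α : 𝓞 K) (x y : ℤ) (hI : (I : Ideal (𝓞 K)) ^ 3 = Ideal.span {α})
    (hα : Co K α x y) :
    ∃ (J : (Ideal (𝓞 K))⁰) (α' : 𝓞 K),
      (I : Ideal (𝓞 K)) * (J : Ideal (𝓞 K)) =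
        Ideal.span {((Ideal.absNorm (I : Ideal (𝓞 K)) : ℕ) : 𝓞 K)} ∧
      Ideal.absNorm (J : Ideal (𝓞 K)) = Ideal.absNorm (I : Ideal (𝓞 K)) ∧
      ClassGroup.mk0 J = (ClassGroup.mk0 I)⁻¹ ∧
      (J : Ideal (𝓞 K)) ^ 3 = Ideal.span {α'} ∧ Co K α' x (-y) ∧
      α * α' = ((Ideal.absNorm (I : Ideal (𝓞 K)) : ℕ) : 𝓞 K) ^ 3 := by
  obtain ⟨J, hJ, hJn, hJc⟩ := cpl K h2 I
  obtain ⟨α', hα', hm⟩ := co_conj K h2 him α x y hα
  have hI0 : (I : Ideal (𝓞 K)) ≠ 0 := nonZeroDivisors.coe_ne_zero I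
  have hm3 : α * α' = ((Ideal.absNorm (I : Ideal (𝓞 K)) : ℕ) : 𝓞 K) ^ 3 := by
    rw [hm, ← hI, map_pow]
    push_cast
    rfl
  refine ⟨J, α', hJ, hJn, hJc, ?_, hα', hm3⟩
  have h1 : (I : Ideal (𝓞 K)) ^ 3 * (J : Ideal (𝓞 K)) ^ 3 =
      (I : Ideal (𝓞 K)) ^ 3 * Ideal.span {α'} := by
    rw [← mul_pow, hJ, Ideal.span_singleton_pow, ← hm3, hI,
      Ideal.span_singleton_mul_span_singleton]
  exact mul_left_cancel₀ (pow_ne_zero 3 hI0) h1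

end Pool.Agent.SML
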