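import Pool.Agent.SML.DefsN
import Pool.Agent.FTL.LRo

/-!
# SML/Nct (N7b)

`ZS f d` injects into the union over `f1 ∈ f.divisors` of `{z < f2 : f2 ∣ z^2 + D'}`, `f2 = f / f1`, `D' = 3 d (f2 - 1)`, only for the `f1` with
`gcd(f2, d) = 1`.  For such `f1`: `f2` is odd; a prime `l ∣ f2` does not divide `D'` (`l ∤ 3`, `l ∤ d`, `l ∤ f2 - 1`), so `FTL.roo D' f2` gives at most
`f2.divisors.card ≤ f.divisors.card` values of `z` (`f2 = 1`: `z = 0` only; `roo` covers it too).  Sum: `Finset.card_le_mul_card_image`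
or `card_eq_sum_card_fiberwise`.
-/

set_option autoImplicit false

namespace Pool.Agent.SML

/-- `N7b`: the number of pairs -/
theorem nct (f d : ℕ) (hf : 1 ≤ f) (h6 : Nat.Coprime f 6) :
    (ZS f d).card ≤ f.divisors.card ^ 2 := by
  classical
  have hf0 : f ≠ 0 := by omega
  have h2f : ¬ 2 ∣ f := by
    intro h
    have h1 : 2 ∣ Nat.gcd f 6 := Nat.dvd_gcd h (by norm_num)
    rw [Nat.Coprime.gcd_eq_one h6] at h1
    omega
  have h3f : ¬ 3 ∣ f := by
    intro h
    have h1 : 3 ∣ Nat.gcd f 6 := Nat.dvd_gcd h (by norm_num)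
    rw [Nat.Coprime.gcd_eq_one h6] at h1
    omega
  have hbound : ∀ a ∈ (ZS f d).image Prod.fst,
      ((ZS f d).filter fun x => x.1 = a).card ≤ f.divisors.card := by
    intro a ha
    rw [Finset.mem_image] at ha
    obtain ⟨x, hx, hxa⟩ := ha
    unfold ZS at hx
    rw [Finset.mem_filter, Finset.mem_product, Nat.mem_divisors] at hx
    obtain ⟨⟨⟨hx1, -⟩, -⟩, hx3, -, -⟩ := hx
    rw [hxa] at hx1 hx3
    have hf2 : f / a ∣ f := Nat.div_dvd_of_dvd hx1
    have hf2p : 0 < f / a := Nat.div_pos (Nat.le_of_dvd (by omega) hx1)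
      (Nat.pos_of_dvd_of_pos hx1 (by omega))
    have hodd : Odd (f / a) := by
      rw [← Nat.not_even_iff_odd, even_iff_two_dvd]
      exact fun h => h2f (h.trans hf2)
    have hD : ∀ p : ℕ, p.Prime → p ∣ f / a → ¬ p ^ 2 ∣ 3 * d * (f / a - 1) := by
      intro p hp hpf hpD
      have h1 : p ∣ 3 * d * (f / a - 1) := (dvd_pow_self p two_ne_zero).trans hpD
      rcases (Nat.Prime.dvd_mul hp).mp h1 with h1 | h1
      · rcases (Nat.Prime.dvd_mul hp).mp h1 with h1 | h1
        · have h4 : p = 3 := (Nat.prime_dvd_prime_iff_eq hp Nat.prime_three).mp h1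
          rw [h4] at hpf
          exact h3f (hpf.trans hf2)
        · have h4 : p ∣ Nat.gcd (f / a) d := Nat.dvd_gcd hpf h1
          rw [Nat.Coprime.gcd_eq_one hx3] at h4
          exact hp.one_lt.ne' (Nat.dvd_one.mp h4)
      · have h4 : p ∣ f / a - (f / a - 1) := Nat.dvd_sub hpf h1
        have h5 : f / a - (f / a - 1) = 1 := by omega
        rw [h5] at h4
        exact hp.one_lt.ne' (Nat.dvd_one.mp h4)
    have hroo := FTL.roo (3 * d * (f / a - 1)) (f / a) hodd hD
    have hdiv : (f / a).divisors.card ≤ f.divisors.card :=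
      Finset.card_le_card (Nat.divisors_subset_of_dvd hf0 hf2)
    refine le_trans ?_ (hroo.trans hdiv)
    refine Finset.card_le_card_of_injOn Prod.snd ?_ ?_
    · intro y hy
      rw [Finset.mem_coe, Finset.mem_filter] at hy
      obtain ⟨hy, hya⟩ := hy
      unfold ZS at hy
      rw [Finset.mem_filter] at hy
      obtain ⟨-, -, hy2, hy3⟩ := hy
      rw [hya] at hy2 hy3
      rw [Finset.mem_coe, Finset.mem_filter, Finset.mem_range]
      exact ⟨hy2, hy3⟩
    · intro y hy y' hy' h
      rw [Finset.mem_coe, Finset.mem_filter] at hy hy'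
      exact Prod.ext (hy.2.trans hy'.2.symm) h
  have h1 := Finset.card_le_mul_card_image (f := Prod.fst) (ZS f d) f.divisors.card hbound
  have h2 : ((ZS f d).image Prod.fst).card ≤ f.divisors.card := by
    refine Finset.card_le_card fun a ha => ?_
    rw [Finset.mem_image] at ha
    obtain ⟨x, hx, hxa⟩ := ha
    unfold ZS at hx
    rw [Finset.mem_filter, Finset.mem_product] at hx
    rw [← hxa]
    exact hx.1.1
  calc (ZS f d).card ≤ f.divisors.card * ((ZS f d).image Prod.fst).card := h1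
    _ ≤ f.divisors.card * f.divisors.card := Nat.mul_le_mul_left _ h2
    _ = f.divisors.card ^ 2 := (sq _).symm

end Pool.Agent.SML
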