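import Pool.Agent.SML.DefsN

/-!
# SML/Nrt (N7b, N7c): elementary

`nrt`: `f1 = gcd(f, k)` (`≥ 1`), `f2 = f / f1`.  Let a prime `l` divide `f` and `k`; if `l ∣ 3 r^2 - d k^2` then `l ∣ 3 r^2`, `l ≠ 3`, `l ∣ r`,
`l ∣ r^2 + d k^2`: contradiction to `h2`.  So `gcd(f, k)` is coprime to `3 r^2 - d k^2 =: R`.
`f2` is coprime to `k`: let `l ∣ f2`, `l ∣ k`: then `l ∣ f`, `l ∤ R`, so for `l^e ∥ f`: `l^e ∣ k R` gives `l^e ∣ k`, so `l^e ∣ f1` and `l ∤ f2`.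
In particular `gcd(f1, f2) = 1` (`f1 ∣ k`), and `f2 ∣ k R` gives `f2 ∣ R`.
`gcd(f2, d) = 1`: `l ∣ f2`, `l ∣ d`: `l ∣ R` so `l ∣ 3 r^2`, `l ∣ r`, `l ∣ r^2 + d k^2`, contradiction.
`z ∈ [0, f2)` with `k z = 3 r mod f2` (`k` invertible mod `f2`).  `k^2 z^2 = 9 r^2 = 3 d k^2 mod f2` (as `f2 ∣ 3 r^2 - d k^2`), so
`z^2 = 3 d mod f2`, `f2 ∣ z^2 + 3 d (f2 - 1)` (`= z^2 - 3 d + 3 d f2`; natural subtraction, `f2 ≥ 1`).  `z < f2 ≤ f`.
`ndv`: `f = f1 f2`, `gcd(f1, f2) = 1`.  `f1 ∣ k`, `f1 ∣ k'` (`f1 = gcd(f,k) = gcd(f,k')`).  Modulo `f2`: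
`3 (k r' - r k') = k (3 r') - (3 r) k' = k (k' z) - (k z) k' = 0`, and `gcd(3, f2) = 1`.
-/

set_option autoImplicit false

namespace Pool.Agent.SML

private theorem nrt_c3 (f a : ℕ) (h6 : Nat.Coprime f 6) (ha : a ∣ f) : IsCoprime (a : ℤ) 3 := by
  have h3 : Nat.Coprime a 3 :=
    Nat.Coprime.coprime_dvd_left ha (Nat.Coprime.coprime_dvd_right (by norm_num) h6)
  exact_mod_cast Nat.isCoprime_iff_coprime.mpr h3

private theorem nrt_c4 (f a : ℕ) (h6 : Nat.Coprime f 6) (ha : a ∣ f) : IsCoprime (a : ℤ) 4 := by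
  have h2 : Nat.Coprime a 2 :=
    Nat.Coprime.coprime_dvd_left ha (Nat.Coprime.coprime_dvd_right (by norm_num) h6)
  have h4 : Nat.Coprime a 4 := by
    have : Nat.Coprime a (2 ^ 2) := Nat.Coprime.pow_right 2 h2
    simpa using this
  exact_mod_cast Nat.isCoprime_iff_coprime.mpr h4

/-- `N7b`: from the divisibility to a pair `(f1, z)` -/
theorem nrt (f d : ℕ) (r k : ℤ) (hf : 1 ≤ f) (h6 : Nat.Coprime f 6)
    (h1 : (f : ℤ) ∣ k * (3 * r ^ 2 - d * k ^ 2)) (h2 : IsCoprime (f : ℤ) (r ^ 2 + d * k ^ 2)) :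
    ∃ q ∈ ZS f d, ZR f r k q := by
  obtain ⟨g, hg⟩ : ∃ g, g = Int.gcd (f : ℤ) k := ⟨_, rfl⟩
  obtain ⟨R, hR⟩ : ∃ R : ℤ, R = 3 * r ^ 2 - d * k ^ 2 := ⟨_, rfl⟩
  have hgf' : (g : ℤ) ∣ (f : ℤ) := by rw [hg]; exact Int.gcd_dvd_left ..
  have hgk : (g : ℤ) ∣ k := by rw [hg]; exact Int.gcd_dvd_right ..
  have hgf : g ∣ f := by exact_mod_cast hgf'
  have hg0 : 0 < g := Nat.pos_of_dvd_of_pos hgf hf
  obtain ⟨f2, hf2⟩ := hgf
  have hf20 : 0 < f2 := by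
    rcases Nat.eq_zero_or_pos f2 with h | h
    · rw [h] at hf2; omega
    · exact h
  have hdiv : f / g = f2 := by rw [hf2]; exact Nat.mul_div_cancel_left f2 hg0
  have hf2f : f2 ∣ f := ⟨g, by rw [hf2]; ring⟩
  have hf2f' : (f2 : ℤ) ∣ (f : ℤ) := by exact_mod_cast hf2f
  have hgf : g ∣ f := ⟨f2, hf2⟩
  -- g coprime to R
  have cgR : IsCoprime (g : ℤ) R := by
    have c1 : IsCoprime (g : ℤ) (r ^ 2 + d * k ^ 2) := IsCoprime.of_isCoprime_of_dvd_left h2 hgf'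
    obtain ⟨k0, hk0⟩ := hgk
    have c2 : IsCoprime (g : ℤ) (r ^ 2) := by
      have e : r ^ 2 + d * k ^ 2 = r ^ 2 + (g : ℤ) * (d * k * k0) := by
        rw [hk0]; ring
      rw [e] at c1
      exact IsCoprime.of_add_mul_left_right c1
    have c3 : IsCoprime (g : ℤ) (3 * r ^ 2) := IsCoprime.mul_right (nrt_c3 f g h6 hgf) c2
    have e2 : R = 3 * r ^ 2 + (g : ℤ) * (-(d * k * k0)) := by rw [hR, hk0]; ring
    rw [e2]
    exact IsCoprime.add_mul_left_right c3 _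
  -- f2 divides R
  have d2R : (f2 : ℤ) ∣ R := by
    obtain ⟨k0, hk0⟩ := hgk
    have hgz : (g : ℤ) ≠ 0 := by exact_mod_cast hg0.ne'
    have h3 : (f2 : ℤ) ∣ k0 * R := by
      have : (g : ℤ) * f2 ∣ g * (k0 * R) := by
        have e : (g : ℤ) * (k0 * R) = k * (3 * r ^ 2 - d * k ^ 2) := by rw [hR]; rw [hk0]; ring
        rw [e]
        have e' : (g : ℤ) * f2 = (f : ℤ) := by rw [hf2]; push_cast; ring
        rw [e']; exact h1
      exact (mul_dvd_mul_iff_left hgz).mp this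
    have c : IsCoprime (f2 : ℤ) k0 := by
      rw [Int.isCoprime_iff_gcd_eq_one]
      have e : Int.gcd (f : ℤ) k = g * Int.gcd (f2 : ℤ) k0 := by
        have e1 : (f : ℤ) = (g : ℤ) * f2 := by rw [hf2]; push_cast; ring
        rw [e1, hk0, Int.gcd_mul_left]; simp
      rw [← hg] at e
      have : g * 1 = g * Int.gcd (f2 : ℤ) k0 := by rw [mul_one]; exact e
      exact (Nat.eq_of_mul_eq_mul_left hg0 this).symm
    exact IsCoprime.dvd_of_dvd_mul_left c h3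
  have cgf2 : IsCoprime (g : ℤ) (f2 : ℤ) := IsCoprime.of_isCoprime_of_dvd_right cgR d2R
  have cf2k : IsCoprime (f2 : ℤ) k := by
    rw [Int.isCoprime_iff_gcd_eq_one]
    have a1 : ((Int.gcd (f2 : ℤ) k : ℕ) : ℤ) ∣ (f2 : ℤ) := Int.gcd_dvd_left ..
    have a2 : ((Int.gcd (f2 : ℤ) k : ℕ) : ℤ) ∣ k := Int.gcd_dvd_right ..
    have a3 : ((Int.gcd (f2 : ℤ) k : ℕ) : ℤ) ∣ ((Int.gcd (f : ℤ) k : ℕ) : ℤ) :=
      Int.dvd_coe_gcd (dvd_trans a1 hf2f') a2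
    rw [← hg] at a3
    have a4 : IsUnit ((Int.gcd (f2 : ℤ) k : ℕ) : ℤ) := cgf2.isUnit_of_dvd' a3 a1
    have := Int.isUnit_iff_natAbs_eq.mp a4
    simpa using this
  have cf2d : Nat.Coprime f2 d := by
    have c1 : IsCoprime (f2 : ℤ) (r ^ 2 + d * k ^ 2) :=
      IsCoprime.of_isCoprime_of_dvd_left h2 hf2f'
    have c2 : IsCoprime (f2 : ℤ) (3 * (r ^ 2 + d * k ^ 2)) :=
      IsCoprime.mul_right (nrt_c3 f f2 h6 hf2f) c1
    obtain ⟨t, ht⟩ := d2R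
    have e : 3 * (r ^ 2 + d * k ^ 2) = 4 * (d * k ^ 2) + (f2 : ℤ) * t := by
      rw [← ht, hR]; ring
    rw [e] at c2
    have c3 := IsCoprime.of_add_mul_left_right c2
    have c4 : IsCoprime (f2 : ℤ) (d : ℤ) :=
      (IsCoprime.of_mul_right_left (IsCoprime.of_mul_right_right c3))
    exact Nat.isCoprime_iff_coprime.mp c4
  -- z
  obtain ⟨a, b, hab⟩ := cf2k
  have hf2z : (0 : ℤ) < f2 := by exact_mod_cast hf20
  obtain ⟨z, hz⟩ : ∃ z : ℕ, (z : ℤ) = (3 * r * b) % (f2 : ℤ) :=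
    ⟨((3 * r * b) % (f2 : ℤ)).toNat, Int.toNat_of_nonneg (Int.emod_nonneg _ hf2z.ne')⟩
  have hzlt : z < f2 := by
    have := Int.emod_lt_of_pos (3 * r * b) hf2z
    rw [← hz] at this
    exact_mod_cast this
  have hz1 : (f2 : ℤ) ∣ 3 * r * b - z := by
    rw [hz]; exact Int.dvd_self_sub_emod
  have hz2 : (f2 : ℤ) ∣ k * z - 3 * r := by
    have e : k * z - 3 * r = -(k * (3 * r * b - z)) + (f2 : ℤ) * (-(3 * r * a)) := by
      linear_combination (3 * r) * hab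
    rw [e]
    exact dvd_add ((dvd_neg).mpr (Dvd.dvd.mul_left hz1 k)) (dvd_mul_right _ _)
  have cf2k : IsCoprime (f2 : ℤ) k := ⟨a, b, hab⟩
  have hz3 : (f2 : ℤ) ∣ z ^ 2 - 3 * d := by
    have h5 : (f2 : ℤ) ∣ k ^ 2 * (z ^ 2 - 3 * d) := by
      have e : k ^ 2 * ((z : ℤ) ^ 2 - 3 * d) = (k * z - 3 * r) * (k * z + 3 * r) + R * 3 := by
        rw [hR]; ring
      rw [e]
      exact dvd_add (Dvd.dvd.mul_right hz2 _) (Dvd.dvd.mul_right d2R _)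
    exact IsCoprime.dvd_of_dvd_mul_left (IsCoprime.pow_right cf2k) h5
  have hz4 : f2 ∣ z ^ 2 + 3 * d * (f2 - 1) := by
    have : (f2 : ℤ) ∣ ((z ^ 2 + 3 * d * (f2 - 1) : ℕ) : ℤ) := by
      have e : ((z ^ 2 + 3 * d * (f2 - 1) : ℕ) : ℤ) = ((z : ℤ) ^ 2 - 3 * d) + (f2 : ℤ) * (3 * d) := by
        have : ((f2 - 1 : ℕ) : ℤ) = (f2 : ℤ) - 1 := by push_cast [Nat.cast_sub hf20]; ring
        rw [Nat.cast_add, Nat.cast_mul, this]; push_cast; ring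
      rw [e]
      exact dvd_add hz3 (dvd_mul_right _ _)
    exact_mod_cast this
  refine ⟨(g, z), ?_, ?_⟩
  · simp only [ZS, Finset.mem_filter, Finset.mem_product, Nat.mem_divisors, Finset.mem_range, hdiv]
    refine ⟨⟨⟨hgf, by omega⟩, ?_⟩, cf2d, hzlt, hz4⟩
    exact lt_of_lt_of_le hzlt (Nat.le_of_dvd hf hf2f)
  · simp only [ZR, hdiv]
    exact ⟨hg, hz2, cf2k, cgf2.symm⟩

/-- `N7c`: the same pair gives a divisibility -/
theorem ndv (f : ℕ) (r k r' k' : ℤ) (hf : 1 ≤ f) (h6 : Nat.Coprime f 6) (q : ℕ × ℕ)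
    (h : ZR f r k q) (h' : ZR f r' k' q) : (f : ℤ) ∣ k * r' - r * k' := by
  obtain ⟨g1, g2, g3, g4⟩ := h
  obtain ⟨g1', g2', g3', g4'⟩ := h'
  have hgf' : (q.1 : ℤ) ∣ (f : ℤ) := by rw [g1]; exact Int.gcd_dvd_left ..
  have hgk : (q.1 : ℤ) ∣ k := by rw [g1]; exact Int.gcd_dvd_right ..
  have hgk' : (q.1 : ℤ) ∣ k' := by rw [g1']; exact Int.gcd_dvd_right ..
  have hgf : q.1 ∣ f := by exact_mod_cast hgf'
  have hprod : (f : ℤ) = (q.1 : ℤ) * ((f / q.1 : ℕ) : ℤ) := by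
    exact_mod_cast (Nat.mul_div_cancel' hgf).symm
  have hd : f / q.1 ∣ f := Nat.div_dvd_of_dvd hgf
  have d1 : (q.1 : ℤ) ∣ k * r' - r * k' :=
    dvd_sub (Dvd.dvd.mul_right hgk _) (Dvd.dvd.mul_left hgk' _)
  have d2 : ((f / q.1 : ℕ) : ℤ) ∣ 3 * (k * r' - r * k') := by
    have e : 3 * (k * r' - r * k') = (k * q.2 - 3 * r) * k' - k * (k' * q.2 - 3 * r') := by ring
    rw [e]
    exact dvd_sub (Dvd.dvd.mul_right g2 _) (Dvd.dvd.mul_left g2' _)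
  have d3 : ((f / q.1 : ℕ) : ℤ) ∣ k * r' - r * k' :=
    IsCoprime.dvd_of_dvd_mul_left (nrt_c3 f (f / q.1) h6 hd) d2
  rw [hprod]
  exact IsCoprime.mul_dvd g4.symm d1 d3

end Pool.Agent.SML
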