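import Pool.Agent.SML.DefsN

/-!
# SML/Npm (N7d)

`g = gcd(a, b)`, `a = g a'`, `b = g b'`; cancel `span {g}`: `span {a'} I = span {b'} I'`, `gcd(a', b') = 1`: `span {a'} ⊔ span {b'} = ⊤`
(`IsCoprime` cast to `𝓞 K`).  `I' = I' (span {a'} ⊔ span {b'}) = span {a'} I' ⊔ span {b'} I' = span {a'} I' ⊔ span {a'} I ≤ span {a'}`; so
`a' < 2` (`hI'`), `a' = 1`; symmetrically `b' = 1`.
-/

set_option autoImplicit false

namespace Pool.Agent.SML

open NumberField Pool.Agent.FTA Pool.Agent.FTB Pool.Agent.SMI nonZeroDivisors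

/-- one half: `a' = 1` -/
private theorem npm_half (K : IntermediateField ℚ ℂ) [NumberField K] (I I' : (Ideal (𝓞 K))⁰)
    (hI' : Pm K I') (a b : ℕ) (ha : 1 ≤ a) (hc : Nat.Coprime a b)
    (h : Ideal.span {(a : 𝓞 K)} * (I : Ideal (𝓞 K)) = Ideal.span {(b : 𝓞 K)} * (I' : Ideal (𝓞 K))) :
    a = 1 := by
  by_contra hne
  have h2 : 2 ≤ a := by omega
  apply hI' a h2
  have hcop : IsCoprime (a : 𝓞 K) (b : 𝓞 K) := by
    have := (Nat.isCoprime_iff_coprime.2 hc).map (Int.castRingHom (𝓞 K))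
    simpa using this
  have htop : Ideal.span {(a : 𝓞 K)} ⊔ Ideal.span {(b : 𝓞 K)} = ⊤ :=
    (Ideal.isCoprime_iff_sup_eq).1 ((Ideal.isCoprime_span_singleton_iff _ _).2 hcop)
  have e : (I' : Ideal (𝓞 K)) = (Ideal.span {(a : 𝓞 K)} ⊔ Ideal.span {(b : 𝓞 K)}) * (I' : Ideal (𝓞 K)) := by
    rw [htop, Ideal.top_mul]
  rw [e, Ideal.sup_mul, ← h]
  exact sup_le Ideal.mul_le_left Ideal.mul_le_left

/-- `N7d`: primitive ideals with a common integral multiple are equal -/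
theorem npm (K : IntermediateField ℚ ℂ) [NumberField K] (I I' : (Ideal (𝓞 K))⁰) (hI : Pm K I)
    (hI' : Pm K I') (a b : ℕ) (ha : 1 ≤ a) (hb : 1 ≤ b)
    (h : Ideal.span {(a : 𝓞 K)} * (I : Ideal (𝓞 K)) = Ideal.span {(b : 𝓞 K)} * (I' : Ideal (𝓞 K))) :
    I = I' := by
  obtain ⟨a', b', hc, ea, eb⟩ := Nat.exists_coprime a b
  set g := Nat.gcd a b with hg
  have g0 : g ≠ 0 := Nat.gcd_ne_zero_left (by omega)
  have a0 : 1 ≤ a' := by
    rcases Nat.eq_zero_or_pos a' with h0 | h0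
    · rw [h0] at ea; omega
    · exact h0
  have b0 : 1 ≤ b' := by
    rcases Nat.eq_zero_or_pos b' with h0 | h0
    · rw [h0] at eb; omega
    · exact h0
  have h' : Ideal.span {(a' : 𝓞 K)} * (I : Ideal (𝓞 K)) =
      Ideal.span {(b' : 𝓞 K)} * (I' : Ideal (𝓞 K)) := by
    have hgs : Ideal.span {(g : 𝓞 K)} ≠ ⊥ := by
      rw [Ne, Ideal.span_singleton_eq_bot]
      exact_mod_cast g0
    apply mul_left_cancel₀ hgs
    rw [← mul_assoc, ← mul_assoc, Ideal.span_singleton_mul_span_singleton,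
      Ideal.span_singleton_mul_span_singleton]
    have e1 : (g : 𝓞 K) * (a' : 𝓞 K) = (a : 𝓞 K) := by
      rw [mul_comm]; exact_mod_cast ea.symm
    have e2 : (g : 𝓞 K) * (b' : 𝓞 K) = (b : 𝓞 K) := by
      rw [mul_comm]; exact_mod_cast eb.symm
    rw [e1, e2, h]
  have a1 : a' = 1 := npm_half K I I' hI' a' b' a0 hc h'
  have b1 : b' = 1 := npm_half K I' I hI b' a' b0 hc.symm h'.symm
  apply Subtype.ext
  rw [a1, b1] at h'
  simpa using h'


end Pool.Agent.SML
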