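import Pool.Agent.SML.DefsN
import Pool.Agent.SML.Npm
import Pool.Agent.SML.Nrt
import Pool.Agent.SML.Ncj
import Pool.Agent.SMI.Cvn
import Pool.Agent.FTB.Cor

/-!
# SML/Nsm (N7c)

`co_conj`: `w''` with `Co K w'' r' (-k')`, `w' w'' = absNorm (span {w'})`; `FTB.cpl` for `I'`: `J'` with `I' J' = span {absNorm I'}`,
`absNorm J' = absNorm I'`.
`span {w''} = J' I0`: `span {w'} span {w''} = span {absNorm I' absNorm J0} = span {absNorm I'} span {absNorm I0} = (I' J') (I0 J0)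
= span {w'} (J' I0)` (`absNorm J0 = absNorm I0` from `h0`: `absNorm (span {n}) = n^2`), cancel.
`span {w w''} = (I J0)(J' I0) = span {absNorm I0} (I J')`; `SMI.dvl`: `v` with `(absNorm I0) v = w w''`, `span {v} = I J'`.
`Co K v t n`: comparing `s`-parts in `ℂ`: `2 (absNorm I0) n = k r' - r k'` (`4 w w'' = (r + k s)(r' - k' s)`), `f ∣ k r' - r k'` (`ndv`), `f` is
coprime to `2 absNorm I0`: `f ∣ n`.  `co_norm`: `4 absNorm I absNorm I' = t^2 + aD K n^2`, so `n = 0` by `hB`.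
`v` is then (in `ℂ`) `t/2`; `t^2 = 4 absNorm I absNorm I' > 0`, `t` even (`t^2` is divisible by 4), `v = t/2 =: e` an integer `≠ 0`.
`span {absNorm I'} I = (I' J') I = I' (I J') = I' span {v} = span {|e|} I'`: `npm`.
-/

set_option autoImplicit false

namespace Pool.Agent.SML

open NumberField Pool.Agent.FTA Pool.Agent.FTB Pool.Agent.SMI nonZeroDivisors

private theorem Nsm_int (K : IntermediateField ℚ ℂ) [NumberField K] (v : 𝓞 K) (t : ℤ)
    (hv : Co K v t 0) (ht : (2 : ℤ) ∣ t) :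
    Ideal.span {v} = Ideal.span {(((t / 2).natAbs : ℕ) : 𝓞 K)} := by
  obtain ⟨s, rfl⟩ := ht
  have h1 : Co K (s : 𝓞 K) (2 * s) 0 := by
    unfold Co
    push_cast
    simp
  have h2 : v = (s : 𝓞 K) := co_inj K v (s : 𝓞 K) _ _ hv h1
  have h3 : (2 * s) / 2 = s := by omega
  rw [h2, h3]
  have h := Int.natAbs_eq s
  generalize s.natAbs = e at h ⊢
  rcases h with h | h
  · rw [h]
    simp
  · rw [h]
    simp [Ideal.span_singleton_neg]

/-- `N7c`: two ideals with the same pair are equal -/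
theorem nsm (K : IntermediateField ℚ ℂ) [NumberField K] (h2 : Module.finrank ℚ K = 2)
    (him : ∃ x : K, (x : ℂ).im ≠ 0)
    (f : ℕ) (hf : 1 ≤ f) (h6 : Nat.Coprime f 6) (I I' I0 J0 : (Ideal (𝓞 K))⁰) (hI : Pm K I)
    (hI' : Pm K I')
    (h0 : (I0 : Ideal (𝓞 K)) * (J0 : Ideal (𝓞 K)) =
        Ideal.span {((Ideal.absNorm (I0 : Ideal (𝓞 K)) : ℕ) : 𝓞 K)})
    (c0 : Nat.Coprime (Ideal.absNorm (I0 : Ideal (𝓞 K))) f)
    (w w' : 𝓞 K) (r k r' k' : ℤ) (hw : Ideal.span {w} = (I : Ideal (𝓞 K)) * (J0 : Ideal (𝓞 K)))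
    (hw' : Ideal.span {w'} = (I' : Ideal (𝓞 K)) * (J0 : Ideal (𝓞 K)))
    (cw : Co K w r k) (cw' : Co K w' r' k') (q : ℕ × ℕ) (z : ZR f r k q) (z' : ZR f r' k' q)
    (hB : 4 * (Ideal.absNorm (I : Ideal (𝓞 K)) * Ideal.absNorm (I' : Ideal (𝓞 K))) <
      f ^ 2 * aD K) : I = I' := by
  have hI0 : (I : Ideal (𝓞 K)) ≠ 0 := nonZeroDivisors.coe_ne_zero I
  have hI0' : (I' : Ideal (𝓞 K)) ≠ 0 := nonZeroDivisors.coe_ne_zero I'
  have hJ0 : (J0 : Ideal (𝓞 K)) ≠ 0 := nonZeroDivisors.coe_ne_zero J0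
  have hN0 : Ideal.absNorm (I0 : Ideal (𝓞 K)) ≠ 0 := by
    rw [Ne, Ideal.absNorm_eq_zero_iff]
    exact nonZeroDivisors.coe_ne_zero I0
  have hNI : Ideal.absNorm (I : Ideal (𝓞 K)) ≠ 0 := by
    rw [Ne, Ideal.absNorm_eq_zero_iff]
    exact hI0
  have hNI' : Ideal.absNorm (I' : Ideal (𝓞 K)) ≠ 0 := by
    rw [Ne, Ideal.absNorm_eq_zero_iff]
    exact hI0'
  -- norm of J0
  have hnJ : Ideal.absNorm (J0 : Ideal (𝓞 K)) = Ideal.absNorm (I0 : Ideal (𝓞 K)) := by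
    have h1 := congrArg Ideal.absNorm h0
    rw [nrm_nat K h2, map_mul, pow_two] at h1
    exact Nat.eq_of_mul_eq_mul_left (Nat.pos_of_ne_zero hN0) h1
  obtain ⟨J', hJ', hnJ', -⟩ := cpl K h2 I'
  obtain ⟨w'', cw'', hww⟩ := co_conj K h2 him w' r' k' cw'
  have hnw' : Ideal.absNorm (Ideal.span {w'}) =
      Ideal.absNorm (I' : Ideal (𝓞 K)) * Ideal.absNorm (I0 : Ideal (𝓞 K)) := by
    rw [hw', map_mul, hnJ]
  rw [hnw'] at hww
  have hsw' : Ideal.span {w'} ≠ 0 := by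
    rw [hw']
    exact mul_ne_zero hI0' hJ0
  have hsw'' : Ideal.span {w''} = (J' : Ideal (𝓞 K)) * (I0 : Ideal (𝓞 K)) := by
    apply mul_left_cancel₀ hsw'
    rw [Ideal.span_singleton_mul_span_singleton, hww]
    rw [Nat.cast_mul, ← Ideal.span_singleton_mul_span_singleton, ← hJ', ← h0, hw']
    ring
  have hx : Ideal.span {w * w''} =
      Ideal.span {((Ideal.absNorm (I0 : Ideal (𝓞 K)) : ℕ) : 𝓞 K)} *
        ((I : Ideal (𝓞 K)) * (J' : Ideal (𝓞 K))) := by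
    rw [← Ideal.span_singleton_mul_span_singleton, hw, hsw'', ← h0]
    ring
  obtain ⟨v, hv, hsv⟩ := dvl K (w * w'') _ _ (by exact_mod_cast hN0) hx
  obtain ⟨t, n, hc⟩ := co_exists K h2 him v
  have hc2 := co_nat K v t n (Ideal.absNorm (I0 : Ideal (𝓞 K))) hc
  rw [hv] at hc2
  obtain ⟨-, hm2⟩ := co_mul K w w'' r k r' (-k') _ _ cw cw'' hc2
  have hd := ndv f r k r' k' hf h6 q z z'
  have hd2 : (f : ℤ) ∣ (2 * (Ideal.absNorm (I0 : Ideal (𝓞 K)) : ℤ)) * n := by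
    have e : (2 * (Ideal.absNorm (I0 : Ideal (𝓞 K)) : ℤ)) * n = k * r' - r * k' := by
      linear_combination hm2
    rw [e]
    exact hd
  have hcf : IsCoprime (f : ℤ) (2 * (Ideal.absNorm (I0 : Ideal (𝓞 K)) : ℤ)) := by
    apply IsCoprime.mul_right
    · have h7 : Nat.Coprime f 2 := Nat.Coprime.coprime_dvd_right (by norm_num) h6
      exact_mod_cast Nat.isCoprime_iff_coprime.2 h7
    · exact Nat.isCoprime_iff_coprime.2 c0.symm
  have hfn : (f : ℤ) ∣ n := hcf.dvd_of_dvd_mul_left hd2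
  have hno := co_norm K h2 him v t n hc
  rw [hsv, map_mul, hnJ'] at hno
  have hn0 : n = 0 := by
    by_contra hn
    have h8 : (f : ℤ) ^ 2 ≤ n ^ 2 := by
      have h9 : (f : ℤ) ^ 2 ∣ n ^ 2 := pow_dvd_pow_of_dvd hfn 2
      exact Int.le_of_dvd (by positivity) h9
    have h10 : (aD K : ℤ) * (f : ℤ) ^ 2 ≤ (aD K : ℤ) * n ^ 2 :=
      mul_le_mul_of_nonneg_left h8 (by positivity)
    have h11 : (4 * (Ideal.absNorm (I : Ideal (𝓞 K)) * Ideal.absNorm (I' : Ideal (𝓞 K))) : ℤ) <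
        (f : ℤ) ^ 2 * (aD K : ℤ) := by exact_mod_cast hB
    have h12 : ((Ideal.absNorm (I : Ideal (𝓞 K)) * Ideal.absNorm (I' : Ideal (𝓞 K)) : ℕ) : ℤ) =
        (Ideal.absNorm (I : Ideal (𝓞 K)) : ℤ) * (Ideal.absNorm (I' : Ideal (𝓞 K)) : ℤ) := by
      push_cast
      ring
    rw [h12] at hno
    nlinarith [sq_nonneg t]
  subst hn0
  have ht2 : t ^ 2 = 4 * ((Ideal.absNorm (I : Ideal (𝓞 K)) : ℤ) *
      (Ideal.absNorm (I' : Ideal (𝓞 K)) : ℤ)) := by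
    have h12 : ((Ideal.absNorm (I : Ideal (𝓞 K)) * Ideal.absNorm (I' : Ideal (𝓞 K)) : ℕ) : ℤ) =
        (Ideal.absNorm (I : Ideal (𝓞 K)) : ℤ) * (Ideal.absNorm (I' : Ideal (𝓞 K)) : ℤ) := by
      push_cast
      ring
    rw [h12] at hno
    linarith
  have hte : (2 : ℤ) ∣ t := by
    have h13 : (2 : ℤ) ∣ t ^ 2 := by
      rw [ht2]
      exact Dvd.intro _ (by ring_nf : (2 : ℤ) * (2 * ((Ideal.absNorm (I : Ideal (𝓞 K)) : ℤ) *
        (Ideal.absNorm (I' : Ideal (𝓞 K)) : ℤ))) = _)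
    exact Int.prime_two.dvd_of_dvd_pow h13
  have ht0 : t ≠ 0 := by
    rintro rfl
    have h14 : (Ideal.absNorm (I : Ideal (𝓞 K)) : ℤ) *
      (Ideal.absNorm (I' : Ideal (𝓞 K)) : ℤ) = 0 := by linarith
    rcases mul_eq_zero.1 h14 with h | h
    · exact hNI (by exact_mod_cast h)
    · exact hNI' (by exact_mod_cast h)
  have hsp := Nsm_int K v t hc hte
  have he : 1 ≤ (t / 2).natAbs := by
    obtain ⟨s, rfl⟩ := hte
    have : (2 * s) / 2 = s := by omega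
    rw [this]
    have : s ≠ 0 := by
      rintro rfl
      exact ht0 (by ring)
    omega
  refine npm K I I' hI hI' (Ideal.absNorm (I' : Ideal (𝓞 K))) ((t / 2).natAbs)
    (Nat.one_le_iff_ne_zero.2 hNI') he ?_
  rw [← hJ', ← hsp, hsv]
  ring

end Pool.Agent.SML
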