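import Pool.Agent.SML.DefsN
import Pool.Agent.SMI.Vun
import Pool.Agent.FTB.Cor

/-!
# SML/Nun (N3)

`nun`: `co_exists` for `a`, `b`; `SMI.vun` gives `e^2 = 1` and the coordinates of `b` are `e` times those of `a`; `co_inj`, `co_neg`.
`nwc`: `w` is a unit, `span {w} = span {1}` so `w = 1` or `w = -1` (`nun`), `(-1)^3 <> 1` (characteristic 0).
`nwd`: `a^3 = c^3` (in `ℂ`, then in `𝓞 K` by injectivity), so `span {a}^3 = span {c}^3`, `span {a} = span {c}`
(unique factorization, see SMI/Inj.lean), so `a = c` or `a = -c` (`nun`); `a = -c` gives `w = -1`, `w^3 = -1 ≠ 1`.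
-/

set_option autoImplicit false

namespace Pool.Agent.SML

open NumberField Pool.Agent.FTA Pool.Agent.FTB Pool.Agent.SMI nonZeroDivisors

private theorem esq (e : ℤ) (he : e ^ 2 = 1) : e = 1 ∨ e = -1 := by
  have h : (e - 1) * (e + 1) = 0 := by linear_combination he
  rcases mul_eq_zero.1 h with h | h
  · left; linarith
  · right; linarith

/-- `N3`: generators of the same ideal -/
theorem nun (K : IntermediateField ℚ ℂ) [NumberField K] (h2 : Module.finrank ℚ K = 2)
    (him : ∃ x : K, (x : ℂ).im ≠ 0) (hd : 5 ≤ aD K)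
    (a b : 𝓞 K) (h : Ideal.span {a} = Ideal.span {b}) : a = b ∨ a = -b := by
  obtain ⟨s, z, ha⟩ := co_exists K h2 him a
  obtain ⟨t, w, hb⟩ := co_exists K h2 him b
  obtain ⟨e, he, ht, hw⟩ := vun K h2 him hd a b h s t z w ha hb
  have he' : e = 1 ∨ e = -1 := esq e he
  rcases he' with rfl | rfl
  · left
    rw [one_mul] at ht hw
    rw [ht, hw] at hb
    exact co_inj K a b s z ha hb
  · right
    have hn := co_neg K b t w hb
    rw [ht, hw] at hn
    simp only [neg_mul, one_mul, neg_neg] at hn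
    exact co_inj K a (-b) s z ha hn

/-- `N3`: no cube roots of unity -/
theorem nwc (K : IntermediateField ℚ ℂ) [NumberField K] (h2 : Module.finrank ℚ K = 2)
    (him : ∃ x : K, (x : ℂ).im ≠ 0) (hd : 5 ≤ aD K)
    (w : 𝓞 K) (h : w ^ 3 = 1) : w = 1 := by
  have hu : IsUnit w := IsUnit.of_pow_eq_one h (by norm_num)
  have hs : Ideal.span {w} = Ideal.span {(1 : 𝓞 K)} := by
    rw [Ideal.span_singleton_eq_top.2 hu, Ideal.span_singleton_eq_top.2 isUnit_one]
  rcases nun K h2 him hd w 1 hs with h1 | h1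
  · exact h1
  · exfalso
    rw [h1] at h
    have h3 : (2 : 𝓞 K) = 0 := by linear_combination -h
    exact two_ne_zero h3

/-- `N3` in the complex numbers: `w c = a` with `c ≠ 0` and `w^3 = 1` -/
theorem nwd (K : IntermediateField ℚ ℂ) [NumberField K] (h2 : Module.finrank ℚ K = 2)
    (him : ∃ x : K, (x : ℂ).im ≠ 0) (hd : 5 ≤ aD K)
    (w : ℂ) (hw : w ^ 3 = 1) (a c : 𝓞 K) (hc : c ≠ 0) (h : w * ((c : K) : ℂ) = ((a : K) : ℂ)) : w = 1 := by
  have hcK : (c : K) ≠ 0 := by
    intro h0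
    exact hc (RingOfIntegers.ext (by simpa using h0))
  have hcC : ((c : K) : ℂ) ≠ 0 := by
    intro h0
    exact hcK (by exact_mod_cast h0)
  have hwq : w = (((a : K) / (c : K) : K) : ℂ) := by
    push_cast
    field_simp
    exact h
  have h3 : ((a : K) / (c : K)) ^ 3 = 1 := by
    have : ((((a : K) / (c : K)) ^ 3 : K) : ℂ) = ((1 : K) : ℂ) := by
      push_cast
      have h4 : ((a : K) : ℂ) / ((c : K) : ℂ) = w := by rw [← h]; field_simp
      rw [h4, hw]
    exact_mod_cast this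
  have hint : IsIntegral ℤ ((a : K) / (c : K)) := by
    apply IsIntegral.of_pow (n := 3) (by norm_num)
    rw [h3]; exact isIntegral_one
  obtain ⟨w0, hw0⟩ : ∃ w0 : 𝓞 K, (w0 : K) = (a : K) / (c : K) := ⟨⟨_, hint⟩, rfl⟩
  have hw1 : w0 ^ 3 = 1 := by
    apply RingOfIntegers.ext
    have e1 : ((w0 ^ 3 : 𝓞 K) : K) = (w0 : K) ^ 3 := map_pow (algebraMap (𝓞 K) K) w0 3
    have e2 : ((1 : 𝓞 K) : K) = 1 := map_one (algebraMap (𝓞 K) K)
    exact e1.trans ((congrArg (fun z : K => z ^ 3) hw0).trans (h3.trans e2.symm))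
  have hw2 := nwc K h2 him hd w0 hw1
  rw [hwq, ← hw0, hw2]
  simp

end Pool.Agent.SML
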