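import Pool.Agent.SML.DefsN
import Pool.Agent.SML.Nun
import Pool.Agent.SMI.Cvn

/-!
# SML/Npd (N5)

`mk0 (I * J) = 1`; `SMI.gnl`: `b0` with `span {b0} = I J`.  `span {b0^3} = I^3 J^3 = span {α β}`: `nun`: `b0^3 = α β` (take `b0`) or
`b0^3 = - α β` (take `-b0`: `(-b0)^3 = α β`, `span {-b0} = span {b0}`).
-/

set_option autoImplicit false

namespace Pool.Agent.SML

open NumberField Pool.Agent.FTA Pool.Agent.FTB Pool.Agent.SMI nonZeroDivisors

/-- a generator of `I J` whose cube is the product of the generators of the cubes -/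
theorem npd (K : IntermediateField ℚ ℂ) [NumberField K] (h2 : Module.finrank ℚ K = 2)
    (him : ∃ x : K, (x : ℂ).im ≠ 0) (hd : 5 ≤ aD K)
    (I J : (Ideal (𝓞 K))⁰) (α β : 𝓞 K) (hc : ClassGroup.mk0 I * ClassGroup.mk0 J = 1)
    (hI : (I : Ideal (𝓞 K)) ^ 3 = Ideal.span {α}) (hJ : (J : Ideal (𝓞 K)) ^ 3 = Ideal.span {β}) :
    ∃ b : 𝓞 K, Ideal.span {b} = (I : Ideal (𝓞 K)) * (J : Ideal (𝓞 K)) ∧ b ^ 3 = α * β := by
  have hc' : ClassGroup.mk0 (I * J) = 1 := by rw [map_mul, hc]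
  obtain ⟨b, hb⟩ := gnl K (I * J) hc'
  have hb' : Ideal.span {b} = (I : Ideal (𝓞 K)) * (J : Ideal (𝓞 K)) := hb
  have hs : Ideal.span {b ^ 3} = Ideal.span {α * β} := by
    rw [← Ideal.span_singleton_pow, hb', mul_pow, hI, hJ, Ideal.span_singleton_mul_span_singleton]
  rcases nun K h2 him hd (b ^ 3) (α * β) hs with h | h
  · exact ⟨b, hb', h⟩
  · refine ⟨-b, ?_, ?_⟩
    · rw [← hb', Ideal.span_singleton_neg]
    · rw [Odd.neg_pow (by decide), h, neg_neg]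

end Pool.Agent.SML
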