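import Pool.Agent.SML.DefsN
import Pool.Agent.SML.Npd
import Pool.Agent.SML.Ncj
import Pool.Agent.FTB.Cor

/-!
# SML/Nwg (N7a)

`npd`: `w` with `span {w} = I J0`, `w^3 = α α0'`.  Coordinates `Co K w r k`.  In `ℂ` (`s = √(aD K) I`): `8 w^3 = (r + k s)^3` has `s`-part
`3 r^2 k - aD K k^3`; `8 α α0' = 2 (x + f y s)(x0 - f y0 s)` has `s`-part `2 f (y x0 - x y0)`: compare imaginary parts:
`k (3 r^2 - aD K k^2) = 2 f (y x0 - x y0)`, divisible by `f`.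
`co_norm`: `4 absNorm I absNorm J0 = r^2 + aD K k^2`; `f` is coprime to `4` (`h6`) and to both norms.
-/

set_option autoImplicit false

namespace Pool.Agent.SML

open NumberField Pool.Agent.FTA Pool.Agent.FTB Pool.Agent.SMI nonZeroDivisors

/-- `N7a`: the generator `w` of `I J0` -/
theorem nwg (K : IntermediateField ℚ ℂ) [NumberField K] (h2 : Module.finrank ℚ K = 2)
    (him : ∃ x : K, (x : ℂ).im ≠ 0) (hd : 5 ≤ aD K)
    (f : ℕ) (hf : 1 ≤ f) (h6 : Nat.Coprime f 6) (I I0 J0 : (Ideal (𝓞 K))⁰) (α α0 α0' : 𝓞 K)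
    (x y x0 y0 : ℤ) (hI : (I : Ideal (𝓞 K)) ^ 3 = Ideal.span {α}) (hα : Co K α x (f * y))
    (hJ : (J0 : Ideal (𝓞 K)) ^ 3 = Ideal.span {α0'}) (hα0 : Co K α0' x0 (-(f * y0)))
    (hc : ClassGroup.mk0 I * ClassGroup.mk0 J0 = 1)
    (cI : Nat.Coprime (Ideal.absNorm (I : Ideal (𝓞 K))) f)
    (cJ : Nat.Coprime (Ideal.absNorm (J0 : Ideal (𝓞 K))) f) :
    ∃ (w : 𝓞 K) (r k : ℤ), Ideal.span {w} = (I : Ideal (𝓞 K)) * (J0 : Ideal (𝓞 K)) ∧ Co K w r k ∧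
      (f : ℤ) ∣ k * (3 * r ^ 2 - (aD K : ℤ) * k ^ 2) ∧
      IsCoprime (f : ℤ) (r ^ 2 + (aD K : ℤ) * k ^ 2) := by
  obtain ⟨w, hw, hw3⟩ := npd K h2 him hd I J0 α α0' hc hI hJ
  obtain ⟨r, k, hrk⟩ := co_exists K h2 him w
  obtain ⟨T2, Y2, h22⟩ := co_exists K h2 him (w * w)
  obtain ⟨T3, Y3, h33⟩ := co_exists K h2 him (w * w * w)
  obtain ⟨e1, e2⟩ := co_mul K w w r k r k T2 Y2 hrk hrk h22
  obtain ⟨e3, e4⟩ := co_mul K (w * w) w T2 Y2 r k T3 Y3 h22 hrk h33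
  have hwww : w * w * w = α * α0' := by rw [← hw3]; ring
  have h44 : Co K (α * α0') T3 Y3 := by rw [← hwww]; exact h33
  obtain ⟨e5, e6⟩ := co_mul K α α0' x (f * y) x0 (-(f * y0)) T3 Y3 hα hα0 h44
  have hnorm := co_norm K h2 him w r k hrk
  rw [hw, map_mul] at hnorm
  refine ⟨w, r, k, hw, hrk, ⟨2 * (y * x0 - x * y0), ?_⟩, ?_⟩
  · have e7 : 4 * Y3 = k * (3 * r ^ 2 - (aD K : ℤ) * k ^ 2) := by
      linear_combination 2 * e4 + k * e1 + r * e2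
    linear_combination -e7 + 2 * e6
  · rw [← hnorm]
    have c2 : Nat.Coprime 2 f := Nat.Coprime.coprime_dvd_left (by norm_num) h6.symm
    have c4 : Nat.Coprime 4 f := by
      have := Nat.Coprime.pow_left 2 c2
      norm_num at this
      exact this
    have cc : Nat.Coprime f (4 * (Ideal.absNorm (I : Ideal (𝓞 K)) *
        Ideal.absNorm (J0 : Ideal (𝓞 K)))) :=
      (Nat.Coprime.mul_left c4 (Nat.Coprime.mul_left cI cJ)).symm
    have := Nat.isCoprime_iff_coprime.mpr cc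
    push_cast at this ⊢
    exact this

end Pool.Agent.SML
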