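import Pool.Agent.SML.DefsN
import Pool.Agent.SML.Nsm
import Pool.Agent.SML.Nwg
import Pool.Agent.SML.Nct
import Pool.Agent.SML.Nrt
import Pool.Agent.SML.Ncj

/-!
# SML/Nmu (N7)

`S` empty: trivial.  Fix `I0 ∈ S`, `ncj` for `I0`: `J0, α0'`, `mk0 J0 = A⁻¹`.  For each `I ∈ S`: `nwg` gives `w, r, k`, `nrt` gives a pair
`q(I) ∈ ZS f (aD K)` with `ZR f r k q`.  `I ↦ q(I)` is injective on `S` by `nsm` (`absNorm I, absNorm I' ≤ B`, `0 ≤ B`: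
`4 absNorm I absNorm I' ≤ 4 B^2 < f^2 aD K`).  So `S.card ≤ (ZS f (aD K)).card ≤ (f.divisors.card)^2` (`nct`).
-/

set_option autoImplicit false

namespace Pool.Agent.SML

open NumberField Pool.Agent.FTA Pool.Agent.FTB Pool.Agent.SMI nonZeroDivisors

/-- `N7`: the multiplicity lemma -/
theorem nmu (K : IntermediateField ℚ ℂ) [NumberField K] (h2 : Module.finrank ℚ K = 2)
    (him : ∃ x : K, (x : ℂ).im ≠ 0) (hd : 5 ≤ aD K)
    (f : ℕ) (hf : 1 ≤ f) (h6 : Nat.Coprime f 6) (A : ClassGroup (𝓞 K)) (B : ℝ)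
    (hB : 4 * B ^ 2 < (f : ℝ) ^ 2 * aD K) (S : Finset (Ideal (𝓞 K))⁰) (hS : ∀ I ∈ S, GG K f A B I) :
    S.card ≤ f.divisors.card ^ 2 := by
  classical
  rcases S.eq_empty_or_nonempty with h0 | ⟨I0, hI0⟩
  · simp [h0]
  obtain ⟨p0, c0, n0, f0, α0, x0, y0, e0, co0⟩ := hS I0 hI0
  obtain ⟨J0, α0', hJ, hJn, hJc, hJ3, hJco, -⟩ := ncj K h2 him I0 α0 x0 (f * y0) e0 co0
  have key : ∀ I ∈ S, ∃ q ∈ ZS f (aD K), ∃ (w : 𝓞 K) (r k : ℤ),
      Ideal.span {w} = (I : Ideal (𝓞 K)) * (J0 : Ideal (𝓞 K)) ∧ Co K w r k ∧ ZR f r k q := by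
    intro I hI
    obtain ⟨-, c1, -, f1, α, x, y, e1, co1⟩ := hS I hI
    obtain ⟨w, r, k, hw, hwc, hdv, hcp⟩ := nwg K h2 him hd f hf h6 I I0 J0 α α0 α0' x y x0 y0 e1 co1
      hJ3 hJco (by rw [c1, hJc, c0]; simp) f1 (by rw [hJn]; exact f0)
    obtain ⟨q, hq, hz⟩ := nrt f (aD K) r k hf h6 hdv hcp
    exact ⟨q, hq, w, r, k, hw, hwc, hz⟩
  choose! F hF using key
  have hcard : S.card ≤ (ZS f (aD K)).card := by
    apply Finset.card_le_card_of_injOn F (fun I hI => (hF I hI).1)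
    intro I hI I' hI' hFF
    obtain ⟨-, w, r, k, hw, hwc, hz⟩ := hF I hI
    obtain ⟨-, w', r', k', hw', hwc', hz'⟩ := hF I' hI'
    obtain ⟨pI, -, nI, -, -⟩ := hS I hI
    obtain ⟨pI', -, nI', -, -⟩ := hS I' hI'
    rw [← hFF] at hz'
    refine nsm K h2 him f hf h6 I I' I0 J0 pI pI' hJ f0 w w' r k r' k' hw hw' hwc hwc' (F I) hz hz' ?_
    have hlt : (4 * (Ideal.absNorm (I : Ideal (𝓞 K)) * Ideal.absNorm (I' : Ideal (𝓞 K)) : ℕ) : ℝ) <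
        (f : ℝ) ^ 2 * aD K := by
      refine lt_of_le_of_lt ?_ hB
      push_cast
      have hm : ((Ideal.absNorm (I : Ideal (𝓞 K)) : ℕ) : ℝ) *
          ((Ideal.absNorm (I' : Ideal (𝓞 K)) : ℕ) : ℝ) ≤ B * B :=
        mul_le_mul nI nI' (Nat.cast_nonneg _) (le_trans (Nat.cast_nonneg _) nI)
      nlinarith
    exact_mod_cast hlt
  exact hcard.trans (nct f (aD K) hf h6)


end Pool.Agent.SML
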