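import Pool.Agent.SML.DefsN
import Pool.Agent.SML.Nmu
import Pool.Agent.SMI.Vun
import Pool.Agent.FTB.Cor

/-!
# SML/Nfb (N8)

`S` nonempty.  `gcd(f, 6) = 1`: `D = f^2 aD K` is odd (`D4`) and prime to 3 (`D3`).  For `v ∈ S` choose the data (`Hit`); the ideals
`I1(v), I2(v), I3(v)` satisfy `GG K f C (BT T γ)` with `C = A`, `B`, `(A B)⁻¹` (`hi.ip`): primitive `r_i`, norm `≤ BT` (`Big.b_i`), coprime
to `f` (`Dat.d_i`: `N_i` is coprime to `D = f^2 aD K`), `α_i` with `Co K α_i x_i (f y_i)`.  `4 BT^2 < D = f^2 aD K` (`Big.bt`).  `nmu`: each of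
the three images has at most `f.divisors.card ^ 2` elements.
`v ↦ (I1, I2, I3)` is injective: if `v, v'` have the same ideals then `span {α_i} = span {α_i'}`: `SMI.vun`: `f y_i' = e f y_i` with `e = ±1`,
both positive: `y_i' = y_i`; `span {π} = I1 I2 I3 = span {π'}`: `f p' = e f p`, `p' = p`.
So `S.card ≤ (f.divisors.card^2)^3` (`Finset.card_le_card_of_injOn` into the product of the three images).
-/

set_option autoImplicit false

namespace Pool.Agent.SML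

open NumberField Pool.Agent.FTA Pool.Agent.FTB Pool.Agent.SMI nonZeroDivisors

private theorem Nfb_pos (f : ℕ) (hf : 1 ≤ f) (y y' e : ℤ) (he : e ^ 2 = 1)
    (hy : 0 < y) (hy' : 0 < y') (h : (f : ℤ) * y' = e * ((f : ℤ) * y)) : y' = y := by
  have hf0 : (0 : ℤ) < f := by exact_mod_cast hf
  have he2 : e = 1 ∨ e = -1 := sq_eq_one_iff_of_ne_zero_or he
  rcases he2 with he2 | he2
  · rw [he2, one_mul] at h
    exact mul_left_cancel₀ hf0.ne' h
  · rw [he2] at h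
    have h1 : 0 < (f : ℤ) * y' := mul_pos hf0 hy'
    have h2 : 0 < (f : ℤ) * y := mul_pos hf0 hy
    linarith
where
  sq_eq_one_iff_of_ne_zero_or {e : ℤ} (he : e ^ 2 = 1) : e = 1 ∨ e = -1 := by
    have : (e - 1) * (e + 1) = 0 := by linear_combination he
    rcases mul_eq_zero.1 this with h | h
    · left; linarith
    · right; linarith

private theorem Nfb_gg (K : IntermediateField ℚ ℂ) [NumberField K] (f : ℕ)
    (C : ClassGroup (𝓞 K)) (B : ℝ) (I : (Ideal (𝓞 K))⁰) (N : ℤ) (D : ℕ)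
    (α : 𝓞 K) (x y : ℤ) (hp : Pm K I) (hc : ClassGroup.mk0 I = C)
    (hN : ((Ideal.absNorm (I : Ideal (𝓞 K)) : ℕ) : ℤ) = N) (hB : (N : ℝ) ≤ B)
    (hD : D = f ^ 2 * aD K) (hcop : IsCoprime N (D : ℤ))
    (hi : (I : Ideal (𝓞 K)) ^ 3 = Ideal.span {α}) (hco : Co K α x (f * y)) :
    GG K f C B I := by
  refine ⟨hp, hc, ?_, ?_, α, x, y, hi, hco⟩
  · have : (((Ideal.absNorm (I : Ideal (𝓞 K)) : ℕ) : ℤ) : ℝ) = (N : ℝ) := by rw [hN]
    have h2 : ((Ideal.absNorm (I : Ideal (𝓞 K)) : ℕ) : ℝ) = (N : ℝ) := by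
      rw [← this]; push_cast; rfl
    rw [h2]; exact hB
  · rw [← Nat.isCoprime_iff_coprime, hN]
    rw [hD] at hcop
    push_cast at hcop
    have h3 : (f : ℤ) ^ 2 * (aD K : ℤ) = (f : ℤ) * ((f : ℤ) * (aD K : ℤ)) := by ring
    rw [h3] at hcop
    exact hcop.of_mul_right_left

/-- `N8`: the number of vectors attached to the same field, conductor and classes -/
theorem nfb (K : IntermediateField ℚ ℂ) [NumberField K] (h2 : Module.finrank ℚ K = 2)
    (him : ∃ x : K, (x : ℂ).im ≠ 0) (T : ℕ) (γ : ℝ) (f : ℕ)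
    (A B : ClassGroup (𝓞 K)) (S : Finset (ℕ × ℕ × ℕ × ℕ)) (hS : ∀ v ∈ S, Hit K T γ f A B v)
    (hd : 5 ≤ aD K) : S.card ≤ f.divisors.card ^ 6 := by
  classical
  rcases S.eq_empty_or_nonempty with hE | ⟨v0, hv0⟩
  · rw [hE]; simp
  choose N1 N2 N3 D xp x1 x2 x3 π α1 α2 α3 I1 I2 I3 hdat hbig hf1 hD hidl hA hB using hS
  have hf : 1 ≤ f := hf1 v0 hv0
  have h6 : Nat.Coprime f 6 := by
    have hd4 := (hdat v0 hv0).D4
    have hd3 := (hdat v0 hv0).D3
    rw [hD v0 hv0] at hd4 hd3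
    have h2' : ¬ 2 ∣ f := by
      intro h
      have h4 : 2 ∣ f ^ 2 * aD K := Dvd.dvd.mul_right (dvd_pow h two_ne_zero) _
      omega
    have h3' : ¬ 3 ∣ f := by
      intro h
      exact hd3 (Dvd.dvd.mul_right (dvd_pow h two_ne_zero) _)
    have e6 : (6 : ℕ) = 2 * 3 := by norm_num
    rw [e6]
    apply Nat.Coprime.mul_right
    · exact ((Nat.Prime.coprime_iff_not_dvd Nat.prime_two).2 h2').symm
    · exact ((Nat.Prime.coprime_iff_not_dvd Nat.prime_three).2 h3').symm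
  have hBB : 4 * (BT T γ) ^ 2 < (f : ℝ) ^ 2 * aD K := by
    have h := (hbig v0 hv0).bt
    rw [hD v0 hv0] at h
    push_cast at h
    exact h
  let G1 : {x // x ∈ S} → (Ideal (𝓞 K))⁰ := fun v => I1 v.1 v.2
  let G2 : {x // x ∈ S} → (Ideal (𝓞 K))⁰ := fun v => I2 v.1 v.2
  let G3 : {x // x ∈ S} → (Ideal (𝓞 K))⁰ := fun v => I3 v.1 v.2
  have c1 : (S.attach.image G1).card ≤ f.divisors.card ^ 2 := by
    apply nmu K h2 him hd f hf h6 A (BT T γ) hBB
    intro I hI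
    rw [Finset.mem_image] at hI
    obtain ⟨v, _, rfl⟩ := hI
    have hi := hidl v.1 v.2
    exact Nfb_gg K f A (BT T γ) (I1 v.1 v.2) _ _ _ _ _ hi.r1 (hA v.1 v.2) hi.m1
      (hbig v.1 v.2).b1 (hD v.1 v.2) (hdat v.1 v.2).d1 hi.i1 hi.a1
  have c2 : (S.attach.image G2).card ≤ f.divisors.card ^ 2 := by
    apply nmu K h2 him hd f hf h6 B (BT T γ) hBB
    intro I hI
    rw [Finset.mem_image] at hI
    obtain ⟨v, _, rfl⟩ := hI
    have hi := hidl v.1 v.2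
    exact Nfb_gg K f B (BT T γ) (I2 v.1 v.2) _ _ _ _ _ hi.r2 (hB v.1 v.2) hi.m2
      (hbig v.1 v.2).b2 (hD v.1 v.2) (hdat v.1 v.2).d2 hi.i2 hi.a2
  have c3 : (S.attach.image G3).card ≤ f.divisors.card ^ 2 := by
    apply nmu K h2 him hd f hf h6 (A * B)⁻¹ (BT T γ) hBB
    intro I hI
    rw [Finset.mem_image] at hI
    obtain ⟨v, _, rfl⟩ := hI
    have hi := hidl v.1 v.2
    have hcl : ClassGroup.mk0 (I3 v.1 v.2) = (A * B)⁻¹ := by
      have h1 : ClassGroup.mk0 (I1 v.1 v.2 * I2 v.1 v.2 * I3 v.1 v.2) = 1 := by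
        rw [ClassGroup.mk0_eq_one_iff]
        rw [Submonoid.coe_mul, Submonoid.coe_mul, hi.ip]
        exact ⟨⟨_, rfl⟩⟩
      rw [map_mul, map_mul, hA v.1 v.2, hB v.1 v.2] at h1
      exact eq_inv_of_mul_eq_one_right h1
    exact Nfb_gg K f (A * B)⁻¹ (BT T γ) (I3 v.1 v.2) _ _ _ _ _ hi.r3 hcl hi.m3
      (hbig v.1 v.2).b3 (hD v.1 v.2) (hdat v.1 v.2).d3 hi.i3 hi.a3
  have hinj : Set.InjOn (fun v : {x // x ∈ S} => (G1 v, G2 v, G3 v)) (S.attach : Set {x // x ∈ S}) := by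
    intro v _ v' _ hvv
    have e1 : I1 v.1 v.2 = I1 v'.1 v'.2 := congrArg Prod.fst hvv
    have e2 : I2 v.1 v.2 = I2 v'.1 v'.2 := congrArg (fun q => q.2.1) hvv
    have e3 : I3 v.1 v.2 = I3 v'.1 v'.2 := congrArg (fun q => q.2.2) hvv
    have hi := hidl v.1 v.2
    have hi' := hidl v'.1 v'.2
    have s1 : Ideal.span {α1 v.1 v.2} = Ideal.span {α1 v'.1 v'.2} := by
      rw [← hi.i1, ← hi'.i1, e1]
    have s2 : Ideal.span {α2 v.1 v.2} = Ideal.span {α2 v'.1 v'.2} := by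
      rw [← hi.i2, ← hi'.i2, e2]
    have s3 : Ideal.span {α3 v.1 v.2} = Ideal.span {α3 v'.1 v'.2} := by
      rw [← hi.i3, ← hi'.i3, e3]
    have s0 : Ideal.span {π v.1 v.2} = Ideal.span {π v'.1 v'.2} := by
      rw [← hi.ip, ← hi'.ip, e1, e2, e3]
    obtain ⟨a1, b1, -, d1⟩ := vun K h2 him hd _ _ s1 _ _ _ _ hi.a1 hi'.a1
    obtain ⟨a2, b2, -, d2⟩ := vun K h2 him hd _ _ s2 _ _ _ _ hi.a2 hi'.a2
    obtain ⟨a3, b3, -, d3⟩ := vun K h2 him hd _ _ s3 _ _ _ _ hi.a3 hi'.a3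
    obtain ⟨a0, b0, -, d0⟩ := vun K h2 him hd _ _ s0 _ _ _ _ hi.cp hi'.cp
    have hq := hdat v.1 v.2
    have hq' := hdat v'.1 v'.2
    have p0 := Nfb_pos f hf _ _ _ b0 hq.pp hq'.pp d0
    have p1 := Nfb_pos f hf _ _ _ b1 (by linarith [hq.q1]) (by linarith [hq'.q1]) d1
    have p2 := Nfb_pos f hf _ _ _ b2 (by linarith [hq.q2]) (by linarith [hq'.q2]) d2
    have p3 := Nfb_pos f hf _ _ _ b3 (by linarith [hq.q3]) (by linarith [hq'.q3]) d3
    apply Subtype.ext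
    refine Prod.ext ?_ (Prod.ext ?_ (Prod.ext ?_ ?_))
    · exact_mod_cast p0.symm
    · exact_mod_cast p1.symm
    · exact_mod_cast p2.symm
    · exact_mod_cast p3.symm
  have hcard : S.attach.card ≤ ((S.attach.image G1) ×ˢ (S.attach.image G2) ×ˢ (S.attach.image G3)).card := by
    apply Finset.card_le_card_of_injOn (fun v => (G1 v, G2 v, G3 v)) _ hinj
    intro v hv
    simp only [Finset.coe_product, Set.mem_prod, Finset.mem_coe]
    exact ⟨Finset.mem_image_of_mem _ hv, Finset.mem_image_of_mem _ hv, Finset.mem_image_of_mem _ hv⟩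
  rw [Finset.card_attach, Finset.card_product, Finset.card_product] at hcard
  calc S.card ≤ _ := hcard
    _ ≤ f.divisors.card ^ 2 * (f.divisors.card ^ 2 * f.divisors.card ^ 2) := by
        gcongr
    _ = f.divisors.card ^ 6 := by ring

end Pool.Agent.SML
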