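import Pool.Agent.SML.DefsN
import Pool.Agent.SML.Nfb

/-!
# SML/Nca (N9, N10)

`S` empty: trivial.  Otherwise `K` is a number field etc. (from one `v ∈ S`; the instances of `HV` for different `v` are equal:
`NumberField K` is a `Prop`).  Choose `A(v), B(v)`.  The map `v ↦ (A(v), B(v))` has fibres of size at most `f.divisors.card^6` (`nfb`), and its image
is contained in the set of the pairs with `Ind A B` (`nca`) resp. with `A^3 = B^3 = 1` (`ncb`).  `Finset.card_le_mul_card_image` and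
`Nat.card` of the subtypes (finite: `ClassGroup (𝓞 K)` is finite); in `ncb` the set of pairs is a product.
-/

set_option autoImplicit false

namespace Pool.Agent.SML

open NumberField Pool.Agent.FTA Pool.Agent.FTB Pool.Agent.SMI nonZeroDivisors

private theorem fib (K : IntermediateField ℚ ℂ) [NumberField K] (h2 : Module.finrank ℚ K = 2)
    (him : ∃ x : K, (x : ℂ).im ≠ 0) (T : ℕ) (γ : ℝ) (f t : ℕ) (ht : f.divisors.card ≤ t)
    (hd : 5 ≤ aD K) (S : Finset (ℕ × ℕ × ℕ × ℕ))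
    (F : ℕ × ℕ × ℕ × ℕ → ClassGroup (𝓞 K) × ClassGroup (𝓞 K))
    (hS : ∀ v ∈ S, Hit K T γ f (F v).1 (F v).2 v)
    (P : Finset (ClassGroup (𝓞 K) × ClassGroup (𝓞 K))) (hP : ∀ v ∈ S, F v ∈ P) :
    S.card ≤ t ^ 6 * P.card := by
  classical
  have h1 : S.card ≤ t ^ 6 * (S.image F).card := by
    refine Finset.card_le_mul_card_image S (t ^ 6) ?_
    intro q hq
    refine le_trans (nfb K h2 him T γ f q.1 q.2 _ ?_ hd) (Nat.pow_le_pow_left ht 6)
    intro v hv
    rw [Finset.mem_filter] at hv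
    have := hS v hv.1
    rw [hv.2] at this
    exact this
  refine le_trans h1 (Nat.mul_le_mul_left _ (Finset.card_le_card ?_))
  intro q hq
  obtain ⟨v, hv, rfl⟩ := Finset.mem_image.1 hq
  exact hP v hv

/-- fixed field and conductor, small conductor -/
theorem nca (T : ℕ) (γ : ℝ) (K : IntermediateField ℚ ℂ) (f : ℕ) (t : ℕ) (ht : f.divisors.card ≤ t)
    (hf : (f : ℝ) ≤ (T : ℝ) ^ (7 * γ)) (S : Finset (ℕ × ℕ × ℕ × ℕ)) (hS : ∀ v ∈ S, HV T γ K f v) :
    S.card ≤ t ^ 6 * nI K := by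
  classical
  rcases S.eq_empty_or_nonempty with rfl | ⟨v0, hv0⟩
  · simp
  obtain ⟨hN, h2, him, hd, -, -, -⟩ := hS v0 hv0
  have hex : ∀ v ∈ S, ∃ q : ClassGroup (𝓞 K) × ClassGroup (𝓞 K),
      Hit K T γ f q.1 q.2 v ∧ Ind q.1 q.2 := by
    intro v hv
    obtain ⟨_, -, -, -, -, -, A, B, hh, -, -, hi⟩ := hS v hv
    exact ⟨(A, B), hh, hi hf⟩
  choose! F hF1 hF2 using hex
  have hc : nI K = (Finset.univ.filter
      (fun q : ClassGroup (𝓞 K) × ClassGroup (𝓞 K) => Ind q.1 q.2)).card := by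
    unfold nI
    rw [Nat.card_eq_fintype_card, Fintype.card_subtype]
  rw [hc]
  exact fib K h2 him T γ f t ht hd S F hF1 _
    (fun v hv => Finset.mem_filter.2 ⟨Finset.mem_univ _, hF2 v hv⟩)

/-- fixed field and conductor, any conductor -/
theorem ncb (T : ℕ) (γ : ℝ) (K : IntermediateField ℚ ℂ) (f : ℕ) (t : ℕ) (ht : f.divisors.card ≤ t)
    (S : Finset (ℕ × ℕ × ℕ × ℕ)) (hS : ∀ v ∈ S, HV T γ K f v) :
    S.card ≤ t ^ 6 * nT K ^ 2 := by
  classical
  rcases S.eq_empty_or_nonempty with rfl | ⟨v0, hv0⟩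
  · simp
  obtain ⟨hN, h2, him, hd, -, -, -⟩ := hS v0 hv0
  have hex : ∀ v ∈ S, ∃ q : ClassGroup (𝓞 K) × ClassGroup (𝓞 K),
      Hit K T γ f q.1 q.2 v ∧ (q.1 ^ 3 = 1 ∧ q.2 ^ 3 = 1) := by
    intro v hv
    obtain ⟨_, -, -, -, -, -, A, B, hh, ha, hb, -⟩ := hS v hv
    exact ⟨(A, B), hh, ha, hb⟩
  choose! F hF1 hF2 using hex
  have hc : nT K ^ 2 = ((Finset.univ.filter (fun q : ClassGroup (𝓞 K) => q ^ 3 = 1)) ×ˢ
      (Finset.univ.filter (fun q : ClassGroup (𝓞 K) => q ^ 3 = 1))).card := by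
    unfold nT
    rw [Nat.card_eq_fintype_card, Fintype.card_subtype, Finset.card_product, sq]
  rw [hc]
  refine fib K h2 him T γ f t ht hd S F hF1 _ ?_
  intro v hv
  rw [Finset.mem_product]
  exact ⟨Finset.mem_filter.2 ⟨Finset.mem_univ _, (hF2 v hv).1⟩,
    Finset.mem_filter.2 ⟨Finset.mem_univ _, (hF2 v hv).2⟩⟩

end Pool.Agent.SML
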