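import Pool.Agent.SML.DefsN
import Pool.Agent.SML.Nca
import Pool.Agent.FTA.Fam

/-!
# SML/Ncc (N9, N10)

Choose `K(v), f(v)` for `v ∈ V`.  `1 ≤ f(v)`, `f^2 aD K ≤ X` (`Nat.le_floor`), so `f ≤ X` (`aD K ≥ 1`), `aD K ≤ X / f^2`
(`Nat.le_div_iff_mul_le`): `K(v) ∈ IQ (X / f^2) ⊆ IQ X`.  `V.card = ∑_{f ∈ Icc 1 X} #V_f` (`Finset.card_eq_sum_card_fiberwise`),
`#V_f = ∑_{K ∈ (famFin _).toFinset} #V_{f,K}`; `nca` for `f ≤ F` (`(f : ℝ) ≤ T^(7γ)` by `Nat.le_floor_iff`), `ncb` for `F < f ≤ X`; for `f ≤ F` enlarge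
`IQ (X / f^2)` to `IQ X` (terms `≥ 0`).  `finsum_mem_eq_finite_toFinset_sum _ (famFin _)` (FTA/Fam).
-/

set_option autoImplicit false

namespace Pool.Agent.SML

open NumberField Pool.Agent.FTA Pool.Agent.FTB Pool.Agent.SMI nonZeroDivisors

private theorem Ncc_mono {X Y : ℕ} (h : X ≤ Y) : IQ X ⊆ IQ Y := by
  rintro K ⟨hN, h2, him, hX⟩
  exact ⟨hN, h2, him, hX.trans h⟩

/-- the count over all fields and conductors -/
theorem ncc (T : ℕ) (γ : ℝ) (hγ : 0 < γ) (hT : 1 ≤ T) (X F t : ℕ) (hX : X = ⌊(T : ℝ) ^ (4 + 6 * γ)⌋₊)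
    (hF : F = ⌊(T : ℝ) ^ (7 * γ)⌋₊) (ht : ∀ f : ℕ, 1 ≤ f → f ≤ X → f.divisors.card ≤ t)
    (V : Finset (ℕ × ℕ × ℕ × ℕ)) (hV : ∀ v ∈ V, ∃ (K : IntermediateField ℚ ℂ) (f : ℕ), HV T γ K f v) :
    (V.card : ℝ) ≤ (t : ℝ) ^ 6 * (F * ∑ᶠ K ∈ IQ X, (nI K : ℝ)) +
      (t : ℝ) ^ 6 * ∑ f ∈ Finset.Ioc F X, ∑ᶠ K ∈ IQ (X / f ^ 2), (nT K : ℝ) ^ 2 := by
  classical
  haveI : Nonempty (IntermediateField ℚ ℂ) := ⟨⊥⟩
  choose! Kv fv hHV using hV
  have hfacts : ∀ v ∈ V, 1 ≤ fv v ∧ fv v ≤ X ∧ Kv v ∈ IQ (X / (fv v) ^ 2) := by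
    intro v hv
    obtain ⟨hN, h2, him, h5, hf1, hD, -⟩ := hHV v hv
    have h1 : (fv v) ^ 2 * aD (Kv v) ≤ X := by
      rw [hX]
      exact Nat.le_floor hD
    have hpos : 0 < (fv v) ^ 2 := by positivity
    refine ⟨hf1, ?_, hN, h2, him, ?_⟩
    · nlinarith
    · rw [Nat.le_div_iff_mul_le hpos, mul_comm]
      exact h1
  have hfib : (V.card : ℝ) = ∑ f ∈ Finset.Icc 1 X, ((V.filter (fun v => fv v = f)).card : ℝ) := by
    have h := Finset.card_eq_sum_card_fiberwise (s := V) (t := Finset.Icc 1 X) (f := fv)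
      (fun v hv => by
        obtain ⟨h1, h2, -⟩ := hfacts v hv
        exact Finset.mem_coe.mpr (Finset.mem_Icc.mpr ⟨h1, h2⟩))
    rw [h]
    push_cast
    rfl
  have hfib2 : ∀ f : ℕ, ((V.filter (fun v => fv v = f)).card : ℝ) =
      ∑ K ∈ (famFin (X / f ^ 2)).toFinset,
        (((V.filter (fun v => fv v = f)).filter (fun v => Kv v = K)).card : ℝ) := by
    intro f
    have h := Finset.card_eq_sum_card_fiberwise (s := V.filter (fun v => fv v = f))
      (t := (famFin (X / f ^ 2)).toFinset) (f := Kv)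
      (fun v hv => by
        have hv' := Finset.mem_coe.mp hv
        obtain ⟨hv1, hv2⟩ := Finset.mem_filter.mp hv'
        obtain ⟨-, -, h3⟩ := hfacts v hv1
        rw [hv2] at h3
        exact Finset.mem_coe.mpr ((Set.Finite.mem_toFinset _).mpr h3))
    rw [h]
    push_cast
    rfl
  have hHVf : ∀ (f : ℕ) (K : IntermediateField ℚ ℂ),
      ∀ v ∈ (V.filter (fun v => fv v = f)).filter (fun v => Kv v = K), HV T γ K f v := by
    intro f K v hv
    obtain ⟨hv1, hv2⟩ := Finset.mem_filter.mp hv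
    obtain ⟨hv3, hv4⟩ := Finset.mem_filter.mp hv1
    have := hHV v hv3
    rw [hv2, hv4] at this
    exact this
  have hsmall : ∀ f ∈ Finset.Icc 1 X, f ≤ F → ((V.filter (fun v => fv v = f)).card : ℝ) ≤
      (t : ℝ) ^ 6 * ∑ᶠ K ∈ IQ X, (nI K : ℝ) := by
    intro f hf hfF
    obtain ⟨hf1, hfX⟩ := Finset.mem_Icc.mp hf
    have hfr : (f : ℝ) ≤ (T : ℝ) ^ (7 * γ) := by
      have h1 : (F : ℝ) ≤ (T : ℝ) ^ (7 * γ) := by
        rw [hF]; exact Nat.floor_le (by positivity)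
      exact le_trans (by exact_mod_cast hfF) h1
    rw [hfib2 f, finsum_mem_eq_finite_toFinset_sum _ (famFin X), Finset.mul_sum]
    calc ∑ K ∈ (famFin (X / f ^ 2)).toFinset,
        (((V.filter (fun v => fv v = f)).filter (fun v => Kv v = K)).card : ℝ)
        ≤ ∑ K ∈ (famFin (X / f ^ 2)).toFinset, (t : ℝ) ^ 6 * (nI K : ℝ) := by
          refine Finset.sum_le_sum fun K _ => ?_
          have h := nca T γ K f t (ht f hf1 hfX) hfr _ (hHVf f K)
          exact_mod_cast h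
      _ ≤ ∑ K ∈ (famFin X).toFinset, (t : ℝ) ^ 6 * (nI K : ℝ) := by
          refine Finset.sum_le_sum_of_subset_of_nonneg ?_ (fun K _ _ => by positivity)
          intro K hK
          rw [Set.Finite.mem_toFinset] at hK ⊢
          exact Ncc_mono (Nat.div_le_self _ _) hK
  have hlarge : ∀ f ∈ Finset.Icc 1 X, ((V.filter (fun v => fv v = f)).card : ℝ) ≤
      (t : ℝ) ^ 6 * ∑ᶠ K ∈ IQ (X / f ^ 2), (nT K : ℝ) ^ 2 := by
    intro f hf
    obtain ⟨hf1, hfX⟩ := Finset.mem_Icc.mp hf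
    rw [hfib2 f, finsum_mem_eq_finite_toFinset_sum _ (famFin (X / f ^ 2)), Finset.mul_sum]
    refine Finset.sum_le_sum fun K _ => ?_
    have h := ncb T γ K f t (ht f hf1 hfX) _ (hHVf f K)
    exact_mod_cast h
  have hSI : 0 ≤ ∑ᶠ K ∈ IQ X, (nI K : ℝ) :=
    finsum_nonneg fun K => finsum_nonneg fun _ => Nat.cast_nonneg _
  rw [hfib, ← Finset.sum_filter_add_sum_filter_not (Finset.Icc 1 X) (fun f => f ≤ F)]
  refine add_le_add ?_ ?_
  · calc ∑ f ∈ (Finset.Icc 1 X).filter (fun f => f ≤ F),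
        ((V.filter (fun v => fv v = f)).card : ℝ)
        ≤ ∑ f ∈ (Finset.Icc 1 X).filter (fun f => f ≤ F),
          (t : ℝ) ^ 6 * ∑ᶠ K ∈ IQ X, (nI K : ℝ) := by
          refine Finset.sum_le_sum fun f hf => ?_
          obtain ⟨h1, h2⟩ := Finset.mem_filter.mp hf
          exact hsmall f h1 h2
      _ = (((Finset.Icc 1 X).filter (fun f => f ≤ F)).card : ℝ) *
          ((t : ℝ) ^ 6 * ∑ᶠ K ∈ IQ X, (nI K : ℝ)) := by
          rw [Finset.sum_const, nsmul_eq_mul]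
      _ ≤ (F : ℝ) * ((t : ℝ) ^ 6 * ∑ᶠ K ∈ IQ X, (nI K : ℝ)) := by
          apply mul_le_mul_of_nonneg_right _ (by positivity)
          have h1 : ((Finset.Icc 1 X).filter (fun f => f ≤ F)).card ≤ F := by
            calc ((Finset.Icc 1 X).filter (fun f => f ≤ F)).card ≤ (Finset.Icc 1 F).card := by
                  apply Finset.card_le_card
                  intro f hf
                  obtain ⟨h1, h2⟩ := Finset.mem_filter.mp hf
                  exact Finset.mem_Icc.mpr ⟨(Finset.mem_Icc.mp h1).1, h2⟩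
              _ = F := by rw [Nat.card_Icc]; omega
          exact_mod_cast h1
      _ = (t : ℝ) ^ 6 * (F * ∑ᶠ K ∈ IQ X, (nI K : ℝ)) := by ring
  · have hset : (Finset.Icc 1 X).filter (fun f => ¬ f ≤ F) = Finset.Ioc F X := by
      ext f
      rw [Finset.mem_filter, Finset.mem_Icc, Finset.mem_Ioc]
      omega
    rw [← hset, Finset.mul_sum]
    refine Finset.sum_le_sum fun f hf => ?_
    exact hlarge f (Finset.mem_filter.mp hf).1

end Pool.Agent.SML
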