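import Pool.Agent.SML.DefsN
import Pool.Agent.FTA.Fam

/-!
# SML/Ncd (N9)

`C` from `hU ε`.  For `f` with `X / f^2 = 0`: `IQ 0 = ∅` (`aD K ≥ 1`, `aD_pos`), the sum is 0.  Otherwise `X / f^2 ≥ 1` (natural division) and
`hU` with the real number `X / f^2` (cast of the natural quotient; `⌊(n:ℝ)⌋₊ = n`): `≤ C (X/f^2)^(1+ε) ≤ C X^(1+ε) / f^2` (real:
`(X/f^2 : ℕ) ≤ X / f^2`, `(f^2)^(1+ε) ≥ f^2`).  `∑_{f > F} 1/f^2 ≤ 1/F` (`sum_Ioc_inv_sq_le_sub`-type lemma of Mathlib: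
`sum_Ioc_inv_sq_le_sub`, or telescoping `1/f^2 ≤ 1/(f-1) - 1/f`).
-/

set_option autoImplicit false

namespace Pool.Agent.SML

open NumberField Pool.Agent.FTA Pool.Agent.FTB Pool.Agent.SMI nonZeroDivisors

private theorem Ncd_zero : IQ 0 = ∅ := by
  rw [Set.eq_empty_iff_forall_notMem]
  rintro K ⟨hK, h2, him, hX⟩
  have := aD_pos K
  omega

private theorem Ncd_one {C ε : ℝ} (hC : 0 < C) (hε : 0 < ε)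
    (hU : ∀ X : ℝ, 1 ≤ X →
      ∑ᶠ K ∈ IQ ⌊X⌋₊, ((Nat.card {c : ClassGroup (𝓞 K) // c ^ 3 = 1} : ℝ)) ^ 2 ≤ C * X ^ (1 + ε))
    (X f : ℕ) (hf : 1 ≤ f) :
    ∑ᶠ K ∈ IQ (X / f ^ 2), (nT K : ℝ) ^ 2 ≤ C * (X : ℝ) ^ (1 + ε) * ((f : ℝ) ^ 2)⁻¹ := by
  have hf1 : (1 : ℝ) ≤ (f : ℝ) := by exact_mod_cast hf
  have hf2 : (1 : ℝ) ≤ (f : ℝ) ^ 2 := one_le_pow₀ hf1
  have hX0 : (0 : ℝ) ≤ (X : ℝ) := Nat.cast_nonneg X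
  have hXp : (0 : ℝ) ≤ (X : ℝ) ^ (1 + ε) := Real.rpow_nonneg hX0 _
  rcases Nat.eq_zero_or_pos (X / f ^ 2) with h0 | h0
  · rw [h0, Ncd_zero, finsum_mem_empty]
    positivity
  · have hY1 : (1 : ℝ) ≤ ((X / f ^ 2 : ℕ) : ℝ) := by exact_mod_cast h0
    have h1 := hU ((X / f ^ 2 : ℕ) : ℝ) hY1
    rw [Nat.floor_natCast] at h1
    have h2 : ((X / f ^ 2 : ℕ) : ℝ) ≤ (X : ℝ) / (f : ℝ) ^ 2 := by
      have := @Nat.cast_div_le ℝ _ _ _ X (f ^ 2)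
      push_cast at this
      exact this
    have h3 : (((X / f ^ 2 : ℕ) : ℝ)) ^ (1 + ε) ≤ (X : ℝ) ^ (1 + ε) * ((f : ℝ) ^ 2)⁻¹ := by
      calc (((X / f ^ 2 : ℕ) : ℝ)) ^ (1 + ε) ≤ ((X : ℝ) / (f : ℝ) ^ 2) ^ (1 + ε) :=
            Real.rpow_le_rpow (by linarith) h2 (by linarith)
        _ = (X : ℝ) ^ (1 + ε) / ((f : ℝ) ^ 2) ^ (1 + ε) :=
            Real.div_rpow hX0 (by positivity) _
        _ ≤ (X : ℝ) ^ (1 + ε) / ((f : ℝ) ^ 2) := by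
            refine div_le_div_of_nonneg_left hXp (by positivity) ?_
            calc (f : ℝ) ^ 2 = ((f : ℝ) ^ 2) ^ (1 : ℝ) := (Real.rpow_one _).symm
              _ ≤ ((f : ℝ) ^ 2) ^ (1 + ε) :=
                Real.rpow_le_rpow_of_exponent_le hf2 (by linarith)
        _ = (X : ℝ) ^ (1 + ε) * ((f : ℝ) ^ 2)⁻¹ := div_eq_mul_inv _ _
    have h4 : ∑ᶠ K ∈ IQ (X / f ^ 2), (nT K : ℝ) ^ 2 ≤
        C * (((X / f ^ 2 : ℕ) : ℝ)) ^ (1 + ε) := h1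
    calc ∑ᶠ K ∈ IQ (X / f ^ 2), (nT K : ℝ) ^ 2 ≤ C * (((X / f ^ 2 : ℕ) : ℝ)) ^ (1 + ε) := h4
      _ ≤ C * ((X : ℝ) ^ (1 + ε) * ((f : ℝ) ^ 2)⁻¹) := mul_le_mul_of_nonneg_left h3 hC.le
      _ = _ := by ring

/-- the large conductors -/
theorem ncd (hU : ∀ ε : ℝ, 0 < ε → ∃ C : ℝ, 0 < C ∧ ∀ X : ℝ, 1 ≤ X →
      ∑ᶠ K ∈ IQ ⌊X⌋₊, ((Nat.card {c : ClassGroup (𝓞 K) // c ^ 3 = 1} : ℝ)) ^ 2 ≤ C * X ^ (1 + ε))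
    (ε : ℝ) (hε : 0 < ε) : ∃ C : ℝ, 0 < C ∧ ∀ X F : ℕ, 1 ≤ F →
      ∑ f ∈ Finset.Ioc F X, ∑ᶠ K ∈ IQ (X / f ^ 2), (nT K : ℝ) ^ 2 ≤ C * (X : ℝ) ^ (1 + ε) / F := by
  obtain ⟨C, hC, h⟩ := hU ε hε
  refine ⟨C, hC, fun X F hF => ?_⟩
  have hX0 : (0 : ℝ) ≤ (X : ℝ) := Nat.cast_nonneg X
  have hXp : (0 : ℝ) ≤ (X : ℝ) ^ (1 + ε) := Real.rpow_nonneg hX0 _
  have hF0 : (0 : ℝ) < (F : ℝ) := by exact_mod_cast hF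
  have hs : ∑ f ∈ Finset.Ioc F X, ((f : ℝ) ^ 2)⁻¹ ≤ (F : ℝ)⁻¹ := by
    rcases le_or_gt F X with hFX | hFX
    · have h1 := sum_Ioc_inv_sq_le_sub (α := ℝ) (k := F) (n := X) (by omega) hFX
      have h2 : (0 : ℝ) ≤ (X : ℝ)⁻¹ := by positivity
      linarith
    · rw [Finset.Ioc_eq_empty_of_le hFX.le, Finset.sum_empty]
      positivity
  calc ∑ f ∈ Finset.Ioc F X, ∑ᶠ K ∈ IQ (X / f ^ 2), (nT K : ℝ) ^ 2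
      ≤ ∑ f ∈ Finset.Ioc F X, C * (X : ℝ) ^ (1 + ε) * ((f : ℝ) ^ 2)⁻¹ := by
        refine Finset.sum_le_sum fun f hf => ?_
        rw [Finset.mem_Ioc] at hf
        exact Ncd_one hC hε h X f (by omega)
    _ = C * (X : ℝ) ^ (1 + ε) * ∑ f ∈ Finset.Ioc F X, ((f : ℝ) ^ 2)⁻¹ := by
        rw [Finset.mul_sum]
    _ ≤ C * (X : ℝ) ^ (1 + ε) * (F : ℝ)⁻¹ := mul_le_mul_of_nonneg_left hs (by positivity)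
    _ = C * (X : ℝ) ^ (1 + ε) / F := (div_eq_mul_inv _ _).symm

end Pool.Agent.SML
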