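import Pool.Agent.SML.DefsN
import Pool.Agent.SML.Ncc
import Pool.Agent.SML.Ncd
import Pool.Agent.FTA.DivB
import Pool.Agent.FTA.Fam

/-!
# SML/Nce (N10)

`X = ⌊T^(4+6γ)⌋`, `F = ⌊T^(7γ)⌋`.  `FTA.divisor_bound` with exponent `γ/10^4`: `d(f) ≤ c f^(γ/10^4)`; `t = ⌈c X^(γ/10^4)⌉`, `t^6 ≤ T^(γ/100)` for `T` large
(`X ≤ T^5`).  `ncd` with `ε = γ/1000`: the large part is `≤ T^(γ/100) C X^(1+ε)/F ≤ 2 C T^(γ/100) T^(4+6γ) T^(5γ/1000) / T^(7γ) ≤ T^(4 - γ/2)`, which is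
`≤ T^(4-γ/1000)/2` for `T` large.  So by `ncc` `T^(4-γ/1000)/2 ≤ T^(γ/100) T^(7γ) ∑ nI`, and `∑ nI ≥ T^(4 - γ/1000 - γ/100 - 7γ)/2 ≥ T^(4-8γ)`.
-/

set_option autoImplicit false

namespace Pool.Agent.SML

open NumberField Pool.Agent.FTA Pool.Agent.FTB Pool.Agent.SMI nonZeroDivisors

/-- `N10` -/
theorem nce (γ : ℝ) (hγ : 0 < γ) (hγ2 : γ < 1 / 100)
    (hU : ∀ ε : ℝ, 0 < ε → ∃ C : ℝ, 0 < C ∧ ∀ X : ℝ, 1 ≤ X →
      ∑ᶠ K ∈ IQ ⌊X⌋₊, ((Nat.card {c : ClassGroup (𝓞 K) // c ^ 3 = 1} : ℝ)) ^ 2 ≤ C * X ^ (1 + ε))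
    (hV : ∃ T0 : ℕ, ∀ T : ℕ, T0 ≤ T → ∃ V : Finset (ℕ × ℕ × ℕ × ℕ),
      (T : ℝ) ^ (4 - γ / 1000) ≤ V.card ∧
      ∀ v ∈ V, ∃ (K : IntermediateField ℚ ℂ) (f : ℕ), HV T γ K f v) :
    ∃ T0 : ℕ, ∀ T : ℕ, T0 ≤ T →
      (T : ℝ) ^ (4 - 8 * γ) ≤ ∑ᶠ K ∈ IQ ⌊(T : ℝ) ^ (4 + 6 * γ)⌋₊, (nI K : ℝ) := by
  obtain ⟨T0, hV⟩ := hV
  obtain ⟨a, ha⟩ : ∃ a : ℝ, a = γ / 10 ^ 4 := ⟨_, rfl⟩
  have ha0 : 0 < a := by rw [ha]; positivity
  obtain ⟨c, hc, hdiv⟩ := divisor_bound ha0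
  obtain ⟨ε, hε⟩ : ∃ ε : ℝ, ε = γ / 1000 := ⟨_, rfl⟩
  have hε0 : 0 < ε := by rw [hε]; positivity
  obtain ⟨C, hC, hcd⟩ := ncd hU ε hε0
  obtain ⟨D, hD⟩ : ∃ D : ℝ, D = (c + 1) ^ 6 := ⟨_, rfl⟩
  have hD0 : 0 < D := by rw [hD]; positivity
  set B : ℝ := 4 * C * D + 2 * D + 2 with hB
  have hev : ∀ᶠ T : ℕ in Filter.atTop, B ≤ (T : ℝ) ^ (γ / 2) :=
    ((tendsto_rpow_atTop (by positivity : 0 < γ / 2)).comp
      tendsto_natCast_atTop_atTop).eventually_ge_atTop B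
  obtain ⟨T1, hT1⟩ := Filter.eventually_atTop.mp hev
  refine ⟨max (max T0 T1) 1, fun T hT => ?_⟩
  have hTT0 : T0 ≤ T := le_trans (le_trans (le_max_left _ _) (le_max_left _ _)) hT
  have hTT1 : T1 ≤ T := le_trans (le_trans (le_max_right _ _) (le_max_left _ _)) hT
  have hT1' : 1 ≤ T := le_trans (le_max_right _ _) hT
  have hBT := hT1 T hTT1
  obtain ⟨V, hVc, hVv⟩ := hV T hTT0
  obtain ⟨τ, hτ⟩ : ∃ τ : ℝ, τ = (T : ℝ) := ⟨_, rfl⟩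
  have hτ1 : 1 ≤ τ := by rw [hτ]; exact_mod_cast hT1'
  have hτ0 : 0 < τ := by linarith
  set X : ℕ := ⌊(T : ℝ) ^ (4 + 6 * γ)⌋₊ with hX
  set F : ℕ := ⌊(T : ℝ) ^ (7 * γ)⌋₊ with hF
  rw [← hτ] at hX hF hBT hVc
  have hXle : (X : ℝ) ≤ τ ^ (4 + 6 * γ) := by rw [hX]; exact Nat.floor_le (by positivity)
  have hFle : (F : ℝ) ≤ τ ^ (7 * γ) := by rw [hF]; exact Nat.floor_le (by positivity)
  have hg2 : 2 ≤ τ ^ (γ / 2) := by
    have : 0 < 4 * C * D + 2 * D := by positivity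
    linarith
  have hbig : 2 ≤ τ ^ (7 * γ) := by
    refine hg2.trans ?_
    exact Real.rpow_le_rpow_of_exponent_le hτ1 (by linarith)
  have hFge : τ ^ (7 * γ) / 2 ≤ (F : ℝ) := by
    have := Nat.lt_floor_add_one (τ ^ (7 * γ))
    rw [← hF] at this
    linarith
  have hF1 : 1 ≤ F := by
    have : (1 : ℝ) ≤ (F : ℝ) := by linarith
    exact_mod_cast this
  -- the divisor bound
  have h5a : 1 ≤ τ ^ (5 * a) := Real.one_le_rpow hτ1 (by positivity)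
  set t : ℕ := ⌈c * τ ^ (5 * a)⌉₊ with ht
  have htle : (t : ℝ) ≤ (c + 1) * τ ^ (5 * a) := by
    have := Nat.ceil_lt_add_one (by positivity : 0 ≤ c * τ ^ (5 * a))
    rw [← ht] at this
    linarith
  have ht6 : (t : ℝ) ^ 6 ≤ D * τ ^ (30 * a) := by
    refine (pow_le_pow_left₀ (Nat.cast_nonneg _) htle 6).trans (le_of_eq ?_)
    rw [mul_pow, ← Real.rpow_natCast (τ ^ (5 * a)) 6, ← Real.rpow_mul hτ0.le, hD]
    congr 2
    push_cast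
    ring
  have htd : ∀ f : ℕ, 1 ≤ f → f ≤ X → f.divisors.card ≤ t := by
    intro f hf1 hfX
    have h1 := hdiv f (by omega)
    have hf0 : (0 : ℝ) < (f : ℝ) := by exact_mod_cast hf1
    have h2 : (f : ℝ) ^ a ≤ τ ^ (5 * a) := by
      calc (f : ℝ) ^ a ≤ (τ ^ (4 + 6 * γ)) ^ a := by
            apply Real.rpow_le_rpow hf0.le _ ha0.le
            exact le_trans (by exact_mod_cast hfX) hXle
        _ = τ ^ ((4 + 6 * γ) * a) := by rw [← Real.rpow_mul hτ0.le]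
        _ ≤ τ ^ (5 * a) := by
            apply Real.rpow_le_rpow_of_exponent_le hτ1
            apply mul_le_mul_of_nonneg_right _ ha0.le
            linarith
    have h3 : (f.divisors.card : ℝ) ≤ (t : ℝ) :=
      h1.trans ((mul_le_mul_of_nonneg_left h2 hc.le).trans (Nat.le_ceil _))
    exact_mod_cast h3
  have hcc := ncc T γ hγ hT1' X F t (by rw [← hτ]; exact hX) (by rw [← hτ]; exact hF) htd V hVv
  -- the large conductors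
  set S2 : ℝ := ∑ f ∈ Finset.Ioc F X, ∑ᶠ K ∈ IQ (X / f ^ 2), (nT K : ℝ) ^ 2 with hS2
  set S : ℝ := ∑ᶠ K ∈ IQ X, (nI K : ℝ) with hS
  have hS0 : 0 ≤ S := by
    rw [hS]
    exact finsum_nonneg fun K => finsum_nonneg fun _ => Nat.cast_nonneg _
  have hS2le : S2 ≤ C * τ ^ (4 + 6 * γ + 5 * ε) / (τ ^ (7 * γ) / 2) := by
    refine (hcd X F hF1).trans ?_
    have h1 : (X : ℝ) ^ (1 + ε) ≤ τ ^ (4 + 6 * γ + 5 * ε) := by
      calc (X : ℝ) ^ (1 + ε) ≤ (τ ^ (4 + 6 * γ)) ^ (1 + ε) := by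
            apply Real.rpow_le_rpow (Nat.cast_nonneg _) hXle (by positivity)
        _ = τ ^ ((4 + 6 * γ) * (1 + ε)) := by rw [← Real.rpow_mul hτ0.le]
        _ ≤ τ ^ (4 + 6 * γ + 5 * ε) := by
            apply Real.rpow_le_rpow_of_exponent_le hτ1
            nlinarith
    have hFpos : (0 : ℝ) < (F : ℝ) := by exact_mod_cast hF1
    gcongr
  have hS2t : (t : ℝ) ^ 6 * S2 ≤ 2 * (C * D) * τ ^ (4 - 992 / 1000 * γ) := by
    have hp : 0 ≤ C * τ ^ (4 + 6 * γ + 5 * ε) / (τ ^ (7 * γ) / 2) := by positivity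
    calc (t : ℝ) ^ 6 * S2 ≤ (t : ℝ) ^ 6 * (C * τ ^ (4 + 6 * γ + 5 * ε) / (τ ^ (7 * γ) / 2)) :=
          mul_le_mul_of_nonneg_left hS2le (by positivity)
      _ ≤ D * τ ^ (30 * a) * (C * τ ^ (4 + 6 * γ + 5 * ε) / (τ ^ (7 * γ) / 2)) :=
          mul_le_mul_of_nonneg_right ht6 hp
      _ = 2 * (C * D) * (τ ^ (30 * a) * τ ^ (4 + 6 * γ + 5 * ε) / τ ^ (7 * γ)) := by
          field_simp
      _ = 2 * (C * D) * τ ^ (4 - 992 / 1000 * γ) := by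
          rw [← Real.rpow_add hτ0, ← Real.rpow_sub hτ0]
          congr 2
          rw [ha, hε]
          ring
  have he1 : τ ^ (4 - γ / 1000) = τ ^ (4 - 992 / 1000 * γ) * τ ^ (991 / 1000 * γ) := by
    rw [← Real.rpow_add hτ0]
    congr 1
    ring
  have hq1 : 4 * C * D ≤ τ ^ (991 / 1000 * γ) := by
    have h1 : τ ^ (γ / 2) ≤ τ ^ (991 / 1000 * γ) :=
      Real.rpow_le_rpow_of_exponent_le hτ1 (by linarith)
    linarith
  have hhalf : (t : ℝ) ^ 6 * S2 ≤ τ ^ (4 - γ / 1000) / 2 := by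
    refine hS2t.trans ?_
    rw [he1]
    have h0 : 0 < τ ^ (4 - 992 / 1000 * γ) := by positivity
    have := mul_le_mul_of_nonneg_left hq1 h0.le
    linarith
  have hmain : τ ^ (4 - γ / 1000) / 2 ≤ D * τ ^ (30 * a) * (τ ^ (7 * γ) * S) := by
    have h1 : (t : ℝ) ^ 6 * (F * S) ≤ D * τ ^ (30 * a) * (τ ^ (7 * γ) * S) := by
      apply mul_le_mul ht6 (mul_le_mul_of_nonneg_right hFle hS0) (by positivity) (by positivity)
    have h2 := hVc.trans hcc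
    linarith
  have he2 : τ ^ (4 - γ / 1000) =
      τ ^ (4 - 8 * γ) * τ ^ (996 / 1000 * γ) * (τ ^ (30 * a) * τ ^ (7 * γ)) := by
    rw [← Real.rpow_add hτ0, ← Real.rpow_add hτ0, ← Real.rpow_add hτ0]
    congr 1
    rw [ha]
    ring
  have hq2 : 2 * D ≤ τ ^ (996 / 1000 * γ) := by
    have h1 : τ ^ (γ / 2) ≤ τ ^ (996 / 1000 * γ) :=
      Real.rpow_le_rpow_of_exponent_le hτ1 (by linarith)
    have : 0 < 4 * C * D := by positivity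
    linarith
  have hW : 0 < τ ^ (30 * a) * τ ^ (7 * γ) := by positivity
  have hfin : τ ^ (4 - 8 * γ) * τ ^ (996 / 1000 * γ) ≤ 2 * D * S := by
    rw [he2] at hmain
    have h1 : (τ ^ (4 - 8 * γ) * τ ^ (996 / 1000 * γ)) * (τ ^ (30 * a) * τ ^ (7 * γ)) ≤
        (2 * D * S) * (τ ^ (30 * a) * τ ^ (7 * γ)) := by linarith
    exact le_of_mul_le_mul_right h1 hW
  have hE : 0 < τ ^ (4 - 8 * γ) := by positivity
  have h3 := mul_le_mul_of_nonneg_left hq2 hE.le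
  have h4 : (2 * D) * τ ^ (4 - 8 * γ) ≤ (2 * D) * S := by linarith
  rw [← hτ]
  exact le_of_mul_le_mul_left h4 (by positivity)

end Pool.Agent.SML
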