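import Mathlib

/-!
# SML/Nsp (N11)

Mathlib: `CommGroup.monoidHom_mulEquiv_of_hasEnoughRootsOfUnity P ℂ : Nonempty ((P →* ℂˣ) ≃* P)` (instance
`HasEnoughRootsOfUnity ℂ (Monoid.exponent P)`).  So `#{χ : P →* ℂˣ | χ^3 = 1} = #{c : P | c^3 = 1}`.
A character with `χ^3 = 1` has values in the group `rootsOfUnity 3 ℂ` (cyclic of order 3), which is isomorphic to `Multiplicative (ZMod 3)`
(both cyclic of order 3: `mulEquivOfCyclicCardEq`, `Complex.card_rootsOfUnity`); so `{χ // χ^3 = 1} ≃ (P →* rootsOfUnity 3 ℂ) ≃ (P →* Multiplicative (ZMod 3))`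
(`MonoidHom.codRestrict`, composition with the inclusion).  See Pool/Agent/FTA/Sur.lean for a similar argument.
-/

set_option autoImplicit false

namespace Pool.Agent.SML

/-- duality: the number of homomorphisms onto the group of order 3 -/
theorem nsp (P : Type*) [CommGroup P] [Finite P] :
    Nat.card (P →* Multiplicative (ZMod 3)) = Nat.card {c : P // c ^ 3 = 1} := by
  have : Fact (Nat.Prime 3) := ⟨Nat.prime_three⟩
  have hH : Nat.card (Multiplicative (ZMod 3)) = 3 := by
    rw [Nat.card_eq_fintype_card]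
    rfl
  have hc : Nat.card (rootsOfUnity 3 ℂ) = 3 := Complex.card_rootsOfUnity 3
  let e : Multiplicative (ZMod 3) ≃* rootsOfUnity 3 ℂ := mulEquivOfPrimeCardEq hH hc
  let ι : Multiplicative (ZMod 3) →* ℂˣ := (rootsOfUnity 3 ℂ).subtype.comp e.toMonoidHom
  have hι : Function.Injective ι := by
    intro a b hab
    exact e.injective (Subtype.ext hab)
  obtain ⟨E⟩ := CommGroup.monoidHom_mulEquiv_of_hasEnoughRootsOfUnity P ℂ
  have h3 : ∀ f : P →* Multiplicative (ZMod 3), (E (ι.comp f)) ^ 3 = 1 := by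
    intro f
    rw [← map_pow]
    have : (ι.comp f) ^ 3 = 1 := by
      ext x
      have h1 : (f x) ^ 3 = 1 := by
        have := pow_card_eq_one' (x := f x)
        rwa [hH] at this
      have h2 : (ι (f x)) ^ 3 = 1 := by rw [← map_pow, h1, map_one]
      rw [MonoidHom.pow_apply, MonoidHom.comp_apply, h2]
      rfl
    rw [this, map_one]
  refine Nat.card_congr (Equiv.ofBijective
    (fun f : P →* Multiplicative (ZMod 3) => (⟨E (ι.comp f), h3 f⟩ : {c : P // c ^ 3 = 1})) ⟨?_, ?_⟩)
  · intro f g hfg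
    have h1 : ι.comp f = ι.comp g := E.injective (congrArg Subtype.val hfg)
    ext x
    exact hι (DFunLike.congr_fun h1 x)
  · rintro ⟨c, hc3⟩
    have hχ : ∀ x, E.symm c x ∈ rootsOfUnity 3 ℂ := by
      intro x
      rw [mem_rootsOfUnity]
      have h1 : (E.symm c) ^ 3 = 1 := by rw [← map_pow, hc3, map_one]
      have h2 := DFunLike.congr_fun h1 x
      rw [MonoidHom.pow_apply] at h2
      exact h2
    refine ⟨e.symm.toMonoidHom.comp ((E.symm c).codRestrict (rootsOfUnity 3 ℂ) hχ), ?_⟩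
    apply Subtype.ext
    show E (ι.comp (e.symm.toMonoidHom.comp ((E.symm c).codRestrict (rootsOfUnity 3 ℂ) hχ))) = c
    have h4 : ι.comp (e.symm.toMonoidHom.comp ((E.symm c).codRestrict (rootsOfUnity 3 ℂ) hχ)) =
        E.symm c := by
      refine MonoidHom.ext fun x => ?_
      show ((e (e.symm ((E.symm c).codRestrict (rootsOfUnity 3 ℂ) hχ x)) : rootsOfUnity 3 ℂ) : ℂˣ) =
        E.symm c x
      rw [MulEquiv.apply_symm_apply]
      rfl
    rw [h4, MulEquiv.apply_symm_apply]

end Pool.Agent.SML
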