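import Pool.Agent.SMI.Defs

/-!
# SML/Nsq (N11)

`nsq`: `f ≠ 1`, so `f` is onto the group of order 3 (its range is a nontrivial subgroup of a group of prime order; `x0` with `f x0 = ζ`, `ζ` a
generator, all elements are `1, ζ, ζ^2`).  If `g` is not trivial on `ker f`: `g (ker f)` is everything: for `(u, v)` take `x` with `f x = u`, `k ∈ ker f` with
`g k = v / g x`, and `x k`.  If `g` is trivial on `ker f`: `f x = ζ^j`: `x x0^(-j) ∈ ker f`, `g x = g(x0)^j`; `g x0 = ζ^a`, `a ∈ {0,1,2}`: `g x = (f x)^a`, so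
`g = 1`, `g = f` or `g = f^2 = f⁻¹`, all excluded by `Ind f g`.
`nsr`: `a ≠ 1` in `H`; the subgroup `{1, a, a^2}` has 3 elements, take `b` outside.  The homomorphism `(i, j) ↦ a^i b^j` from
`Multiplicative (ZMod 3) × Multiplicative (ZMod 3)` (`zmultiplesHom`/`ZMod.lift` or `MonoidHom.coprod`) is injective (`a^i b^j = 1` with `j ≠ 0` gives `b ∈ <a>`), and
both groups have 9 elements: bijective (`MulEquiv.ofBijective`).
-/

set_option autoImplicit false

namespace Pool.Agent.SML

open Pool.Agent.SMI

private theorem nsq_pow : ∀ a : Multiplicative (ZMod 3), a ≠ 1 → ∀ u, ∃ i : Fin 3,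
    a ^ (i : ℕ) = u := by
  decide

/-- independent homomorphisms give a surjection -/
theorem nsq (P : Type*) [CommGroup P] (f g : P →* Multiplicative (ZMod 3)) (h : Ind f g) :
    Function.Surjective (f.prod g) := by
  obtain ⟨hf3, hg3, hf, hg, hfg, hfg1⟩ := h
  have hx0 : ∃ x0, f x0 ≠ 1 := by
    by_contra hc
    push Not at hc
    exact hf (MonoidHom.ext hc)
  obtain ⟨x0, hx0⟩ := hx0
  by_cases hk : ∃ k, f k = 1 ∧ g k ≠ 1
  · obtain ⟨k, hk1, hk2⟩ := hk
    rintro ⟨u, v⟩
    obtain ⟨i, hi⟩ := nsq_pow (f x0) hx0 u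
    obtain ⟨j, hj⟩ := nsq_pow (g k) hk2 (v / g (x0 ^ (i : ℕ)))
    refine ⟨x0 ^ (i : ℕ) * k ^ (j : ℕ), ?_⟩
    rw [MonoidHom.prod_apply]
    refine Prod.ext ?_ ?_
    · simp only [map_mul, map_pow, hk1, one_pow, mul_one, hi]
    · show g (x0 ^ (i : ℕ) * k ^ (j : ℕ)) = v
      rw [map_mul, map_pow g k, hj, mul_div_cancel]
  · exfalso
    push Not at hk
    obtain ⟨j, hj⟩ := nsq_pow (f x0) hx0 (g x0)
    have hall : ∀ x, g x = (f x) ^ (j : ℕ) := by
      intro x
      obtain ⟨i, hi⟩ := nsq_pow (f x0) hx0 (f x)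
      have h1 : f (x / x0 ^ (i : ℕ)) = 1 := by
        rw [map_div, map_pow, hi, div_self']
      have h2 := hk _ h1
      rw [map_div, map_pow, div_eq_one] at h2
      rw [h2, ← hj, ← hi, ← pow_mul, ← pow_mul, mul_comm]
    have h4 : g = f ^ (j : ℕ) := by
      ext x
      rw [hall x, MonoidHom.pow_apply]
    obtain ⟨j, hj3⟩ := j
    interval_cases j
    · exact hg (by simpa using h4)
    · exact hfg (by simpa using h4.symm)
    · apply hfg1
      simp only at h4
      rw [h4, ← pow_succ', hf3]

private theorem pow_mod_eq_of_pow_three {H : Type*} [CommGroup H] {a : H} (ha : a ^ 3 = 1)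
    (n : ℕ) : a ^ (n % 3) = a ^ n := by
  conv_rhs => rw [← Nat.mod_add_div n 3]
  rw [pow_add, pow_mul, ha, one_pow, mul_one]

private def nsr_hom {H : Type*} [CommGroup H] (a : H) (ha : a ^ 3 = 1) :
    Multiplicative (ZMod 3) →* H where
  toFun z := a ^ (Multiplicative.toAdd z).val
  map_one' := by simp
  map_mul' x y := by
    rw [← pow_add, toAdd_mul, ZMod.val_add, pow_mod_eq_of_pow_three ha]

/-- the elementary abelian group of order 9 -/
theorem nsr (H : Type*) [CommGroup H] (h9 : Nat.card H = 9) (h3 : ∀ x : H, x ^ 3 = 1) :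
    Nonempty ((Multiplicative (ZMod 3) × Multiplicative (ZMod 3)) ≃* H) := by
  classical
  haveI : Finite H := Nat.finite_of_card_ne_zero (by rw [h9]; norm_num)
  haveI : Nontrivial H := Finite.one_lt_card_iff_nontrivial.1 (by rw [h9]; norm_num)
  obtain ⟨a, ha⟩ := exists_ne (1 : H)
  have hb : ∃ b : H, b ≠ 1 ∧ b ≠ a ∧ b ≠ a ^ 2 := by
    by_contra hc
    push Not at hc
    haveI : Fintype H := Fintype.ofFinite H
    have h1 : (Finset.univ : Finset H) ⊆ {1, a, a ^ 2} := by
      intro b _
      simp only [Finset.mem_insert, Finset.mem_singleton]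
      by_cases h1 : b = 1
      · exact Or.inl h1
      · by_cases h2 : b = a
        · exact Or.inr (Or.inl h2)
        · exact Or.inr (Or.inr (hc b h1 h2))
    have h2 := (Finset.card_le_card h1).trans Finset.card_le_three
    rw [Finset.card_univ, ← Nat.card_eq_fintype_card, h9] at h2
    omega
  obtain ⟨b, hb1, hb2, hb3⟩ := hb
  let φ : (Multiplicative (ZMod 3) × Multiplicative (ZMod 3)) →* H :=
    (nsr_hom a (h3 a)).coprod (nsr_hom b (h3 b))
  have hinj : Function.Injective φ := by
    rw [injective_iff_map_eq_one]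
    rintro ⟨i, j⟩ hij
    have h0 : a ^ (Multiplicative.toAdd i).val * b ^ (Multiplicative.toAdd j).val = 1 := hij
    have hi3 := (Multiplicative.toAdd i).val_lt
    have hj3 := (Multiplicative.toAdd j).val_lt
    have h3a := h3 a
    have h3b := h3 b
    have key : (Multiplicative.toAdd i).val = 0 ∧ (Multiplicative.toAdd j).val = 0 := by
      generalize (Multiplicative.toAdd i).val = s at h0 hi3
      generalize (Multiplicative.toAdd j).val = t at h0 hj3
      interval_cases s <;> interval_cases t
      · exact ⟨rfl, rfl⟩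
      · exact absurd (by simpa using h0) hb1
      · exfalso
        apply hb1
        have h5 : b ^ 2 = 1 := by simpa using h0
        calc b = b ^ 3 * (b ^ 2)⁻¹ := by group
          _ = 1 := by rw [h3b, h5]; simp
      · exact absurd (by simpa using h0) ha
      · exfalso
        apply hb3
        have h5 : a * b = 1 := by simpa using h0
        calc b = a⁻¹ * (a * b) := by group
          _ = a⁻¹ * a ^ 3 := by rw [h5, h3a]
          _ = a ^ 2 := by group
      · exfalso
        apply hb2
        have h5 : a * b ^ 2 = 1 := by simpa using h0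
        calc b = b ^ 3 * (b ^ 2)⁻¹ := by group
          _ = (a * b ^ 2) * (b ^ 2)⁻¹ := by rw [h3b, h5]
          _ = a := by group
      · exfalso
        apply ha
        have h5 : a ^ 2 = 1 := by simpa using h0
        calc a = a ^ 3 * (a ^ 2)⁻¹ := by group
          _ = 1 := by rw [h3a, h5]; simp
      · exfalso
        apply hb2
        have h5 : a ^ 2 * b = 1 := by simpa using h0
        calc b = (a ^ 2)⁻¹ * (a ^ 2 * b) := by group
          _ = (a ^ 2)⁻¹ * a ^ 3 := by rw [h5, h3a]
          _ = a := by group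
      · exfalso
        apply hb3
        have h5 : a ^ 2 * b ^ 2 = 1 := by simpa using h0
        calc b = b ^ 3 * (b ^ 2)⁻¹ := by group
          _ = (a ^ 2 * b ^ 2) * (b ^ 2)⁻¹ := by rw [h3b, h5]
          _ = a ^ 2 := by group
    have hi : Multiplicative.toAdd i = 0 := (ZMod.val_eq_zero _).1 key.1
    have hj : Multiplicative.toAdd j = 0 := (ZMod.val_eq_zero _).1 key.2
    exact Prod.ext (by simpa using hi) (by simpa using hj)
  have hcard : Nat.card (Multiplicative (ZMod 3) × Multiplicative (ZMod 3)) = Nat.card H := by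
    rw [h9, Nat.card_prod]
    have : Nat.card (Multiplicative (ZMod 3)) = 3 := by
      rw [Nat.card_eq_fintype_card]
      rfl
    rw [this]
  have hbij : Function.Bijective φ := (Nat.bijective_iff_injective_and_card φ).2 ⟨hinj, hcard⟩
  exact ⟨MulEquiv.ofBijective φ hbij⟩

end Pool.Agent.SML
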