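import Pool.Agent.SML.Nso
import Pool.Agent.SML.Nsp
import Pool.Agent.SML.Nsq

/-!
# SML/Nsu (N11)

`P = Subgroup.closure {g | ∃ n, g^(3^n) = 1}` (finite).  `#P[3] = #G[3] =: t` (elements with `c^3 = 1` lie in `P`, `n = 1`).
`nso` for `G`: `#Ind(G) = (t-1)(t-3)`.  `Hom = (P →* Multiplicative (ZMod 3))` is a finite commutative group in which every element has cube 1, so its number of
elements with `c^3 = 1` is `#Hom = #P[3] = t` (`nsp`); `nso` for `Hom`: `#Ind(Hom) = (t-1)(t-3)`.  The map `(f, g) ↦ e ∘ (f.prod g)` (`e` from `nsr`) from the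
independent pairs of `Hom` to the surjections `P →* H` is injective (`nsq`): `Nat.card_le_card_of_injective` (the target is finite: finitely many
homomorphisms between finite groups).
-/

set_option autoImplicit false

namespace Pool.Agent.SML

open Pool.Agent.SMI

/-- `N11`: surjections of the 3-part onto the elementary abelian group of order 9 -/
theorem nsu (G : Type*) [CommGroup G] [Finite G] (H : Type*) [CommGroup H] (h9 : Nat.card H = 9)
    (h3 : ∀ x : H, x ^ 3 = 1) :
    Nat.card {q : G × G // Ind q.1 q.2} ≤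
      Nat.card {f : ↥(Subgroup.closure {g : G | ∃ n : ℕ, g ^ (3 ^ n) = 1}) →* H //
        Function.Surjective f} := by
  have fH : Finite (↥(Subgroup.closure {g : G | ∃ n : ℕ, g ^ (3 ^ n) = 1}) →*
      Multiplicative (ZMod 3)) :=
    Finite.of_injective (fun f => (f : ↥(Subgroup.closure {g : G | ∃ n : ℕ, g ^ (3 ^ n) = 1}) →
      Multiplicative (ZMod 3))) DFunLike.coe_injective
  have : Finite H := Nat.finite_of_card_ne_zero (by rw [h9]; norm_num)
  have fT : Finite (↥(Subgroup.closure {g : G | ∃ n : ℕ, g ^ (3 ^ n) = 1}) →* H) :=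
    Finite.of_injective (fun f => (f : ↥(Subgroup.closure {g : G | ∃ n : ℕ, g ^ (3 ^ n) = 1}) →
      H)) DFunLike.coe_injective
  have hc : Nat.card {c : ↥(Subgroup.closure {g : G | ∃ n : ℕ, g ^ (3 ^ n) = 1}) // c ^ 3 = 1}
      = Nat.card {c : G // c ^ 3 = 1} := by
    refine Nat.card_congr ⟨fun c => ⟨(c.1 : G), ?_⟩, fun c => ⟨⟨c.1, ?_⟩, ?_⟩, ?_, ?_⟩
    · have := congrArg (fun y : ↥(Subgroup.closure {g : G | ∃ n : ℕ, g ^ (3 ^ n) = 1}) =>
        (y : G)) c.2
      simpa using this
    · exact Subgroup.subset_closure ⟨1, by simpa using c.2⟩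
    · apply Subtype.ext
      simpa using c.2
    · intro c
      rfl
    · intro c
      rfl
  have h3' : ∀ z : Multiplicative (ZMod 3), z ^ 3 = 1 := by decide
  have hh : Nat.card {c : ↥(Subgroup.closure {g : G | ∃ n : ℕ, g ^ (3 ^ n) = 1}) →*
      Multiplicative (ZMod 3) // c ^ 3 = 1}
      = Nat.card (↥(Subgroup.closure {g : G | ∃ n : ℕ, g ^ (3 ^ n) = 1}) →*
        Multiplicative (ZMod 3)) := by
    refine Nat.card_congr (Equiv.subtypeUnivEquiv fun f => ?_)
    ext x
    exact congrArg Multiplicative.toAdd (h3' (f x))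
  have e1 := nso G
  have e2 := nso (↥(Subgroup.closure {g : G | ∃ n : ℕ, g ^ (3 ^ n) = 1}) →*
    Multiplicative (ZMod 3))
  rw [hh, nsp, hc, ← e1] at e2
  have e3 : Nat.card {q : G × G // Ind q.1 q.2}
      = Nat.card {q : (↥(Subgroup.closure {g : G | ∃ n : ℕ, g ^ (3 ^ n) = 1}) →*
        Multiplicative (ZMod 3)) × (↥(Subgroup.closure {g : G | ∃ n : ℕ, g ^ (3 ^ n) = 1}) →*
        Multiplicative (ZMod 3)) // Ind q.1 q.2} := by
    exact_mod_cast e2.symm
  rw [e3]
  obtain ⟨e⟩ := nsr H h9 h3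
  refine Nat.card_le_card_of_injective
    (fun q => (⟨e.toMonoidHom.comp (q.1.1.prod q.1.2), ?_⟩ :
      {f : ↥(Subgroup.closure {g : G | ∃ n : ℕ, g ^ (3 ^ n) = 1}) →* H //
        Function.Surjective f})) ?_
  · have := nsq _ q.1.1 q.1.2 q.2
    exact e.surjective.comp this
  · intro q q' h
    have h1 := congrArg Subtype.val h
    have h2 : ∀ x, (q.1.1 x, q.1.2 x) = (q'.1.1 x, q'.1.2 x) := by
      intro x
      have h4 := DFunLike.congr_fun h1 x
      exact e.injective h4
    apply Subtype.ext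
    apply Prod.ext
    · ext x
      exact congrArg (fun y => Multiplicative.toAdd y.1) (h2 x)
    · ext x
      exact congrArg (fun y => Multiplicative.toAdd y.2) (h2 x)

end Pool.Agent.SML
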