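import Pool.Agent.SML.DefsN
import Pool.Agent.SML.Nsu
import Pool.Agent.FTA.Fam

/-!
# SML/Nfn (N12)

`γ = min ε (1/20) / 8`.  `T = ⌊X^(1/(4+6γ))⌋₊`: `T^(4+6γ) ≤ X`, `T ≥ X^(1/(4+6γ))/2` for `X` large, so
`T^(4-8γ) ≥ X^((4-8γ)/(4+6γ))/16 ≥ X^(1-4γ) ≥ X^(1-ε)` for `X` large (`(4-8γ)/(4+6γ) ≥ 1 - 7γ/2`, `X^(γ/2) ≥ 16`).
`IQ ⌊T^(4+6γ)⌋ ⊆ IQ ⌊X⌋` and the terms are `≥ 0`.  `nI K ≤ #Sur` for `K ∈ IQ` by `nsu` (`ClassGroup (𝓞 K)` is finite for a number field `K`).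
`finsum_mem_eq_finite_toFinset_sum _ (famFin _)`.
-/

set_option autoImplicit false

namespace Pool.Agent.SML

open NumberField Pool.Agent.FTA Pool.Agent.FTB Pool.Agent.SMI nonZeroDivisors

private theorem nfn_real (γ : ℝ) (hγ : 0 < γ) (hγ1 : γ < 1 / 100) (X : ℝ) (hX : 16 ^ (2 / γ) ≤ X)
    (hX2 : 2 ≤ X ^ (1 / (4 + 6 * γ))) :
    X ^ (1 - 4 * γ) ≤ ((⌊X ^ (1 / (4 + 6 * γ))⌋₊ : ℕ) : ℝ) ^ (4 - 8 * γ) ∧
      ((⌊X ^ (1 / (4 + 6 * γ))⌋₊ : ℕ) : ℝ) ^ (4 + 6 * γ) ≤ X := by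
  have hX1 : (1 : ℝ) ≤ X := by
    refine le_trans ?_ hX
    exact Real.one_le_rpow (by norm_num) (by positivity)
  have hX0 : (0 : ℝ) < X := by linarith
  set Y : ℝ := X ^ (1 / (4 + 6 * γ)) with hY
  have hY0 : 0 < Y := by linarith
  have hfl : (⌊Y⌋₊ : ℝ) ≤ Y := Nat.floor_le hY0.le
  have hfg : Y / 2 ≤ (⌊Y⌋₊ : ℝ) := by
    have := Nat.lt_floor_add_one Y
    linarith
  constructor
  · have h1 : (Y / 2) ^ (4 - 8 * γ) ≤ (⌊Y⌋₊ : ℝ) ^ (4 - 8 * γ) :=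
      Real.rpow_le_rpow (by positivity) hfg (by linarith)
    refine le_trans ?_ h1
    rw [Real.div_rpow hY0.le (by norm_num), hY, ← Real.rpow_mul hX0.le]
    have h2 : (2 : ℝ) ^ (4 - 8 * γ) ≤ 16 := by
      calc (2 : ℝ) ^ (4 - 8 * γ) ≤ (2 : ℝ) ^ (4 : ℝ) :=
            Real.rpow_le_rpow_of_exponent_le (by norm_num) (by linarith)
        _ = 16 := by norm_num
    have h3 : (1 - 7 / 2 * γ) ≤ 1 / (4 + 6 * γ) * (4 - 8 * γ) := by
      rw [one_div, inv_mul_eq_div, le_div_iff₀ (by linarith)]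
      nlinarith
    have h4 : (16 : ℝ) ≤ X ^ (γ / 2) := by
      calc (16 : ℝ) = ((16 : ℝ) ^ (2 / γ)) ^ (γ / 2) := by
            rw [← Real.rpow_mul (by norm_num)]
            have : 2 / γ * (γ / 2) = 1 := by field_simp
            rw [this, Real.rpow_one]
        _ ≤ X ^ (γ / 2) := Real.rpow_le_rpow (by positivity) hX (by positivity)
    rw [le_div_iff₀ (by positivity)]
    calc X ^ (1 - 4 * γ) * (2 : ℝ) ^ (4 - 8 * γ) ≤ X ^ (1 - 4 * γ) * X ^ (γ / 2) := by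
          refine mul_le_mul_of_nonneg_left (h2.trans h4) (by positivity)
      _ = X ^ (1 - 7 / 2 * γ) := by
          rw [← Real.rpow_add hX0]
          congr 1
          ring
      _ ≤ X ^ (1 / (4 + 6 * γ) * (4 - 8 * γ)) := Real.rpow_le_rpow_of_exponent_le hX1 h3
  · calc (⌊Y⌋₊ : ℝ) ^ (4 + 6 * γ) ≤ Y ^ (4 + 6 * γ) :=
          Real.rpow_le_rpow (by positivity) hfl (by linarith)
      _ = X := by
          rw [hY, ← Real.rpow_mul hX0.le]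
          have : 1 / (4 + 6 * γ) * (4 + 6 * γ) = 1 := by
            field_simp
          rw [this, Real.rpow_one]

/-- `N12`: the final form of the lower bound, from `nce` -/
theorem nfn (hL : ∀ γ : ℝ, 0 < γ → γ < 1 / 100 → ∃ T0 : ℕ, ∀ T : ℕ, T0 ≤ T →
      (T : ℝ) ^ (4 - 8 * γ) ≤ ∑ᶠ K ∈ IQ ⌊(T : ℝ) ^ (4 + 6 * γ)⌋₊, (nI K : ℝ))
    (ε : ℝ) (hε : 0 < ε) : ∃ X0 : ℝ, ∀ X : ℝ, X0 ≤ X →
      ∀ (H : Type) [CommGroup H], Nat.card H = 9 → (∀ x : H, x ^ 3 = 1) →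
      X ^ (1 - ε) ≤ ∑ᶠ K ∈ IQ ⌊X⌋₊, (Nat.card {f : ↥(Subgroup.closure
        {g : ClassGroup (𝓞 K) | ∃ n : ℕ, g ^ (3 ^ n) = 1}) →* H // Function.Surjective f} : ℝ) := by
  have hγ0 : 0 < min ε (1 / 20) / 8 := by
    have : 0 < min ε (1 / 20) := lt_min hε (by norm_num)
    positivity
  have hγ1 : min ε (1 / 20) / 8 < 1 / 100 := by
    have := min_le_right ε (1 / 20)
    linarith
  have hγε : 4 * (min ε (1 / 20) / 8) ≤ ε := by
    have := min_le_left ε (1 / 20)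
    linarith
  generalize min ε (1 / 20) / 8 = γ at hγ0 hγ1 hγε
  obtain ⟨T0, hT0⟩ := hL γ hγ0 hγ1
  refine ⟨max (16 ^ (2 / γ)) (((T0 : ℝ) + 2) ^ (4 + 6 * γ)), ?_⟩
  intro X hX H _ h9 h3
  have hXa : (16 : ℝ) ^ (2 / γ) ≤ X := (le_max_left _ _).trans hX
  have hXb : ((T0 : ℝ) + 2) ^ (4 + 6 * γ) ≤ X := (le_max_right _ _).trans hX
  have hX1 : (1 : ℝ) ≤ X := by
    refine le_trans ?_ hXa
    exact Real.one_le_rpow (by norm_num) (by positivity)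
  have hX0 : (0 : ℝ) < X := by linarith
  have hY : (T0 : ℝ) + 2 ≤ X ^ (1 / (4 + 6 * γ)) := by
    calc (T0 : ℝ) + 2 = (((T0 : ℝ) + 2) ^ (4 + 6 * γ)) ^ (1 / (4 + 6 * γ)) := by
          rw [← Real.rpow_mul (by positivity)]
          have : (4 + 6 * γ) * (1 / (4 + 6 * γ)) = 1 := by
            field_simp
          rw [this, Real.rpow_one]
      _ ≤ X ^ (1 / (4 + 6 * γ)) := Real.rpow_le_rpow (by positivity) hXb (by positivity)
  have hY2 : (2 : ℝ) ≤ X ^ (1 / (4 + 6 * γ)) := by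
    have : (0 : ℝ) ≤ T0 := by positivity
    linarith
  obtain ⟨hA, hB⟩ := nfn_real γ hγ0 hγ1 X hXa hY2
  set T : ℕ := ⌊X ^ (1 / (4 + 6 * γ))⌋₊ with hT
  have hTT : T0 ≤ T := by
    rw [hT]
    apply Nat.le_floor
    linarith
  have h1 := hT0 T hTT
  have h2 : X ^ (1 - ε) ≤ X ^ (1 - 4 * γ) :=
    Real.rpow_le_rpow_of_exponent_le hX1 (by linarith)
  refine (h2.trans (hA.trans h1)).trans ?_
  rw [finsum_mem_eq_finite_toFinset_sum _ (famFin _), finsum_mem_eq_finite_toFinset_sum _ (famFin _)]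
  have hsub : (famFin ⌊(T : ℝ) ^ (4 + 6 * γ)⌋₊).toFinset ⊆ (famFin ⌊X⌋₊).toFinset := by
    intro K hK
    rw [Set.Finite.mem_toFinset] at hK ⊢
    obtain ⟨hN, hr, him, hle⟩ := hK
    exact ⟨hN, hr, him, hle.trans (Nat.floor_le_floor hB)⟩
  refine (Finset.sum_le_sum_of_subset_of_nonneg hsub ?_).trans ?_
  · intro K _ _
    positivity
  · refine Finset.sum_le_sum ?_
    intro K hK
    rw [Set.Finite.mem_toFinset] at hK
    obtain ⟨hN, _⟩ := hK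
    have h4 := nsu (ClassGroup (𝓞 K)) H h9 h3
    exact_mod_cast h4

end Pool.Agent.SML
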