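import Pool.Agent.SML.DefsN
import Pool.Agent.FTL.LEl

/-!
# SML/Nel (N1)

`FTL.elt` with `t = xp`, `y = f p`, `n = N1 N2 N3` (`h.np`, `D = f^2 aD K`), etc. (`n = N_i^3`).
`π^3 = α1 α2 α3`: it suffices to have it in `ℂ` (`RingOfIntegers.ext`, `Subtype.ext`), times 8: with `s = √(aD K) I`,
`s^2 = - aD K` (see `Cor_ss` in FTB/Cor): `(xp + f p s)^3 = (x1 + f y1 s)(x2 + f y2 s)(x3 + f y3 s)`: expand; the `1`-part is `h.re`, the
`s`-part is `f * h.im` (`linear_combination`, casts of the integer identities to `ℂ`, `(D : ℂ) = f^2 aD K`).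
-/

set_option autoImplicit false

namespace Pool.Agent.SML

open NumberField Pool.Agent.FTA Pool.Agent.FTB Pool.Agent.SMI nonZeroDivisors

/-- `N1`: the elements -/
theorem nel (K : IntermediateField ℚ ℂ) [NumberField K] (h2 : Module.finrank ℚ K = 2)
    (him : ∃ x : K, (x : ℂ).im ≠ 0) (f : ℕ) (hf : 1 ≤ f)
    (p y1 y2 y3 N1 N2 N3 xp x1 x2 x3 : ℤ) (D : ℕ) (h : Dat p y1 y2 y3 N1 N2 N3 D xp x1 x2 x3)
    (hD : D = f ^ 2 * aD K) :
    ∃ π α1 α2 α3 : 𝓞 K, Co K π xp (f * p) ∧ Co K α1 x1 (f * y1) ∧ Co K α2 x2 (f * y2) ∧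
      Co K α3 x3 (f * y3) ∧ π ^ 3 = α1 * α2 * α3 := by
  have hDz : (D : ℤ) = (f : ℤ) ^ 2 * (aD K : ℤ) := by
    rw [hD]
    push_cast
    ring
  obtain ⟨π, hπ⟩ := Pool.Agent.FTL.elt K h2 him xp (f * p) (N1 * N2 * N3) (by
    have := h.np
    rw [hDz] at this
    linarith)
  obtain ⟨α1, hα1⟩ := Pool.Agent.FTL.elt K h2 him x1 (f * y1) (N1 ^ 3) (by
    have := h.n1
    rw [hDz] at this
    linarith)
  obtain ⟨α2, hα2⟩ := Pool.Agent.FTL.elt K h2 him x2 (f * y2) (N2 ^ 3) (by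
    have := h.n2
    rw [hDz] at this
    linarith)
  obtain ⟨α3, hα3⟩ := Pool.Agent.FTL.elt K h2 him x3 (f * y3) (N3 ^ 3) (by
    have := h.n3
    rw [hDz] at this
    linarith)
  refine ⟨π, α1, α2, α3, hπ, hα1, hα2, hα3, ?_⟩
  have hss : ((√(aD K : ℝ) : ℝ) : ℂ) * ((√(aD K : ℝ) : ℝ) : ℂ) = (aD K : ℂ) := by
    rw [← Complex.ofReal_mul, Real.mul_self_sqrt (Nat.cast_nonneg _)]
    simp
  have hs : (((√(aD K : ℝ) : ℝ) : ℂ) * Complex.I) ^ 2 = - (aD K : ℂ) := by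
    have hI := Complex.I_mul_I
    linear_combination Complex.I ^ 2 * hss + (aD K : ℂ) * hI
  have hre : ((xp : ℂ)) ^ 3 - 3 * xp * p ^ 2 * ((f : ℂ) ^ 2 * (aD K : ℂ)) =
      x1 * x2 * x3 - ((f : ℂ) ^ 2 * (aD K : ℂ)) * (x1 * y2 * y3 + x2 * y1 * y3 + x3 * y1 * y2) := by
    have := h.re
    rw [hDz] at this
    exact_mod_cast this
  have him' : 3 * (xp : ℂ) ^ 2 * p - p ^ 3 * ((f : ℂ) ^ 2 * (aD K : ℂ)) =
      x1 * x2 * y3 + x1 * x3 * y2 + x2 * x3 * y1 - ((f : ℂ) ^ 2 * (aD K : ℂ)) * (y1 * y2 * y3) := by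
    have := h.im
    rw [hDz] at this
    exact_mod_cast this
  have key : ((π : K) : ℂ) ^ 3 = ((α1 : K) : ℂ) * ((α2 : K) : ℂ) * ((α3 : K) : ℂ) := by
    unfold Co at hπ hα1 hα2 hα3
    push_cast at hπ hα1 hα2 hα3
    generalize (((√(aD K : ℝ) : ℝ) : ℂ)) = r at *
    have e : (2 * ((π : K) : ℂ)) ^ 3 = (2 * ((α1 : K) : ℂ)) * (2 * ((α2 : K) : ℂ)) * (2 * ((α3 : K) : ℂ)) := by
      rw [hπ, hα1, hα2, hα3]
      linear_combination hre + (f : ℂ) * (r * Complex.I) * him' +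
        (3 * (xp : ℂ) * f ^ 2 * p ^ 2 + f ^ 3 * p ^ 3 * (r * Complex.I) -
          f ^ 2 * (x1 * y2 * y3 + x2 * y1 * y3 + x3 * y1 * y2) -
          f ^ 3 * (y1 * y2 * y3) * (r * Complex.I)) * hs
    have e8 : (8 : ℂ) ≠ 0 := by norm_num
    apply mul_left_cancel₀ e8
    linear_combination e
  apply RingOfIntegers.ext
  apply Subtype.ext
  push_cast
  exact key

end Pool.Agent.SML
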