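import Pool.Agent.SML.DefsN
import Pool.Agent.FML.IdM

/-!
# SML/Nid (N1)

`FML.idM` with exponent `p := 3`, `N := N_i.toNat`, `t := x_i`, `g := f y_i`: `x_i^2 + (f y_i)^2 aD K = 4 N_i^3` (`h.n_i`),
`IsCoprime x_i N_i` (`h.c_i.symm`).  `Prim` of FML and `Pm` of SMI are the same condition.
`ip`: `(I1 I2 I3)^3 = span {α1 α2 α3} = span {π^3} = (span {π})^3`; in a Dedekind domain cubes of ideals are injective
(`pow_left_injective`-type lemma for ideals: see how `Pool.Agent.SMI` does it in SMI/Inj.lean `inj_ideal`).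
-/

set_option autoImplicit false

namespace Pool.Agent.SML

open NumberField Pool.Agent.FTA Pool.Agent.FTB Pool.Agent.SMI nonZeroDivisors

private theorem nid_cube (R : Type*) [CommRing R] [IsDedekindDomain R] (I J : Ideal R)
    (h : I ^ 3 = J ^ 3) : I = J := by
  have h1 : ∀ I J : Ideal R, I ^ 3 ≤ J ^ 3 → I ≤ J := by
    intro I J h
    rw [← Ideal.dvd_iff_le] at h ⊢
    exact (UniqueFactorizationMonoid.pow_dvd_pow_iff_dvd (by norm_num)).1 h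
  exact le_antisymm (h1 _ _ h.le) (h1 _ _ h.ge)

private theorem nid_one (K : IntermediateField ℚ ℂ) [NumberField K]
    (h2 : Module.finrank ℚ K = 2) (him : ∃ x : K, (x : ℂ).im ≠ 0) (f : ℕ) (D : ℕ)
    (hD : D = f ^ 2 * aD K) (y N x : ℤ) (α : 𝓞 K) (P : 2 ≤ N)
    (n : 4 * N ^ 3 = x ^ 2 + (D : ℤ) * y ^ 2) (c : IsCoprime N x) (a : Co K α x (f * y)) :
    ∃ I : (Ideal (𝓞 K))⁰, (I : Ideal (𝓞 K)) ^ 3 = Ideal.span {α} ∧
      ((Ideal.absNorm (I : Ideal (𝓞 K)) : ℕ) : ℤ) = N ∧ Pm K I := by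
  obtain ⟨M, hM⟩ : ∃ M : ℕ, (M : ℤ) = N := ⟨N.toNat, Int.toNat_of_nonneg (by omega)⟩
  subst hM
  obtain ⟨I, h1, h3, h4⟩ := Pool.Agent.FML.idM K h2 him α x (f * y) a M 3 (by omega) (by norm_num)
    (by rw [n, hD]; push_cast; ring) c.symm
  exact ⟨I, h1, by rw [h3], h4⟩

/-- `N1`: the ideals -/
theorem nid (K : IntermediateField ℚ ℂ) [NumberField K] (h2 : Module.finrank ℚ K = 2)
    (him : ∃ x : K, (x : ℂ).im ≠ 0) (f : ℕ) (hf : 1 ≤ f)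
    (p y1 y2 y3 N1 N2 N3 xp x1 x2 x3 : ℤ) (D : ℕ) (h : Dat p y1 y2 y3 N1 N2 N3 D xp x1 x2 x3)
    (hD : D = f ^ 2 * aD K) (π α1 α2 α3 : 𝓞 K) (cp : Co K π xp (f * p)) (a1 : Co K α1 x1 (f * y1))
    (a2 : Co K α2 x2 (f * y2)) (a3 : Co K α3 x3 (f * y3)) (cu : π ^ 3 = α1 * α2 * α3) :
    ∃ I1 I2 I3 : (Ideal (𝓞 K))⁰,
      Idl K f p y1 y2 y3 N1 N2 N3 xp x1 x2 x3 π α1 α2 α3 I1 I2 I3 := by
  obtain ⟨I1, i1, m1, r1⟩ := nid_one K h2 him f D hD y1 N1 x1 α1 h.P1 h.n1 h.c1 a1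
  obtain ⟨I2, i2, m2, r2⟩ := nid_one K h2 him f D hD y2 N2 x2 α2 h.P2 h.n2 h.c2 a2
  obtain ⟨I3, i3, m3, r3⟩ := nid_one K h2 him f D hD y3 N3 x3 α3 h.P3 h.n3 h.c3 a3
  refine ⟨I1, I2, I3, cp, a1, a2, a3, cu, i1, i2, i3, m1, m2, m3, r1, r2, r3, ?_⟩
  apply nid_cube
  rw [mul_pow, mul_pow, i1, i2, i3, Ideal.span_singleton_mul_span_singleton,
    Ideal.span_singleton_mul_span_singleton, Ideal.span_singleton_pow, cu]

end Pool.Agent.SML
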