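import Mathlib

/-!
# SML/Ncx (N5): a computation in the complex numbers

`α1 ≠ 0` (`h1`, `hN`).  `θ1` with `θ1^3 = α1` (`IsAlgClosed.exists_pow_nat_eq α1 (n := 3)`), `θ1 ≠ 0`; `θ2 = conj (b3 / θ1)`,
`θ3 = b2 / conj θ1`.  `normSq θ1 = N1` because `(normSq θ1)^3 = N1^3` (see `Abc_r` in SMI/Abc.lean): `θ1 conj θ1 = N1`.
`θ2^3 = conj (b3^3 / α1) = conj (conj α2) = α2`; `θ3^3 = b2^3 / conj α1 = α3`.
`b3 = θ1 conj θ2`, `b2 = θ3 conj θ1`, `b = b2 b3 / N1 = θ3 conj θ2`, so `conj b = θ2 conj θ3`.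
So `k1 s = θ2 conj θ3 - conj θ2 θ3`, `k2 s = θ3 conj θ1 - conj θ3 θ1`, `k3 s = θ1 conj θ2 - conj θ1 θ2`:
`s (k1 θ1 + k2 θ2 + k3 θ3) = 0` (`ring`), so `k1 θ1 + k2 θ2 + k3 θ3 = 0` and
`(k1θ1)^3 + (k2θ2)^3 + (k3θ3)^3 = 3 (k1θ1)(k2θ2)(k3θ3)` (`x+y+z=0` gives `x^3+y^3+z^3 = 3xyz`).
`w = θ1 θ2 θ3 / π`: `w^3 = α1 α2 α3 / π^3 = 1`.
-/

set_option autoImplicit false

namespace Pool.Agent.SML

/-- `N5`: the complex computation -/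
theorem ncx (α1 α2 α3 π b2 b3 b s : ℂ) (N1 : ℝ) (k1 k2 k3 : ℂ) (hN : 0 < N1)
    (h1 : α1 * (starRingEnd ℂ) α1 = (N1 : ℂ) ^ 3)
    (e3 : b3 ^ 3 = α1 * (starRingEnd ℂ) α2) (e2 : b2 ^ 3 = α3 * (starRingEnd ℂ) α1)
    (eb : b2 * b3 = (N1 : ℂ) * b) (cu : π ^ 3 = α1 * α2 * α3) (hπ : π ≠ 0)
    (s3 : b3 - (starRingEnd ℂ) b3 = k3 * s) (s2 : b2 - (starRingEnd ℂ) b2 = k2 * s)
    (s1 : (starRingEnd ℂ) b - b = k1 * s) (hs : s ≠ 0) :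
    ∃ w : ℂ, w ^ 3 = 1 ∧
      k1 ^ 3 * α1 + k2 ^ 3 * α2 + k3 ^ 3 * α3 = 3 * (k1 * k2 * k3) * (w * π) := by
  have hN3 : ((N1 : ℂ)) ^ 3 ≠ 0 := by
    have : (N1 : ℂ) ≠ 0 := by exact_mod_cast hN.ne'
    exact pow_ne_zero _ this
  have hNc : (N1 : ℂ) ≠ 0 := by exact_mod_cast hN.ne'
  have ha1 : α1 ≠ 0 := by
    intro h
    rw [h, zero_mul] at h1
    exact hN3 h1.symm
  obtain ⟨t1, ht1⟩ := IsAlgClosed.exists_pow_nat_eq α1 (n := 3) (by norm_num)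
  have ht0 : t1 ≠ 0 := by
    intro h
    rw [h] at ht1
    apply ha1
    rw [← ht1]
    norm_num
  have hc0 : (starRingEnd ℂ) t1 ≠ 0 := by
    intro h
    exact ht0 ((map_eq_zero (starRingEnd ℂ)).1 h)
  have hct : ((starRingEnd ℂ) t1) ^ 3 = (starRingEnd ℂ) α1 := by
    rw [← map_pow, ht1]
  have n1 : t1 * (starRingEnd ℂ) t1 = (N1 : ℂ) := by
    rw [Complex.mul_conj]
    have h3 : (Complex.normSq t1) ^ 3 = N1 ^ 3 := by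
      have h4 : ((Complex.normSq t1 : ℝ) : ℂ) ^ 3 = (N1 : ℂ) ^ 3 := by
        rw [← Complex.mul_conj, mul_pow, ht1, hct, h1]
      exact_mod_cast h4
    have h5 : Complex.normSq t1 = N1 :=
      (pow_left_inj₀ (Complex.normSq_nonneg t1) hN.le (by norm_num)).1 h3
    rw [h5]
  obtain ⟨t2, ht2⟩ : ∃ t : ℂ, t = (starRingEnd ℂ) (b3 / t1) := ⟨_, rfl⟩
  obtain ⟨t3, ht3⟩ : ∃ t : ℂ, t = b2 / (starRingEnd ℂ) t1 := ⟨_, rfl⟩
  have c2 : (starRingEnd ℂ) t2 = b3 / t1 := by rw [ht2, Complex.conj_conj]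
  have hb3 : b3 = t1 * (starRingEnd ℂ) t2 := by rw [c2]; field_simp
  have hb2 : b2 = t3 * (starRingEnd ℂ) t1 := by rw [ht3]; field_simp
  have hca : (starRingEnd ℂ) α1 ≠ 0 := by
    intro h
    exact ha1 ((map_eq_zero (starRingEnd ℂ)).1 h)
  have p2 : t2 ^ 3 = α2 := by
    have : b3 ^ 3 / t1 ^ 3 = (starRingEnd ℂ) α2 := by
      rw [ht1, e3]; field_simp
    rw [ht2, ← map_pow, div_pow, this, Complex.conj_conj]
  have p3 : t3 ^ 3 = α3 := by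
    rw [ht3, div_pow, hct, e2]; field_simp
  have hb : b = t3 * (starRingEnd ℂ) t2 := by
    have : (N1 : ℂ) * b = (N1 : ℂ) * (t3 * (starRingEnd ℂ) t2) := by
      rw [← eb, hb2, hb3, ← n1]; ring
    exact mul_left_cancel₀ hNc this
  have cb : (starRingEnd ℂ) b = (starRingEnd ℂ) t3 * t2 := by
    rw [hb, map_mul, Complex.conj_conj]
  have cb2 : (starRingEnd ℂ) b2 = (starRingEnd ℂ) t3 * t1 := by
    rw [hb2, map_mul, Complex.conj_conj]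
  have cb3 : (starRingEnd ℂ) b3 = (starRingEnd ℂ) t1 * t2 := by
    rw [hb3, map_mul, Complex.conj_conj]
  have hz : s * (k1 * t1 + k2 * t2 + k3 * t3) = 0 := by
    have e : s * (k1 * t1 + k2 * t2 + k3 * t3)
        = (k1 * s) * t1 + (k2 * s) * t2 + (k3 * s) * t3 := by ring
    rw [e, ← s1, ← s2, ← s3, cb, cb2, cb3, hb, hb2, hb3]
    ring
  have hz2 : k1 * t1 + k2 * t2 + k3 * t3 = 0 := by
    rcases mul_eq_zero.1 hz with h | h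
    · exact absurd h hs
    · exact h
  refine ⟨t1 * t2 * t3 / π, ?_, ?_⟩
  · rw [div_pow, mul_pow, mul_pow, ht1, p2, p3, ← cu]
    exact div_self (pow_ne_zero _ hπ)
  · have e : t1 * t2 * t3 / π * π = t1 * t2 * t3 := by field_simp
    rw [e, ← ht1, ← p2, ← p3]
    have h3 : k3 * t3 = -(k1 * t1 + k2 * t2) := by linear_combination hz2
    have e1 : k1 ^ 3 * t1 ^ 3 + k2 ^ 3 * t2 ^ 3 + k3 ^ 3 * t3 ^ 3
        = (k1 * t1) ^ 3 + (k2 * t2) ^ 3 + (k3 * t3) ^ 3 := by ring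
    have e2' : 3 * (k1 * k2 * k3) * (t1 * t2 * t3)
        = 3 * (k1 * t1) * (k2 * t2) * (k3 * t3) := by ring
    rw [e1, e2', h3]
    ring

end Pool.Agent.SML
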