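import Pool.Agent.SML.DefsN
import Pool.Agent.SML.Ncj
import Pool.Agent.SML.Npd
import Pool.Agent.SML.Ncx
import Pool.Agent.SML.Nun
import Pool.Agent.FTB.Cor
import Pool.Agent.SMI.Cvn

/-!
# SML/Nkv (N5)
-/

set_option autoImplicit false

namespace Pool.Agent.SML

open NumberField Pool.Agent.FTA Pool.Agent.FTB Pool.Agent.SMI nonZeroDivisors

private theorem nkv_one (K : IntermediateField ℚ ℂ) [NumberField K] (P : (Ideal (𝓞 K))⁰) (a : 𝓞 K)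
    (h : (P : Ideal (𝓞 K)) = Ideal.span {a}) : ClassGroup.mk0 P = 1 := by
  apply (ClassGroup.mk0_eq_one_iff P.2).2
  exact ⟨a, h⟩

private theorem nkv_cmp (K : IntermediateField ℚ ℂ) [NumberField K] (t y t' y' : ℤ)
    (h : (t : ℂ) + (y : ℂ) * (((√(aD K : ℝ) : ℝ) : ℂ) * Complex.I) =
      (t' : ℂ) + (y' : ℂ) * (((√(aD K : ℝ) : ℝ) : ℂ) * Complex.I)) : y = y' := by
  have h2 := congrArg Complex.im h
  simp at h2
  rcases h2 with h2 | h2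
  · exact h2
  · exfalso
    have := aD_pos K
    omega

private theorem nkv_co (K : IntermediateField ℚ ℂ) [NumberField K] (a : 𝓞 K) (t y : ℤ)
    (h : Co K a t y) :
    2 * ((a : K) : ℂ) = (t : ℂ) + (y : ℂ) * (((√(aD K : ℝ) : ℝ) : ℂ) * Complex.I) := by
  unfold Co at h
  rw [h]
  ring

private theorem nkv_cj (K : IntermediateField ℚ ℂ) [NumberField K] (a : 𝓞 K) (t y : ℤ)
    (h : Co K a t y) :
    2 * (starRingEnd ℂ) ((a : K) : ℂ) =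
      (t : ℂ) - (y : ℂ) * (((√(aD K : ℝ) : ℝ) : ℂ) * Complex.I) := by
  unfold Co at h
  have h1 := congrArg (starRingEnd ℂ) h
  simp only [map_mul, map_add, Complex.conj_ofReal, Complex.conj_I] at h1
  have e1 : (starRingEnd ℂ) (t : ℂ) = (t : ℂ) := by simp
  have e2 : (starRingEnd ℂ) (y : ℂ) = (y : ℂ) := by simp
  have e3 : (starRingEnd ℂ) (2 : ℂ) = 2 := map_ofNat _ 2
  rw [e1, e2, e3] at h1
  rw [h1]
  ring

private theorem nkv_conj (K : IntermediateField ℚ ℂ) [NumberField K] (a a' : 𝓞 K) (t y : ℤ)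
    (h : Co K a t y) (h' : Co K a' t (-y)) : ((a' : K) : ℂ) = (starRingEnd ℂ) ((a : K) : ℂ) := by
  have h1 := nkv_co K a' t (-y) h'
  have h2 := nkv_cj K a t y h
  have h3 : (2 : ℂ) * ((a' : K) : ℂ) = 2 * (starRingEnd ℂ) ((a : K) : ℂ) := by
    rw [h1, h2]
    push_cast
    ring
  exact mul_left_cancel₀ two_ne_zero h3

/-- `N5`: equal classes give a short zero of `Cv` -/
theorem nkv (K : IntermediateField ℚ ℂ) [NumberField K] (h2 : Module.finrank ℚ K = 2)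
    (him : ∃ x : K, (x : ℂ).im ≠ 0) (hd : 5 ≤ aD K) (f : ℕ)
    (hf : 1 ≤ f) (p y1 y2 y3 N1 N2 N3 xp x1 x2 x3 : ℤ) (D : ℕ)
    (h : Dat p y1 y2 y3 N1 N2 N3 D xp x1 x2 x3) (π α1 α2 α3 : 𝓞 K) (I1 I2 I3 : (Ideal (𝓞 K))⁰)
    (hi : Idl K f p y1 y2 y3 N1 N2 N3 xp x1 x2 x3 π α1 α2 α3 I1 I2 I3)
    (he : ClassGroup.mk0 I1 = ClassGroup.mk0 I2) :
    ∃ k1 k2 k3 : ℤ, k3 ≠ 0 ∧ (aD K : ℤ) * k1 ^ 2 ≤ 4 * (N2 * N3) ∧
      (aD K : ℤ) * k2 ^ 2 ≤ 4 * (N1 * N3) ∧ (aD K : ℤ) * k3 ^ 2 ≤ 4 * (N1 * N2) ∧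
      Cv p y1 y2 y3 k1 k2 k3 = 0 := by
  obtain ⟨J1, α1', hJ1a, hJ1n, hJ1c, hJ1s, hJ1co, hJ1m⟩ := ncj K h2 him I1 α1 x1 (f * y1) hi.i1 hi.a1
  obtain ⟨J2, α2', hJ2a, hJ2n, hJ2c, hJ2s, hJ2co, hJ2m⟩ := ncj K h2 him I2 α2 x2 (f * y2) hi.i2 hi.a2
  -- classes
  have hA3 : ClassGroup.mk0 I1 ^ 3 = 1 := by
    rw [← map_pow]
    exact nkv_one K (I1 ^ 3) α1 (by rw [SubmonoidClass.coe_pow]; exact hi.i1)
  have hA123 : ClassGroup.mk0 I1 * ClassGroup.mk0 I2 * ClassGroup.mk0 I3 = 1 := by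
    rw [← map_mul, ← map_mul]
    exact nkv_one K (I1 * I2 * I3) π (by
      rw [Submonoid.coe_mul, Submonoid.coe_mul]; exact hi.ip)
  have hI3 : ClassGroup.mk0 I3 = ClassGroup.mk0 I1 := by
    rw [← he] at hA123
    have e1 : ClassGroup.mk0 I1 * ClassGroup.mk0 I1 * ClassGroup.mk0 I3 =
        ClassGroup.mk0 I1 * ClassGroup.mk0 I1 * ClassGroup.mk0 I1 := by
      rw [hA123, ← hA3]
      rw [pow_succ, pow_two]
    exact mul_left_cancel e1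
  obtain ⟨b3, hb3s, hb3c⟩ := npd K h2 him hd I1 J2 α1 α2' (by rw [hJ2c, ← he, mul_inv_cancel])
    hi.i1 hJ2s
  obtain ⟨b2, hb2s, hb2c⟩ := npd K h2 him hd I3 J1 α3 α1' (by rw [hJ1c, hI3, mul_inv_cancel])
    hi.i3 hJ1s
  have hN1 : 0 < Ideal.absNorm (I1 : Ideal (𝓞 K)) := by
    have := hi.m1
    have := h.P1
    omega
  have hn0 : ((Ideal.absNorm (I1 : Ideal (𝓞 K)) : ℕ) : 𝓞 K) ≠ 0 := by
    exact_mod_cast hN1.ne'
  obtain ⟨b, hbm, hbs⟩ := dvl K (b2 * b3) ((Ideal.absNorm (I1 : Ideal (𝓞 K)) : ℕ) : 𝓞 K)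
    ((I3 : Ideal (𝓞 K)) * (J2 : Ideal (𝓞 K))) hn0 (by
      rw [← Ideal.span_singleton_mul_span_singleton, hb2s, hb3s, ← hJ1a]
      ring)
  obtain ⟨r3, k3, hco3⟩ := co_exists K h2 him b3
  obtain ⟨r2, k2, hco2⟩ := co_exists K h2 him b2
  obtain ⟨r1, k1', hco1⟩ := co_exists K h2 him b
  -- norms
  have hn3 := co_norm K h2 him b3 r3 k3 hco3
  have hn2 := co_norm K h2 him b2 r2 k2 hco2
  have hn1 := co_norm K h2 him b r1 k1' hco1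
  rw [hb3s, map_mul, hJ2n, Nat.cast_mul, hi.m1, hi.m2] at hn3
  rw [hb2s, map_mul, hJ1n, Nat.cast_mul, hi.m1, hi.m3] at hn2
  rw [hbs, map_mul, hJ2n, Nat.cast_mul, hi.m2, hi.m3] at hn1
  -- complex numbers
  set S : ℂ := ((√(aD K : ℝ) : ℝ) : ℂ) * Complex.I with hS
  have hD0 : 0 < √(aD K : ℝ) := Real.sqrt_pos.2 (by exact_mod_cast aD_pos K)
  have hS0 : S ≠ 0 := by
    rw [hS]
    exact mul_ne_zero (by exact_mod_cast hD0.ne') Complex.I_ne_zero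
  have hcj1 : ((α1' : K) : ℂ) = (starRingEnd ℂ) ((α1 : K) : ℂ) := nkv_conj K α1 α1' _ _ hi.a1 hJ1co
  have hcj2 : ((α2' : K) : ℂ) = (starRingEnd ℂ) ((α2 : K) : ℂ) := nkv_conj K α2 α2' _ _ hi.a2 hJ2co
  have q3 := nkv_co K b3 r3 k3 hco3
  have q2 := nkv_co K b2 r2 k2 hco2
  have q1 := nkv_co K b r1 k1' hco1
  have qj3 := nkv_cj K b3 r3 k3 hco3
  have qj2 := nkv_cj K b2 r2 k2 hco2
  have qj1 := nkv_cj K b r1 k1' hco1
  have qa1 := nkv_co K α1 _ _ hi.a1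
  have qa2 := nkv_co K α2 _ _ hi.a2
  have qa3 := nkv_co K α3 _ _ hi.a3
  have qp := nkv_co K π _ _ hi.cp
  have qja2 := nkv_cj K α2 _ _ hi.a2
  rw [← hS] at q3 q2 q1 qj3 qj2 qj1 qa1 qa2 qa3 qp qja2
  have toC : ∀ u v : 𝓞 K, u = v → ((u : K) : ℂ) = ((v : K) : ℂ) := fun u v huv => by rw [huv]
  have c1 : ((α1 : K) : ℂ) * (starRingEnd ℂ) ((α1 : K) : ℂ) = (((N1 : ℝ)) : ℂ) ^ 3 := by
    have := toC _ _ hJ1m
    rw [← hcj1]
    have e : (((α1 * α1' : 𝓞 K) : K) : ℂ) = ((α1 : K) : ℂ) * ((α1' : K) : ℂ) := by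
      push_cast; rfl
    have e' : ((((((Ideal.absNorm (I1 : Ideal (𝓞 K)) : ℕ) : 𝓞 K) ^ 3 : 𝓞 K)) : K) : ℂ)
        = ((Ideal.absNorm (I1 : Ideal (𝓞 K)) : ℕ) : ℂ) ^ 3 := by
      push_cast; rfl
    rw [← e, this, e']
    have e'' : ((Ideal.absNorm (I1 : Ideal (𝓞 K)) : ℕ) : ℂ) = (((N1 : ℝ)) : ℂ) := by
      rw [← hi.m1]; push_cast; rfl
    rw [e'']
  have c3 : ((b3 : K) : ℂ) ^ 3 = ((α1 : K) : ℂ) * (starRingEnd ℂ) ((α2 : K) : ℂ) := by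
    rw [← hcj2]
    have := toC _ _ hb3c
    have e : (((b3 ^ 3 : 𝓞 K) : K) : ℂ) = ((b3 : K) : ℂ) ^ 3 := by push_cast; rfl
    have e' : (((α1 * α2' : 𝓞 K) : K) : ℂ) = ((α1 : K) : ℂ) * ((α2' : K) : ℂ) := by push_cast; rfl
    rw [← e, this, e']
  have c2 : ((b2 : K) : ℂ) ^ 3 = ((α3 : K) : ℂ) * (starRingEnd ℂ) ((α1 : K) : ℂ) := by
    rw [← hcj1]
    have := toC _ _ hb2c
    have e : (((b2 ^ 3 : 𝓞 K) : K) : ℂ) = ((b2 : K) : ℂ) ^ 3 := by push_cast; rfl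
    have e' : (((α3 * α1' : 𝓞 K) : K) : ℂ) = ((α3 : K) : ℂ) * ((α1' : K) : ℂ) := by push_cast; rfl
    rw [← e, this, e']
  have cb : ((b2 : K) : ℂ) * ((b3 : K) : ℂ) = (((N1 : ℝ)) : ℂ) * ((b : K) : ℂ) := by
    have := toC _ _ hbm
    have e : (((b2 * b3 : 𝓞 K) : K) : ℂ) = ((b2 : K) : ℂ) * ((b3 : K) : ℂ) := by push_cast; rfl
    have e' : (((((Ideal.absNorm (I1 : Ideal (𝓞 K)) : ℕ) : 𝓞 K) * b : 𝓞 K) : K) : ℂ)
        = ((Ideal.absNorm (I1 : Ideal (𝓞 K)) : ℕ) : ℂ) * ((b : K) : ℂ) := by push_cast; rfl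
    have e'' : ((Ideal.absNorm (I1 : Ideal (𝓞 K)) : ℕ) : ℂ) = (((N1 : ℝ)) : ℂ) := by
      rw [← hi.m1]; push_cast; rfl
    rw [← e, ← this, e', e'']
  have ccu : ((π : K) : ℂ) ^ 3 = ((α1 : K) : ℂ) * ((α2 : K) : ℂ) * ((α3 : K) : ℂ) := by
    have := toC _ _ hi.cu
    have e : (((π ^ 3 : 𝓞 K) : K) : ℂ) = ((π : K) : ℂ) ^ 3 := by push_cast; rfl
    have e' : (((α1 * α2 * α3 : 𝓞 K) : K) : ℂ) =
        ((α1 : K) : ℂ) * ((α2 : K) : ℂ) * ((α3 : K) : ℂ) := by push_cast; rfl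
    rw [← e, this, e']
  have hfp : ((f : ℤ) * p) ≠ 0 := by
    have := h.pp
    have : (1 : ℤ) ≤ f := by exact_mod_cast hf
    positivity
  have hf0 : (f : ℤ) ≠ 0 := by
    have : (1 : ℤ) ≤ f := by exact_mod_cast hf
    omega
  have hπ : ((π : K) : ℂ) ≠ 0 := by
    intro h0
    rw [h0, mul_zero] at qp
    have := nkv_cmp K 0 0 xp (f * p) (by
      rw [← hS]; push_cast; push_cast at qp; rw [← qp]; ring)
    exact hfp this.symm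
  obtain ⟨w, hw, hmain⟩ := ncx ((α1 : K) : ℂ) ((α2 : K) : ℂ) ((α3 : K) : ℂ) ((π : K) : ℂ)
    ((b2 : K) : ℂ) ((b3 : K) : ℂ) ((b : K) : ℂ) S (N1 : ℝ) ((-k1' : ℤ) : ℂ) (k2 : ℂ) (k3 : ℂ)
    (by have := h.P1; exact_mod_cast (by omega : (0 : ℤ) < N1)) c1 c3 c2 cb ccu hπ
    (by
      have : (2 : ℂ) * (((b3 : K) : ℂ) - (starRingEnd ℂ) ((b3 : K) : ℂ)) = 2 * ((k3 : ℂ) * S) := by
        linear_combination q3 - qj3
      exact mul_left_cancel₀ two_ne_zero this)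
    (by
      have : (2 : ℂ) * (((b2 : K) : ℂ) - (starRingEnd ℂ) ((b2 : K) : ℂ)) = 2 * ((k2 : ℂ) * S) := by
        linear_combination q2 - qj2
      exact mul_left_cancel₀ two_ne_zero this)
    (by
      have : (2 : ℂ) * ((starRingEnd ℂ) ((b : K) : ℂ) - ((b : K) : ℂ)) =
          2 * (((-k1' : ℤ) : ℂ) * S) := by
        push_cast
        linear_combination qj1 - q1
      exact mul_left_cancel₀ two_ne_zero this) hS0
  -- the value of w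
  have hmain2 : ((-k1' : ℤ) : ℂ) ^ 3 * ((α1 : K) : ℂ) + (k2 : ℂ) ^ 3 * ((α2 : K) : ℂ) +
      (k3 : ℂ) ^ 3 * ((α3 : K) : ℂ) = 3 * (((-k1' : ℤ) : ℂ) * (k2 : ℂ) * (k3 : ℂ)) * ((π : K) : ℂ) := by
    by_cases hk : (-k1') * k2 * k3 = 0
    · have hk' : ((-k1' : ℤ) : ℂ) * (k2 : ℂ) * (k3 : ℂ) = 0 := by exact_mod_cast hk
      rw [hmain, hk']
      ring
    · have hπ0 : π ≠ 0 := by
        intro h0
        apply hπ
        rw [h0]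
        rfl
      have hc0 : (((3 * ((-k1') * k2 * k3) : ℤ) : 𝓞 K) * π) ≠ 0 := by
        apply mul_ne_zero _ hπ0
        have : (3 * ((-k1') * k2 * k3) : ℤ) ≠ 0 := mul_ne_zero (by norm_num) hk
        exact_mod_cast this
      have hw1 := nwd K h2 him hd w hw
        ((((-k1') ^ 3 : ℤ) : 𝓞 K) * α1 + ((k2 ^ 3 : ℤ) : 𝓞 K) * α2 + ((k3 ^ 3 : ℤ) : 𝓞 K) * α3)
        (((3 * ((-k1') * k2 * k3) : ℤ) : 𝓞 K) * π) hc0 (by
          have e1 : (((((3 * ((-k1') * k2 * k3) : ℤ) : 𝓞 K) * π : 𝓞 K) : K) : ℂ) =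
              ((3 * ((-k1') * k2 * k3) : ℤ) : ℂ) * ((π : K) : ℂ) := by push_cast; rfl
          have e2 : ((((((-k1') ^ 3 : ℤ) : 𝓞 K) * α1 + ((k2 ^ 3 : ℤ) : 𝓞 K) * α2 +
              ((k3 ^ 3 : ℤ) : 𝓞 K) * α3 : 𝓞 K) : K) : ℂ) =
              (((-k1') ^ 3 : ℤ) : ℂ) * ((α1 : K) : ℂ) + ((k2 ^ 3 : ℤ) : ℂ) * ((α2 : K) : ℂ) +
              ((k3 ^ 3 : ℤ) : ℂ) * ((α3 : K) : ℂ) := by push_cast; rfl
          rw [e1, e2]
          push_cast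
          push_cast at hmain
          linear_combination -hmain)
      rw [hmain, hw1]
      ring
  have hfin : ((-k1') ^ 3 * (f * y1) + k2 ^ 3 * (f * y2) + k3 ^ 3 * (f * y3) : ℤ) =
      3 * ((-k1') * k2 * k3) * (f * p) := by
    apply nkv_cmp K ((-k1') ^ 3 * x1 + k2 ^ 3 * x2 + k3 ^ 3 * x3)
      _ (3 * ((-k1') * k2 * k3) * xp) _
    rw [← hS]
    push_cast
    push_cast at hmain2 qa1 qa2 qa3 qp
    linear_combination 2 * hmain2 - (-(k1' : ℂ)) ^ 3 * qa1 - (k2 : ℂ) ^ 3 * qa2 -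
      (k3 : ℂ) ^ 3 * qa3 + 3 * ((-(k1' : ℂ)) * k2 * k3) * qp
  refine ⟨-k1', k2, k3, ?_, ?_, ?_, ?_, ?_⟩
  · intro hk3
    rw [hk3] at q3
    have hr : (2 : ℂ) * ((b3 : K) : ℂ) = (r3 : ℂ) := by
      rw [q3]; push_cast; ring
    have hr3 : (8 : ℂ) * ((b3 : K) : ℂ) ^ 3 = (r3 : ℂ) ^ 3 := by
      rw [← hr]; ring
    have hprod : (4 : ℂ) * (((α1 : K) : ℂ) * (starRingEnd ℂ) ((α2 : K) : ℂ)) =
        (x1 + ((f * y1 : ℤ) : ℂ) * S) * (x2 - ((f * y2 : ℤ) : ℂ) * S) := by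
      rw [← qa1, ← qja2]; ring
    have hSS : S * S = -((aD K : ℕ) : ℂ) := by
      rw [hS]
      have e1 : ((√(aD K : ℝ) : ℝ) : ℂ) * ((√(aD K : ℝ) : ℝ) : ℂ) = (aD K : ℂ) := by
        rw [← Complex.ofReal_mul, Real.mul_self_sqrt (Nat.cast_nonneg _)]
        simp
      have hI := Complex.I_mul_I
      linear_combination (Complex.I * Complex.I) * e1 + (aD K : ℂ) * hI
    have := nkv_cmp K (2 * (x1 * x2 + (f * y1) * (f * y2) * (aD K : ℤ))) (2 * ((f * y1) * x2 - x1 * (f * y2)))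
      (r3 ^ 3) 0 (by
        rw [← hS]
        push_cast
        push_cast at hprod
        rw [← hr3, c3]
        linear_combination -2 * hprod + 2 * (f * y1 : ℂ) * (f * y2 : ℂ) * hSS)
    have h12 := h.k12
    apply h12
    have e5 : (f : ℤ) * (y1 * x2 - y2 * x1) = 0 := by linarith
    rcases mul_eq_zero.1 e5 with h6 | h6
    · exact absurd h6 hf0
    · linarith
  · have : (-k1') ^ 2 = k1' ^ 2 := by ring
    rw [this]
    nlinarith [sq_nonneg r1]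
  · nlinarith [sq_nonneg r2]
  · nlinarith [sq_nonneg r3]
  · have e5 : (f : ℤ) * Cv p y1 y2 y3 (-k1') k2 k3 = 0 := by
      unfold Cv
      linear_combination hfin
    rcases mul_eq_zero.1 e5 with h6 | h6
    · exact absurd h6 hf0
    · exact h6

end Pool.Agent.SML
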