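import Pool.Agent.SML.DefsN
import Pool.Agent.SMI.Vun
import Pool.Agent.SMI.Cvn
import Pool.Agent.FTB.Cor

/-!
# SML/Npc (N4)

If `mk0 I = 1`: `SMI.gnl` gives `b` with `span {b} = I`; `co_exists`: `Co K b t z`; `co_norm`: `4 absNorm I = t^2 + aD K z^2`, so `z = 0`.
`span {b^3} = I^3 = span {α}`; `Co K (b^3) x' 0` for some `x'` (in `ℂ`: `2 b = t` is real, `8 b^3 = t^3`; or two applications of `co_mul`
to the coordinates of `b^2`, `b^3` given by `co_exists`).  `SMI.vun` applied to `b^3`, `α`: `y = e * 0 = 0`, contradiction.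
-/

set_option autoImplicit false

namespace Pool.Agent.SML

open NumberField Pool.Agent.FTA Pool.Agent.FTB Pool.Agent.SMI nonZeroDivisors

/-- `N4`: small ideals are not principal -/
theorem npc (K : IntermediateField ℚ ℂ) [NumberField K] (h2 : Module.finrank ℚ K = 2)
    (him : ∃ x : K, (x : ℂ).im ≠ 0)
    (I : (Ideal (𝓞 K))⁰) (α : 𝓞 K) (x y : ℤ) (hI : (I : Ideal (𝓞 K)) ^ 3 = Ideal.span {α})
    (hα : Co K α x y) (hy : y ≠ 0) (hd : 5 ≤ aD K)
    (hN : 4 * Ideal.absNorm (I : Ideal (𝓞 K)) < aD K) : ClassGroup.mk0 I ≠ 1 := by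
  intro h
  obtain ⟨b, hb⟩ := gnl K I h
  obtain ⟨t, z, htz⟩ := co_exists K h2 him b
  have h1 := co_norm K h2 him b t z htz
  rw [hb] at h1
  have hN' : 4 * ((Ideal.absNorm (I : Ideal (𝓞 K)) : ℕ) : ℤ) < (aD K : ℤ) := by exact_mod_cast hN
  have hz : z = 0 := by
    by_contra hz
    have h3 : 1 ≤ z ^ 2 := by
      have := sq_nonneg z
      have h4 : z ^ 2 ≠ 0 := pow_ne_zero 2 hz
      omega
    have h4 := sq_nonneg t
    have h5 : (0 : ℤ) ≤ (aD K : ℤ) := Int.natCast_nonneg _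
    nlinarith
  subst hz
  obtain ⟨T, Y, hTY⟩ := co_exists K h2 him (b * b)
  have h3 := (co_mul K b b t 0 t 0 T Y htz htz hTY).2
  have hY : Y = 0 := by
    simp only [mul_zero, zero_mul, add_zero] at h3
    omega
  subst hY
  obtain ⟨T', Y', hTY'⟩ := co_exists K h2 him (b * b * b)
  have h4 := (co_mul K (b * b) b T 0 t 0 T' Y' hTY htz hTY').2
  have hY' : Y' = 0 := by
    simp only [mul_zero, zero_mul, add_zero] at h4
    omega
  subst hY'
  have hs : Ideal.span {b * b * b} = Ideal.span {α} := by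
    rw [← hI, ← hb, Ideal.span_singleton_pow]
    congr 2
    ring
  obtain ⟨e, -, -, he⟩ := vun K h2 him hd (b * b * b) α hs T' x 0 y hTY' hα
  exact hy (by rw [he, mul_zero])

end Pool.Agent.SML
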