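import Pool.Agent.SML.DefsN
import Pool.Agent.SML.Nkv
import Pool.Agent.SML.Npc

/-!
# SML/Nin (N6)

`aD K ≥ 5`: `hb.s1` with `d = aD K`: `4 N1 < aD K`, `N1 ≥ 2`.  `A^3 = B^3 = 1`: the cubes are principal.  `A ≠ 1`, `B ≠ 1`, and
`mk0 I3 ≠ 1`: `npc` (`y = f y_i ≠ 0`).  `A B ≠ 1`: `A B mk0 I3 = 1` (`hi.ip`).  `A ≠ B`: `nkv` gives `k`; `hb.s2` bounds the `|k_i|` by
`T^(1-γ/100)`; `hg` contradicts `Cv = 0` (`dvd_zero`).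
-/

set_option autoImplicit false

namespace Pool.Agent.SML

open NumberField Pool.Agent.FTA Pool.Agent.FTB Pool.Agent.SMI nonZeroDivisors

/-- `N6`: independence for small conductors -/
theorem nin (K : IntermediateField ℚ ℂ) [NumberField K] (h2 : Module.finrank ℚ K = 2)
    (him : ∃ x : K, (x : ℂ).im ≠ 0) (T : ℕ) (γ : ℝ) (hT : 1 ≤ T)
    (f : ℕ) (hf : 1 ≤ f) (hfF : (f : ℝ) ≤ (T : ℝ) ^ (7 * γ)) (p y1 y2 y3 : ℕ)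
    (N1 N2 N3 xp x1 x2 x3 : ℤ) (D : ℕ)
    (h : Dat p y1 y2 y3 N1 N2 N3 D xp x1 x2 x3) (hb : Big T γ N1 N2 N3 D) (hD : D = f ^ 2 * aD K)
    (hg : Good T (γ / 100) p y1 y2 y3) (π α1 α2 α3 : 𝓞 K) (I1 I2 I3 : (Ideal (𝓞 K))⁰)
    (hi : Idl K f p y1 y2 y3 N1 N2 N3 xp x1 x2 x3 π α1 α2 α3 I1 I2 I3) :
    Ind (ClassGroup.mk0 I1) (ClassGroup.mk0 I2) := by
  obtain ⟨s1, s2, s3⟩ := hb.s1 f (aD K) hD hfF
  have hf0 : (f : ℤ) ≠ 0 := by positivity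
  have hP1 := h.P1
  have hd : 5 ≤ aD K := by
    have : (8 : ℤ) < (aD K : ℤ) := by linarith
    omega
  have hA3 : ClassGroup.mk0 I1 ^ 3 = 1 := by
    rw [← map_pow]
    exact (ClassGroup.mk0_eq_one_iff (I1 ^ 3).2).2 ⟨α1, by
      rw [SubmonoidClass.coe_pow, hi.i1]⟩
  have hB3 : ClassGroup.mk0 I2 ^ 3 = 1 := by
    rw [← map_pow]
    exact (ClassGroup.mk0_eq_one_iff (I2 ^ 3).2).2 ⟨α2, by
      rw [SubmonoidClass.coe_pow, hi.i2]⟩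
  have hy1 : (f : ℤ) * (y1 : ℤ) ≠ 0 := mul_ne_zero hf0 (by have := h.q1; omega)
  have hy2 : (f : ℤ) * (y2 : ℤ) ≠ 0 := mul_ne_zero hf0 (by have := h.q2; omega)
  have hy3 : (f : ℤ) * (y3 : ℤ) ≠ 0 := mul_ne_zero hf0 (by have := h.q3; omega)
  have hA1 : ClassGroup.mk0 I1 ≠ 1 := npc K h2 him I1 α1 x1 _ hi.i1 hi.a1 hy1 hd (by
    have := hi.m1; omega)
  have hB1 : ClassGroup.mk0 I2 ≠ 1 := npc K h2 him I2 α2 x2 _ hi.i2 hi.a2 hy2 hd (by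
    have := hi.m2; omega)
  have hC1 : ClassGroup.mk0 I3 ≠ 1 := npc K h2 him I3 α3 x3 _ hi.i3 hi.a3 hy3 hd (by
    have := hi.m3; omega)
  have hABC : ClassGroup.mk0 I1 * ClassGroup.mk0 I2 * ClassGroup.mk0 I3 = 1 := by
    rw [← map_mul, ← map_mul]
    exact (ClassGroup.mk0_eq_one_iff (I1 * I2 * I3).2).2 ⟨π, by
      rw [Submonoid.coe_mul, Submonoid.coe_mul, hi.ip]⟩
  refine ⟨hA3, hB3, hA1, hB1, ?_, ?_⟩
  · intro he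
    obtain ⟨k1, k2, k3, hk3, e1, e2, e3, hC⟩ := nkv K h2 him hd f hf p y1 y2 y3 N1 N2 N3 xp x1 x2 x3 D h
      π α1 α2 α3 I1 I2 I3 hi he
    have b1 := hb.s2 f (aD K) hD hfF k1 (Or.inr (Or.inl e1))
    have b2 := hb.s2 f (aD K) hD hfF k2 (Or.inr (Or.inr e2))
    have b3 := hb.s2 f (aD K) hD hfF k3 (Or.inl e3)
    exact hg k1 k2 k3 (fun hz => hk3 hz.2.2) b1 b2 b3 (by rw [hC]; exact dvd_zero _)
  · intro he
    rw [he, one_mul] at hABC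
    exact hC1 hABC

end Pool.Agent.SML
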