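import Pool.Agent.SML.DefsN
import Pool.Agent.SML.Nin
import Pool.Agent.SML.Nel
import Pool.Agent.SML.Nid
import Pool.Agent.FTL.LFd

/-!
# SML/Nht

`FTL.fld D` (`D ≥ 1`, `D % 4 = 3`): `K = Kf D`, `f = cf D`, `D = f^2 aD K`, `f ≥ 1`.  `aD K ≥ 5`: `aD K` is odd and prime to 3 (as `D` is), and
`aD K ≠ 1` (if `aD K = 1`: `D = f^2`, `f` odd, `D = 1 mod 4`, contradiction to `D % 4 = 3`); so `aD K ≥ 5`.
`nel`, `nid`: `Idl`; `A = mk0 I1`, `B = mk0 I2`; cubes are principal (`Idl.i1`, `i2`, `ClassGroup.mk0_eq_one_iff`, `map_pow`); `nin`;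
`Big.Du`.
-/

set_option autoImplicit false

namespace Pool.Agent.SML

open NumberField Pool.Agent.FTA Pool.Agent.FTB Pool.Agent.SMI nonZeroDivisors

private theorem Nht_cube (K : IntermediateField ℚ ℂ) [NumberField K] (I : (Ideal (𝓞 K))⁰)
    (α : 𝓞 K) (h : (I : Ideal (𝓞 K)) ^ 3 = Ideal.span {α}) : (ClassGroup.mk0 I) ^ 3 = 1 := by
  rw [← map_pow]
  have h1 : ((I ^ 3 : (Ideal (𝓞 K))⁰) : Ideal (𝓞 K)) = Ideal.span {α} := by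
    rw [← h]; rfl
  have h2 : (((I ^ 3 : (Ideal (𝓞 K))⁰) : Ideal (𝓞 K))).IsPrincipal := by
    rw [h1]; exact ⟨⟨α, rfl⟩⟩
  exact (ClassGroup.mk0_eq_one_iff (I ^ 3 : (Ideal (𝓞 K))⁰).2).2 h2

private theorem Nht_five (D f d : ℕ) (h4 : D % 4 = 3) (h3 : ¬ 3 ∣ D) (hD : D = f ^ 2 * d)
    (hd : 0 < d) : 5 ≤ d := by
  by_contra hlt
  push Not at hlt
  have hf : f % 4 = 0 ∨ f % 4 = 1 ∨ f % 4 = 2 ∨ f % 4 = 3 := by omega
  have hm : D % 4 = ((f % 4) * (f % 4)) % 4 * (d % 4) % 4 := by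
    rw [hD, pow_two, Nat.mul_mod, Nat.mul_mod f f]
  interval_cases d
  · rcases hf with h | h | h | h <;> rw [h] at hm <;> omega
  · rcases hf with h | h | h | h <;> rw [h] at hm <;> omega
  · exact h3 ⟨f ^ 2, by rw [hD]; ring⟩
  · rcases hf with h | h | h | h <;> rw [h] at hm <;> omega

/-- every vector with data is attached to a field -/
theorem nht (T : ℕ) (γ : ℝ) (hT : 1 ≤ T) (p y1 y2 y3 : ℕ)
    (N1 N2 N3 xp x1 x2 x3 : ℤ) (D : ℕ)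
    (h : Dat p y1 y2 y3 N1 N2 N3 D xp x1 x2 x3) (hb : Big T γ N1 N2 N3 D)
    (hg : Good T (γ / 100) p y1 y2 y3) :
    ∃ (K : IntermediateField ℚ ℂ) (f : ℕ), HV T γ K f (p, y1, y2, y3) := by
  have hD4 := h.D4
  obtain ⟨⟨hNF, h2⟩, him, hDK, hf, -⟩ := Pool.Agent.FTL.fld D (by omega) (Or.inr hD4)
  obtain ⟨π, α1, α2, α3, cp, a1, a2, a3, cu⟩ :=
    nel (Pool.Agent.FTL.Kf D) h2 him (Pool.Agent.FTL.cf D) hf p y1 y2 y3 N1 N2 N3 xp x1 x2 x3 D h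
      hDK
  obtain ⟨I1, I2, I3, hi⟩ :=
    nid (Pool.Agent.FTL.Kf D) h2 him (Pool.Agent.FTL.cf D) hf p y1 y2 y3 N1 N2 N3 xp x1 x2 x3 D h
      hDK π α1 α2 α3 cp a1 a2 a3 cu
  have h5 : 5 ≤ aD (Pool.Agent.FTL.Kf D) :=
    Nht_five D (Pool.Agent.FTL.cf D) (aD (Pool.Agent.FTL.Kf D)) hD4 h.D3 hDK (aD_pos _)
  refine ⟨Pool.Agent.FTL.Kf D, Pool.Agent.FTL.cf D, hNF, h2, him, h5, hf, ?_,
    ClassGroup.mk0 I1, ClassGroup.mk0 I2, ?_, Nht_cube _ I1 α1 hi.i1, Nht_cube _ I2 α2 hi.i2, ?_⟩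
  · rw [← hDK]; exact hb.Du
  · exact ⟨N1, N2, N3, D, xp, x1, x2, x3, π, α1, α2, α3, I1, I2, I3, h, hb, hf, hDK, hi, rfl, rfl⟩
  · intro hfF
    exact nin (Pool.Agent.FTL.Kf D) h2 him T γ hT (Pool.Agent.FTL.cf D) hf hfF p y1 y2 y3 N1 N2 N3
      xp x1 x2 x3 D h hb hDK hg π α1 α2 α3 I1 I2 I3 hi

end Pool.Agent.SML
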