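import Pool.Agent.SML.Cal
import Pool.Agent.SML.Nht
import Pool.Agent.SML.Nce
import Pool.Agent.SML.Nfn

/-!
# SML/Fin0: the assembly, with the family and the points as hypotheses
-/

set_option autoImplicit false

namespace Pool.Agent.SML

open NumberField Pool.Agent.FTA

/-- the family of vectors together with their points (Theorem A' and Theorem P) -/
def Brd : Prop := ∀ γ : ℝ, 0 < γ → γ < 1 / 100 → ∃ c : ℝ, 0 < c ∧ c ≤ γ / 10 ^ 4 ∧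
  ∃ T0 : ℕ, ∀ T : ℕ, T0 ≤ T → ∃ V : Finset (ℕ × ℕ × ℕ × ℕ), (T : ℝ) ^ (4 - 10 * c) ≤ V.card ∧
    ∀ v ∈ V, Fam T c v.1 v.2.1 v.2.2.1 v.2.2.2 ∧ Good T (γ / 100) v.1 v.2.1 v.2.2.1 v.2.2.2 ∧
      ∃ g1 g2 g3 N1 N2 N3 : ℤ, Pts T γ v.1 v.2.1 v.2.2.1 v.2.2.2 g1 g2 g3 N1 N2 N3

theorem fin1 (hB : Brd) (γ : ℝ) (hγ : 0 < γ) (hγ2 : γ < 1 / 100) :
    ∃ T0 : ℕ, ∀ T : ℕ, T0 ≤ T → ∃ V : Finset (ℕ × ℕ × ℕ × ℕ),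
      (T : ℝ) ^ (4 - γ / 1000) ≤ V.card ∧
      ∀ v ∈ V, ∃ (K : IntermediateField ℚ ℂ) (f : ℕ), HV T γ K f v := by
  obtain ⟨c, hc0, hc, T1, h1⟩ := hB γ hγ hγ2
  obtain ⟨T3, h3⟩ := alg γ c hγ hγ2 hc0 hc
  refine ⟨T1 + T3 + 1, fun T hT => ?_⟩
  have hT1 : 1 ≤ T := by omega
  have hTr : (1 : ℝ) ≤ T := by exact_mod_cast hT1
  obtain ⟨V, hV, hv⟩ := h1 T (by omega)
  refine ⟨V, le_trans ?_ hV, fun v hvV => ?_⟩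
  · apply Real.rpow_le_rpow_of_exponent_le hTr
    have : γ / 10 ^ 4 * 10 = γ / 1000 := by norm_num; ring
    linarith
  · obtain ⟨hF, hG, g1, g2, g3, N1, N2, N3, hp⟩ := hv v hvV
    obtain ⟨D, xp, x1, x2, x3, hd, hb⟩ := h3 T (by omega) _ _ _ _ hF _ _ _ _ _ _ hp
    exact nht T γ hT1 _ _ _ _ _ _ _ _ _ _ _ D hd hb hG

theorem fin0 (hB : Brd)
    (hU : ∀ ε : ℝ, 0 < ε → ∃ C : ℝ, 0 < C ∧ ∀ X : ℝ, 1 ≤ X →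
      ∑ᶠ K ∈ IQ ⌊X⌋₊, ((Nat.card {c : ClassGroup (𝓞 K) // c ^ 3 = 1} : ℝ)) ^ 2 ≤ C * X ^ (1 + ε))
    (ε : ℝ) (hε : 0 < ε) : ∃ X0 : ℝ, ∀ X : ℝ, X0 ≤ X →
      ∀ (H : Type) [CommGroup H], Nat.card H = 9 → (∀ x : H, x ^ 3 = 1) →
      X ^ (1 - ε) ≤ ∑ᶠ K ∈ IQ ⌊X⌋₊, (Nat.card {f : ↥(Subgroup.closure
        {g : ClassGroup (𝓞 K) | ∃ n : ℕ, g ^ (3 ^ n) = 1}) →* H // Function.Surjective f} : ℝ) :=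
  nfn (fun γ h1 h2 => nce γ h1 h2 hU (fin1 hB γ h1 h2)) ε hε

end Pool.Agent.SML
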