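import Pool.Agent.SML.Fin0
import Pool.Agent.FTA.Fam

/-!
# SML/Fin2: the average form of the lower bound
-/

set_option autoImplicit false

namespace Pool.Agent.SML

open NumberField Pool.Agent.FTA

theorem fin2 (hB : Brd)
    (hU : ∀ ε : ℝ, 0 < ε → ∃ C : ℝ, 0 < C ∧ ∀ X : ℝ, 1 ≤ X →
      ∑ᶠ K ∈ IQ ⌊X⌋₊, ((Nat.card {c : ClassGroup (𝓞 K) // c ^ 3 = 1} : ℝ)) ^ 2 ≤ C * X ^ (1 + ε))
    (ε : ℝ) (hε : 0 < ε) : ∃ X0 : ℝ, ∀ X : ℝ, X0 ≤ X →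
      ∀ (H : Type) [CommGroup H], Nat.card H = 9 → (∀ x : H, x ^ 3 = 1) →
      X ^ (-ε) ≤ (∑ᶠ K ∈ IQ ⌊X⌋₊, (Nat.card {f : ↥(Subgroup.closure
        {g : ClassGroup (𝓞 K) | ∃ n : ℕ, g ^ (3 ^ n) = 1}) →* H // Function.Surjective f} : ℝ)) /
        (IQ ⌊X⌋₊).ncard := by
  obtain ⟨X0, h⟩ := fin0 hB hU ε hε
  refine ⟨max X0 1, fun X hX H _ h9 h3 => ?_⟩
  have hX1 : (1 : ℝ) ≤ X := (le_max_right _ _).trans hX
  have hX0 : (0 : ℝ) < X := by linarith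
  have h1 := h X ((le_max_left _ _).trans hX) H h9 h3
  have hpos : (0 : ℝ) < X ^ (1 - ε) := Real.rpow_pos_of_pos hX0 _
  have hn0 : (IQ ⌊X⌋₊).ncard ≠ 0 := by
    intro h0
    rw [Set.ncard_eq_zero (famFin _)] at h0
    rw [h0] at h1
    simp only [Set.mem_empty_iff_false, finsum_false, finsum_zero] at h1
    linarith
  have hn1 : (0 : ℝ) < ((IQ ⌊X⌋₊).ncard : ℝ) := by
    exact_mod_cast Nat.pos_of_ne_zero hn0
  have hn2 : ((IQ ⌊X⌋₊).ncard : ℝ) ≤ X := by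
    calc ((IQ ⌊X⌋₊).ncard : ℝ) ≤ (⌊X⌋₊ : ℝ) := by exact_mod_cast famCard ⌊X⌋₊
      _ ≤ X := Nat.floor_le hX0.le
  rw [le_div_iff₀ hn1]
  refine le_trans ?_ h1
  calc X ^ (-ε) * ((IQ ⌊X⌋₊).ncard : ℝ) ≤ X ^ (-ε) * X :=
        mul_le_mul_of_nonneg_left hn2 (Real.rpow_nonneg hX0.le _)
    _ = X ^ (1 - ε) := by
        rw [← Real.rpow_add_one hX0.ne']
        congr 1
        ring

end Pool.Agent.SML
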