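import Pool.Agent.SML.Defs

/-!
# SML/Ing: definitions for section C (algebra)
-/

set_option autoImplicit false

namespace Pool.Agent.SML

/-- the polynomial `C(g)` -/
def Cg (p y1 y2 y3 g1 g2 g3 : ℤ) : ℤ :=
  (2 * (y1 * y2 * y3) + p ^ 3) * (g1 * g2 * g3) -
    p * (y1 * y2 * g3 ^ 3 + y1 * y3 * g2 ^ 3 + y2 * y3 * g1 ^ 3)

/-- the hypotheses of section C -/
structure Ing (p y1 y2 y3 g1 g2 g3 N1 N2 N3 : ℤ) : Prop where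
  pp : 0 < p
  m0 : 0 < mm p y1 y2 y3
  q1 : 2 ≤ y1
  q2 : 2 ≤ y2
  q3 : 1 ≤ y3
  e1 : N1 * mm p y1 y2 y3 = p * g1 ^ 2 - y1 * g2 * g3
  e2 : N2 * mm p y1 y2 y3 = p * g2 ^ 2 - y2 * g3 * g1
  e3 : N3 * mm p y1 y2 y3 = p * g3 ^ 2 - y3 * g1 * g2
  p4 : p % 4 = 2
  p3 : (3 : ℤ) ∣ p
  w1 : IsCoprime g1 6
  w2 : IsCoprime g2 6
  w3 : IsCoprime g3 6
  r3 : (3 : ℤ) ∣ y2 * y3 * g2 * g3 + 1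
  c12 : IsCoprime y1 y2
  c13 : IsCoprime y1 y3
  c23 : IsCoprime y2 y3
  cp1 : IsCoprime p y1
  cp2 : IsCoprime p y2
  cp3 : IsCoprime p y3
  gm : IsCoprime g1 (mm p y1 y2 y3)
  gp1 : IsCoprime g1 p
  gp2 : IsCoprime g2 p
  gp3 : IsCoprime g3 p
  gy1 : IsCoprime g1 y1
  gy2 : IsCoprime g2 y2
  gy3 : IsCoprime g3 y3
  ny1 : IsCoprime N1 y1
  ny2 : IsCoprime N2 y2
  ny3 : IsCoprime N3 y3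
  n12 : IsCoprime N1 N2
  n13 : IsCoprime N1 N3
  n23 : IsCoprime N2 N3

/-- the relations of the integers `D, xp, x1, x2, x3` attached to the point -/
structure Rel (p y1 y2 y3 g1 g2 g3 N1 N2 N3 D xp x1 x2 x3 : ℤ) : Prop where
  hx : (mm p y1 y2 y3) ^ 2 * xp = - Cg p y1 y2 y3 g1 g2 g3
  k1 : g1 * y1 * xp = N1 ^ 2 * p ^ 2 - N1 * g1 ^ 2 - N2 * N3 * y1 ^ 2
  k2 : g2 * y2 * xp = N2 ^ 2 * p ^ 2 - N2 * g2 ^ 2 - N3 * N1 * y2 ^ 2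
  k3 : g3 * y3 * xp = N3 ^ 2 * p ^ 2 - N3 * g3 ^ 2 - N1 * N2 * y3 ^ 2
  hx1 : p * x1 = y1 * xp + 2 * N1 * g1
  hx2 : p * x2 = y2 * xp + 2 * N2 * g2
  hx3 : p * x3 = y3 * xp + 2 * N3 * g3
  np : D * p ^ 2 = 4 * N1 * N2 * N3 - xp ^ 2
  n1 : D * y1 ^ 2 = 4 * N1 ^ 3 - x1 ^ 2
  n2 : D * y2 ^ 2 = 4 * N2 ^ 3 - x2 ^ 2
  n3 : D * y3 ^ 2 = 4 * N3 ^ 3 - x3 ^ 2

/-- the integral data attached to a point, free of `g` -/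
structure Dat (p y1 y2 y3 N1 N2 N3 : ℤ) (D : ℕ) (xp x1 x2 x3 : ℤ) : Prop where
  D4 : D % 4 = 3
  D3 : ¬ 3 ∣ D
  pp : 0 < p
  q1 : 2 ≤ y1
  q2 : 1 ≤ y2
  q3 : 1 ≤ y3
  P1 : 2 ≤ N1
  P2 : 2 ≤ N2
  P3 : 2 ≤ N3
  n1 : 4 * N1 ^ 3 = x1 ^ 2 + (D : ℤ) * y1 ^ 2
  n2 : 4 * N2 ^ 3 = x2 ^ 2 + (D : ℤ) * y2 ^ 2
  n3 : 4 * N3 ^ 3 = x3 ^ 2 + (D : ℤ) * y3 ^ 2
  np : 4 * (N1 * N2 * N3) = xp ^ 2 + (D : ℤ) * p ^ 2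
  re : xp ^ 3 - 3 * xp * p ^ 2 * D = x1 * x2 * x3 - D * (x1 * y2 * y3 + x2 * y1 * y3 + x3 * y1 * y2)
  im : 3 * xp ^ 2 * p - p ^ 3 * D = x1 * x2 * y3 + x1 * x3 * y2 + x2 * x3 * y1 - D * (y1 * y2 * y3)
  c1 : IsCoprime N1 x1
  c2 : IsCoprime N2 x2
  c3 : IsCoprime N3 x3
  d1 : IsCoprime N1 (D : ℤ)
  d2 : IsCoprime N2 (D : ℤ)
  d3 : IsCoprime N3 (D : ℤ)
  k12 : y1 * x2 ≠ y2 * x1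

/-- the bound for the norms -/
noncomputable def BT (T : ℕ) (γ : ℝ) : ℝ := 5 * (Gg T γ : ℝ) ^ 2 / ((Wz : ℝ) * T) ^ 2

/-- the size facts that are used later -/
structure Big (T : ℕ) (γ : ℝ) (N1 N2 N3 : ℤ) (D : ℕ) : Prop where
  Du : (D : ℝ) ≤ (T : ℝ) ^ (4 + 6 * γ)
  b1 : (N1 : ℝ) ≤ BT T γ
  b2 : (N2 : ℝ) ≤ BT T γ
  b3 : (N3 : ℝ) ≤ BT T γ
  bt : 4 * (BT T γ) ^ 2 < (D : ℝ)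
  s1 : ∀ f d : ℕ, D = f ^ 2 * d → (f : ℝ) ≤ (T : ℝ) ^ (7 * γ) →
    4 * N1 < (d : ℤ) ∧ 4 * N2 < (d : ℤ) ∧ 4 * N3 < (d : ℤ)
  s2 : ∀ f d : ℕ, D = f ^ 2 * d → (f : ℝ) ≤ (T : ℝ) ^ (7 * γ) → ∀ k : ℤ,
    ((d : ℤ) * k ^ 2 ≤ 4 * (N1 * N2) ∨ (d : ℤ) * k ^ 2 ≤ 4 * (N2 * N3) ∨
      (d : ℤ) * k ^ 2 ≤ 4 * (N1 * N3)) → |(k : ℝ)| ≤ (T : ℝ) ^ (1 - γ / 100)

end Pool.Agent.SML
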