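import Pool.Agent.SMI.Defs

/-!
# SML/Nso (N11)

`t = #E[3]`.  `Ind A B`: `A, B ∈ E[3]`, `A ≠ 1`, `B ∉ {1, A, A⁻¹}` (`A B ≠ 1` iff `B ≠ A⁻¹`).  For `A ∈ E[3]`, `A ≠ 1`: `1, A, A⁻¹` are three different
elements of `E[3]` (`A = A⁻¹` gives `A^2 = 1`, `A = A^3 = 1`): `t - 3` choices of `B`.  Total `(t-1)(t-3)` if `t ≥ 3`; if `t = 1` there is no pair
and the right side is 0 (`t ≥ 1`; `t = 2` cannot happen when there is `A ≠ 1`; if all `A = 1` then `t = 1`).
In Lean: `Fintype`/`Finset` of `E` (classical), `Finset.card_sigma` or `Finset.card_eq_sum_card_fiberwise` over `A`.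
-/

set_option autoImplicit false

namespace Pool.Agent.SML

open Pool.Agent.SMI

/-- the number of independent pairs of elements of order 3 -/
theorem nso (E : Type*) [CommGroup E] [Finite E] :
    (Nat.card {q : E × E // Ind q.1 q.2} : ℤ) =
      ((Nat.card {c : E // c ^ 3 = 1} : ℤ) - 1) * ((Nat.card {c : E // c ^ 3 = 1} : ℤ) - 3) := by
  classical
  have := Fintype.ofFinite E
  set T : Finset E := Finset.univ.filter (fun c => c ^ 3 = 1) with hT
  have hTc : Nat.card {c : E // c ^ 3 = 1} = T.card := by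
    rw [Nat.card_eq_fintype_card, Fintype.card_subtype]
  have hSc : Nat.card {q : E × E // Ind q.1 q.2} =
      ((Finset.univ : Finset (E × E)).filter (fun q => Ind q.1 q.2)).card := by
    rw [Nat.card_eq_fintype_card, Fintype.card_subtype]
  have h1T : (1 : E) ∈ T := by simp [hT]
  have hmaps : ∀ q ∈ (Finset.univ : Finset (E × E)).filter (fun q => Ind q.1 q.2),
      q.1 ∈ T.erase 1 := by
    intro q hq
    have h := (Finset.mem_filter.mp hq).2
    exact Finset.mem_erase.mpr ⟨h.2.2.1, Finset.mem_filter.mpr ⟨Finset.mem_univ _, h.1⟩⟩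
  have hfib : ∀ A ∈ T.erase 1, ((((Finset.univ : Finset (E × E)).filter
      (fun q => Ind q.1 q.2)).filter (fun q => q.1 = A)).card : ℤ) = (T.card : ℤ) - 3 := by
    intro A hA
    have hA1 : A ≠ 1 := (Finset.mem_erase.mp hA).1
    have hA3 : A ^ 3 = 1 := (Finset.mem_filter.mp (Finset.mem_erase.mp hA).2).2
    have hAi1 : A⁻¹ ≠ 1 := fun h => hA1 (inv_eq_one.mp h)
    have hAi3 : A⁻¹ ^ 3 = 1 := by rw [inv_pow, hA3, inv_one]
    have hAA : A⁻¹ ≠ A := by
      intro h
      have h2 : A * A = 1 := by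
        nth_rewrite 1 [← h]
        exact inv_mul_cancel A
      have h3 : A ^ 3 = A * A * A := by rw [pow_succ, pow_two]
      rw [h2, one_mul, hA3] at h3
      exact hA1 h3.symm
    have he : (((Finset.univ : Finset (E × E)).filter (fun q => Ind q.1 q.2)).filter
        (fun q => q.1 = A)) = (((T.erase 1).erase A).erase A⁻¹).image (fun B => (A, B)) := by
      ext ⟨a, b⟩
      simp only [Finset.mem_filter, Finset.mem_univ, true_and, Finset.mem_image, Finset.mem_erase,
        Prod.mk.injEq, hT]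
      constructor
      · rintro ⟨⟨_, hb3, _, hb1, hab, hmul⟩, rfl⟩
        refine ⟨b, ⟨?_, fun h => hab h.symm, hb1, hb3⟩, rfl, rfl⟩
        intro h
        rw [h] at hmul
        exact hmul (mul_inv_cancel a)
      · rintro ⟨B, ⟨hB1, hB2, hB3, hB4⟩, rfl, rfl⟩
        refine ⟨⟨hA3, hB4, hA1, hB3, fun h => hB2 h.symm, fun h => hB1 ?_⟩, rfl⟩
        exact eq_inv_of_mul_eq_one_right h
    rw [he, Finset.card_image_of_injective _ (Prod.mk_right_injective A)]
    have hAmem : A ∈ T.erase 1 := hA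
    have hAimem : A⁻¹ ∈ (T.erase 1).erase A :=
      Finset.mem_erase.mpr ⟨hAA, Finset.mem_erase.mpr ⟨hAi1, Finset.mem_filter.mpr
        ⟨Finset.mem_univ _, hAi3⟩⟩⟩
    have c1 := Finset.card_erase_add_one h1T
    have c2 := Finset.card_erase_add_one hAmem
    have c3 := Finset.card_erase_add_one hAimem
    omega
  rw [hSc, hTc, Finset.card_eq_sum_card_fiberwise hmaps, Nat.cast_sum, Finset.sum_congr rfl hfib,
    Finset.sum_const, nsmul_eq_mul]
  have c1 := Finset.card_erase_add_one h1T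
  have c2 : ((T.erase 1).card : ℤ) = (T.card : ℤ) - 1 := by omega
  rw [c2]

end Pool.Agent.SML
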